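import Pool.Agent.FJ.S.Defs

/-! # FJ, Theorem S: the apolarity pairing -/

set_option linter.unusedSectionVars false

namespace Pool.Agent.FJ.S

open Pool.Agent.Helper38.Scroll Module MvPolynomial

section

variable {K ι : Type} [Field K] [CharZero K] [Fintype ι]

/-- The functional `X^α ↦ α! p_α` attached to the polynomial with coefficients `p_α`. -/
theorem exists_apolar (P : MvPolynomial ι K) {m : ℕ} (hP : P.IsHomogeneous m) :
    ∃ θ : MvPolynomial ι K →ₗ[K] K, (∀ v : ι → K,
      θ ((∑ i, C (v i) * X i) ^ m) = (m.factorial : K) * eval v P) ∧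
      (P ≠ 0 → ∃ f : MvPolynomial ι K, f.IsHomogeneous m ∧ θ f ≠ 0) := by
  classical
  let w : (ι →₀ ℕ) → K := fun α => (∏ i, ((α i).factorial : K)) * coeff α P
  let θ := (basisMonomials ι K).constr K w
  have hθ : ∀ (α : ι →₀ ℕ) (c : K), θ (monomial α c) = c * w α := by
    intro α c
    have h1 : (monomial α c : MvPolynomial ι K) = c • (basisMonomials ι K α) := by
      rw [coe_basisMonomials, smul_monomial, smul_eq_mul, mul_one]
    rw [h1, map_smul, Basis.constr_basis, smul_eq_mul]
  refine ⟨θ, fun v => ?_, fun hP0 => ?_⟩
  · set f : MvPolynomial ι K := (∑ i, C (v i) * X i) ^ m with hf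
    have hf' : f = (∑ i, v i • X i) ^ m := by
      rw [hf]
      congr 1
      exact Finset.sum_congr rfl fun i _ => (smul_eq_C_mul _ _).symm
    have hterm : ∀ s : ι →₀ ℕ, coeff s f * w s =
        (m.factorial : K) * (coeff s P * ∏ i, v i ^ s i) := by
      intro s
      rw [hf', coeff_linearCombination_X_pow_of_fintype]
      split_ifs with hs
      · have h2 : s.multinomial = Nat.multinomial Finset.univ s :=
          Finsupp.multinomial_eq_of_support_subset (Finset.subset_univ _)
        have h3 := Nat.multinomial_spec Finset.univ (f := (s : ι → ℕ))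
        have h4 : ∑ i, s i = m := by
          rw [← hs, Finsupp.sum_fintype _ _ fun _ => rfl]
        rw [h4] at h3
        rw [h2, Finsupp.prod_fintype _ _ fun _ => pow_zero _, ← h3]
        push_cast
        ring
      · have h2 : coeff s P = 0 := by
          by_contra h0
          apply hs
          have := hP h0
          rw [← this, Finsupp.weight_apply]
          exact Finsupp.sum_congr fun i _ => by simp
        rw [h2]
        simp
    have h5 : θ f = ∑ s ∈ f.support ∪ P.support, coeff s f * w s := by
      conv_lhs => rw [f.as_sum]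
      rw [map_sum]
      simp only [hθ]
      refine Finset.sum_subset Finset.subset_union_left fun s _ hs => ?_
      rw [notMem_support_iff.1 hs, zero_mul]
    have h6 : eval v P = ∑ s ∈ f.support ∪ P.support, coeff s P * ∏ i, v i ^ s i := by
      rw [eval_eq']
      refine Finset.sum_subset Finset.subset_union_right fun s _ hs => ?_
      rw [notMem_support_iff.1 hs, zero_mul]
    rw [h5, h6, Finset.mul_sum]
    exact Finset.sum_congr rfl fun s _ => hterm s
  · obtain ⟨α, hα⟩ := exists_coeff_ne_zero hP0
    refine ⟨monomial α 1, ?_, ?_⟩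
    · refine isHomogeneous_monomial _ ?_
      have := hP hα
      rw [← this, Finsupp.weight_apply, Finsupp.degree_apply]
      exact Finset.sum_congr rfl fun i _ => by simp
    · rw [hθ, one_mul]
      refine mul_ne_zero (Finset.prod_ne_zero_iff.2 fun i _ => ?_) hα
      exact_mod_cast (Nat.factorial_ne_zero _)

end

end Pool.Agent.FJ.S
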