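import Pool.Agent.FJ.S.Defs

/-! # FJ, Theorem S: bases of global sections -/

set_option linter.unusedSectionVars false

namespace Pool.Agent.FJ.S

open Pool.Agent.Helper38.Scroll Module MvPolynomial

section

variable {k : Type} [Field k] {U : Type} [AddCommGroup U] [Module (RatFunc k) U]

/-- The submodule `π_a^n • W`. -/
def R1shift (a : Option k) (W : Submodule (localRing a) U) (n : ℤ) : Submodule (localRing a) U where
  carrier := {u | (unifAt a) ^ (-n) • u ∈ W}
  add_mem' := by
    intro u v hu hv
    simp only [Set.mem_ofPred_eq] at hu hv ⊢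
    rw [smul_add]
    exact W.add_mem hu hv
  zero_mem' := by
    simp only [Set.mem_ofPred_eq]
    rw [smul_zero]
    exact W.zero_mem
  smul_mem' := by
    intro c u hu
    simp only [Set.mem_ofPred_eq] at hu ⊢
    rw [smul_comm]
    exact W.smul_mem c hu

lemma mem_R1shift {a : Option k} {W : Submodule (localRing a) U} {n : ℤ} {u : U} :
    u ∈ R1shift a W n ↔ (unifAt a) ^ (-n) • u ∈ W := Iff.rfl

/-- The lattice family with the lattice at infinity multiplied by `π^n`. -/
def R1fam (L : LatticeFamily k U) (n : ℤ) : LatticeFamily k U where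
  W a := match a with
    | none => R1shift none (L.W none) n
    | some a => L.W (some a)
  fin u := by
    apply ((L.fin u).union (Set.finite_singleton none)).subset
    intro a ha
    cases a with
    | none => right; rfl
    | some a => left; exact ha
  absorb a u := by
    cases a with
    | none =>
      obtain ⟨m, hm⟩ := L.absorb none ((unifAt (none : Option k)) ^ (-n) • u)
      refine ⟨m, ?_⟩
      show (unifAt (none : Option k)) ^ (-n) • ((unifAt (none : Option k)) ^ m • u) ∈ L.W none
      rw [smul_comm]
      exact hm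
    | some a => exact L.absorb (some a) u

lemma R1_sup (L : LatticeFamily k U) {lam : ℤ}
    (h : ∀ (d : ℤ) (l : U →ₗ[RatFunc k] RatFunc k), l ≠ 0 → IsFun L d l → lam ≤ d) (u : U) :
    ∃ s w : U, u = s + w ∧ (∀ a : k, s ∈ L.W (some a)) ∧
      (unifAt (none : Option k)) ^ (-(lam + 1)) • w ∈ L.W none := by
  let _ : Module k U := Module.compHom U (algebraMap k (RatFunc k))
  have : IsScalarTower k (RatFunc k) U := ⟨fun a b c => by
    show (a • b) • c = (algebraMap k (RatFunc k) a) • (b • c)
    rw [smul_smul, Algebra.smul_def]⟩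
  by_contra hcon
  have h1 : ∃ u : U, u ∉ (R1fam L (lam + 1)).W0 ⊔ (R1fam L (lam + 1)).Wi := by
    refine ⟨u, fun hu => hcon ?_⟩
    obtain ⟨s, hs, w, hw, hsw⟩ := Submodule.mem_sup.mp hu
    refine ⟨s, w, hsw.symm, ?_, ?_⟩
    · intro a
      exact (R1fam L (lam + 1)).mem_W0.mp hs a
    · exact (R1fam L (lam + 1)).mem_Wi.mp hw
  obtain ⟨l, hl0, hl1, hl2⟩ := (R1fam L (lam + 1)).exists_functional h1
  have hpi : unifAt (none : Option k) ≠ 0 := unifAt_ne_zero none
  have h2 := h (lam - 1) l hl0 ⟨fun a u hu => hl1 a u hu, fun u hu => ?_⟩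
  · omega
  have h3 : (unifAt (none : Option k)) ^ (lam + 1) • u ∈ (R1fam L (lam + 1)).W none := by
    show (unifAt (none : Option k)) ^ (-(lam + 1)) • ((unifAt (none : Option k)) ^ (lam + 1) • u)
      ∈ L.W none
    rw [smul_smul, ← zpow_add₀ hpi, neg_add_cancel, zpow_zero, one_smul]
    exact hu
  by_cases h0 : l u = 0
  · left; exact h0
  right
  rcases hl2 _ h3 with h4 | h4
  · exfalso
    rw [map_smul, smul_eq_mul, mul_eq_zero] at h4
    rcases h4 with h4 | h4
    · exact zpow_ne_zero _ hpi h4
    · exact h0 h4
  · rw [map_smul, smul_eq_mul, ordAt_mul none (zpow_ne_zero _ hpi) h0, ordAt_zpow none hpi,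
      ordAt_unifAt] at h4
    omega

lemma R1_unif_not_unit (a : Option k) :
    ¬ IsUnit (⟨unifAt a, unifAt_mem a⟩ : localRing a) := by
  intro hu
  obtain ⟨c, hc⟩ := hu.exists_right_inv
  have h1 : unifAt a * (c : RatFunc k) = 1 := congrArg Subtype.val hc
  have h2 : (c : RatFunc k) ≠ 0 := by
    intro h0
    rw [h0, mul_zero] at h1
    exact zero_ne_one h1
  have h3 := (mem_localRing_of_ne h2).mp c.2
  have h4 := congrArg (ordAt a) h1
  rw [ordAt_mul a (unifAt_ne_zero a) h2, ordAt_unifAt, ordAt_one] at h4
  omega

lemma R1_det_ne {n : ℕ} (a : Option k) (C : Matrix (Fin n) (Fin n) (localRing a)) :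
    (1 - (⟨unifAt a, unifAt_mem a⟩ : localRing a) • C).det ≠ 0 := by
  intro h0
  set p : localRing a := ⟨unifAt a, unifAt_mem a⟩ with hp
  set f := Ideal.Quotient.mk (Ideal.span {p}) with hf
  have h1 := congrArg f h0
  rw [RingHom.map_det, map_zero] at h1
  have h2 : f.mapMatrix (1 - p • C) = 1 := by
    rw [map_sub, map_one]
    have h3 : f.mapMatrix (p • C) = 0 := by
      ext i j
      simp only [RingHom.mapMatrix_apply, Matrix.map_apply, Matrix.smul_apply, smul_eq_mul,
        Matrix.zero_apply]
      rw [hf, Ideal.Quotient.eq_zero_iff_mem]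
      exact Ideal.mul_mem_right _ _ (Ideal.mem_span_singleton_self p)
    rw [h3, sub_zero]
  rw [h2, Matrix.det_one] at h1
  have h4 : (1 : localRing a) ∈ Ideal.span {p} := by
    rw [← Ideal.Quotient.eq_zero_iff_mem, ← hf, map_one]
    exact h1
  rw [Ideal.mem_span_singleton] at h4
  exact R1_unif_not_unit a (isUnit_of_dvd_one h4)

/-- If every nonzero functional on `L` has degree at least `lam`, then `L(-lam)` has a basis of
global sections. -/
theorem exists_basis_sections [FiniteDimensional (RatFunc k) U] (L : LatticeFamily k U)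
    (hfg : (L.W none).FG) {lam : ℤ}
    (h : ∀ (d : ℤ) (l : U →ₗ[RatFunc k] RatFunc k), l ≠ 0 → IsFun L d l → lam ≤ d) :
    ∃ b : Basis (Fin (finrank (RatFunc k) U)) (RatFunc k) U, ∀ i, IsSec L (-lam) (b i) := by
  have hpi : unifAt (none : Option k) ≠ 0 := unifAt_ne_zero none
  have hL : (L.W none).IsLattice (RatFunc k) :=
    { fg := hfg
      span_eq_top := by
        rw [eq_top_iff]
        intro v _
        obtain ⟨m, hm⟩ := L.absorb none v
        have h0 : (unifAt (none : Option k)) ^ m ≠ 0 := pow_ne_zero _ hpi
        have h1 : v = ((unifAt (none : Option k)) ^ m)⁻¹ • ((unifAt (none : Option k)) ^ m • v) := by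
          rw [smul_smul, inv_mul_cancel₀ h0, one_smul]
        rw [h1]
        exact Submodule.smul_mem _ _ (Submodule.subset_span hm) }
  have hfree : Module.Free (localRing (none : Option k)) (L.W none) :=
    Submodule.IsLattice.free (RatFunc k) (L.W none)
  have hfin : Module.Finite (localRing (none : Option k)) (L.W none) :=
    Submodule.IsLattice.finite (RatFunc k) (L.W none)
  have hrank : finrank (localRing (none : Option k)) (L.W none) = finrank (RatFunc k) U := by
    unfold finrank
    rw [Submodule.IsLattice.rank' (RatFunc k) (L.W none)]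
  let b : Basis (Fin (finrank (RatFunc k) U)) (localRing (none : Option k)) (L.W none) :=
    Module.finBasisOfFinrankEq _ _ hrank
  let bK : Basis (Fin (finrank (RatFunc k) U)) (RatFunc k) U := b.extendOfIsLattice (RatFunc k)
  have hbK : ∀ i, bK i = (b i : U) := fun i => by
    simp [bK, Basis.extendOfIsLattice_apply]
  choose s w hsw hs hw using fun i => R1_sup L h ((unifAt (none : Option k)) ^ lam • (b i : U))
  -- the vectors `t i = π^(-lam) s i`
  let c : Fin (finrank (RatFunc k) U) → L.W none :=
    fun i => ⟨(unifAt (none : Option k)) ^ (-(lam + 1)) • w i, hw i⟩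
  let C : Matrix (Fin (finrank (RatFunc k) U)) (Fin (finrank (RatFunc k) U))
    (localRing (none : Option k)) := Matrix.of fun j i => b.repr (c i) j
  have ht : ∀ i, (unifAt (none : Option k)) ^ (-lam) • s i =
      (b i : U) - unifAt (none : Option k) • (c i : U) := by
    intro i
    have h1 : s i = (unifAt (none : Option k)) ^ lam • (b i : U) - w i := by
      rw [hsw i]; abel
    rw [h1, smul_sub, smul_smul, ← zpow_add₀ hpi, neg_add_cancel, zpow_zero, one_smul]
    congr 1
    show _ = unifAt (none : Option k) • ((unifAt (none : Option k)) ^ (-(lam + 1)) • w i)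
    rw [smul_smul]
    congr 1
    rw [← zpow_one_add₀ hpi]
    congr 1
    ring
  have hmat : bK.toMatrix (fun i => (unifAt (none : Option k)) ^ (-lam) • s i) =
      (algebraMap (localRing (none : Option k)) (RatFunc k)).mapMatrix
        (1 - (⟨unifAt none, unifAt_mem none⟩ : localRing (none : Option k)) • C) := by
    ext j i
    have h1 : (c i : U) = ∑ j, ((b.repr (c i) j : localRing (none : Option k)) : RatFunc k) • bK j := by
      conv_lhs => rw [← b.sum_repr (c i)]
      rw [Submodule.coe_sum]
      apply Finset.sum_congr rfl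
      intro j _
      rw [hbK]
      rfl
    have h2 : bK.repr (c i : U) j = ((b.repr (c i) j : localRing (none : Option k)) : RatFunc k) := by
      rw [h1, map_sum, Finsupp.finsetSum_apply]
      simp [Finsupp.single_apply]
    rw [Basis.toMatrix_apply, ht, ← hbK i, map_sub, map_smul, Finsupp.sub_apply, Finsupp.smul_apply,
      h2, bK.repr_self_apply]
    simp only [RingHom.mapMatrix_apply, Matrix.map_apply, Matrix.sub_apply, Matrix.smul_apply,
      smul_eq_mul, map_sub, map_mul]
    congr 1
    rw [Matrix.one_apply]
    by_cases hij : i = j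
    · rw [if_pos hij, if_pos hij.symm, map_one]
    · rw [if_neg hij, if_neg (fun h' => hij h'.symm), map_zero]
  have hdet : bK.det (fun i => (unifAt (none : Option k)) ^ (-lam) • s i) ≠ 0 := by
    rw [Basis.det_apply, hmat, ← RingHom.map_det]
    intro h0
    apply R1_det_ne (none : Option k) C
    have hinj : Function.Injective (algebraMap (localRing (none : Option k)) (RatFunc k)) :=
      Subtype.val_injective
    exact hinj (h0.trans (map_zero _).symm)
  have hdet2 : bK.det s ≠ 0 := by
    intro h0
    apply hdet
    have := bK.det.map_smul_univ (fun _ => (unifAt (none : Option k)) ^ (-lam)) s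
    rw [this, h0, smul_zero]
  have hb := (Module.Basis.is_basis_iff_det bK).mpr (isUnit_iff_ne_zero.mpr hdet2)
  refine ⟨Basis.mk hb.1 hb.2.ge, fun i => ?_⟩
  rw [Basis.mk_apply]
  refine ⟨hs i, ?_⟩
  rw [ht]
  apply (L.W none).sub_mem (b i).2
  exact (L.W none).smul_mem (⟨unifAt none, unifAt_mem none⟩ : localRing (none : Option k)) (c i).2

/-- A basis of global sections of `L(-lam)` bounds the degree. -/
theorem degGE_of_basis_sections [FiniteDimensional (RatFunc k) U] (L : LatticeFamily k U) {lam : ℤ}
    (b : Basis (Fin (finrank (RatFunc k) U)) (RatFunc k) U) (hb : ∀ i, IsSec L (-lam) (b i)) :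
    DegGE L (lam * finrank (RatFunc k) U) := by
  have hpi : unifAt (none : Option k) ≠ 0 := unifAt_ne_zero none
  let H : Option k → Fin (finrank (RatFunc k) U) → U := fun a => match a with
    | none => fun i => (unifAt (none : Option k)) ^ (-lam) • b i
    | some _ => fun i => b i
  have hH : ∀ a : k, b.det (H (some a)) = 1 := by
    intro a
    show b.det (fun i => b i) = 1
    exact b.det_self
  have hH' : b.det (H none) = (unifAt (none : Option k)) ^ (-lam * finrank (RatFunc k) U) := by
    show b.det (fun i => (unifAt (none : Option k)) ^ (-lam) • b i) = _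
    have := b.det.map_smul_univ (fun _ => (unifAt (none : Option k)) ^ (-lam)) (fun i => b i)
    rw [this, b.det_self, Finset.prod_const, Finset.card_univ, Fintype.card_fin, smul_eq_mul,
      mul_one, zpow_mul, zpow_natCast]
  have hord : ∀ a : k, ordAt (some a) (b.det (H (some a))) = 0 := fun a => by
    rw [hH a]
    exact ordAt_one (some a)
  refine ⟨b, H, ?_, ?_, ?_, ?_⟩
  · intro a i
    cases a with
    | none => exact (hb i).2
    | some a => exact (hb i).1 a
  · intro a
    cases a with
    | none => rw [hH']; exact zpow_ne_zero _ hpi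
    | some a => rw [hH a]; exact one_ne_zero
  · apply (Set.finite_singleton none).subset
    intro a ha
    cases a with
    | none => rfl
    | some a => exact absurd (hord a) ha
  · rw [finsum_eq_single _ none (by
      intro a ha
      cases a with
      | none => exact absurd rfl ha
      | some a => exact hord a), hH', ordAt_zpow none hpi, ordAt_unifAt]
    apply le_of_eq
    ring

end

end Pool.Agent.FJ.S
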