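import Pool.Agent.FJ.S.Defs
import Pool.Agent.FJ.S.R1

/-! # FJ, Theorem S: Riemann inequality on the projective line -/

set_option linter.unusedSectionVars false

namespace Pool.Agent.FJ.S

open Pool.Agent.Helper38.Scroll Module MvPolynomial

section

variable {k : Type} [Field k] {U : Type} [AddCommGroup U] [Module (RatFunc k) U]

lemma R2_absorb_one (a : Option k) (r : RatFunc k) :
    ∃ m : ℕ, ∀ m' : ℕ, m ≤ m' → (unifAt a) ^ m' * r ∈ localRing a := by
  by_cases hr : r = 0
  · refine ⟨0, fun m' _ => ?_⟩
    rw [hr, mul_zero]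
    exact Subalgebra.zero_mem _
  refine ⟨(-(ordAt a r)).toNat, fun m' hm' => ?_⟩
  have hp : (unifAt a) ^ m' ≠ 0 := pow_ne_zero _ (unifAt_ne_zero a)
  rw [mem_localRing_of_ne (mul_ne_zero hp hr), ordAt_mul a hp hr,
    ordAt_pow a (unifAt_ne_zero a), ordAt_unifAt]
  have := Int.self_le_toNat (-(ordAt a r))
  have h2 : ((-(ordAt a r)).toNat : ℤ) ≤ m' := by exact_mod_cast hm'
  simp only [mul_one]
  linarith

/-- The dual lattice family with respect to local frames. -/
def R2dual {n : ℕ} (H : Option k → Fin n → U)
    (hfin : ∀ l : U →ₗ[RatFunc k] RatFunc k, {a | ¬ ∀ i, l (H a i) ∈ localRing a}.Finite) :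
    LatticeFamily k (U →ₗ[RatFunc k] RatFunc k) where
  W a :=
    { carrier := {l | ∀ i, l (H a i) ∈ localRing a}
      add_mem' := by
        intro l l' hl hl' i
        rw [LinearMap.add_apply]
        exact Subalgebra.add_mem _ (hl i) (hl' i)
      zero_mem' := by
        intro i
        rw [LinearMap.zero_apply]
        exact Subalgebra.zero_mem _
      smul_mem' := by
        intro c l hl i
        exact Subalgebra.mul_mem _ c.2 (hl i) }
  fin l := hfin l
  absorb a l := by
    choose m hm using fun i => R2_absorb_one a (l (H a i))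
    refine ⟨∑ i, m i, fun i => ?_⟩
    have h1 := hm i (∑ i, m i) (Finset.single_le_sum (f := m) (fun _ _ => Nat.zero_le _)
      (Finset.mem_univ i))
    rw [LinearMap.smul_apply, smul_eq_mul]
    exact h1

lemma mem_R2dual {n : ℕ} {H : Option k → Fin n → U}
    {hfin : ∀ l : U →ₗ[RatFunc k] RatFunc k, {a | ¬ ∀ i, l (H a i) ∈ localRing a}.Finite}
    {a : Option k} {l : U →ₗ[RatFunc k] RatFunc k} :
    l ∈ (R2dual H hfin).W a ↔ ∀ i, l (H a i) ∈ localRing a := Iff.rfl

lemma R2_fg {n : ℕ} {H : Option k → Fin n → U}
    {hfin : ∀ l : U →ₗ[RatFunc k] RatFunc k, {a | ¬ ∀ i, l (H a i) ∈ localRing a}.Finite}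
    (B : ∀ _ : Option k, Basis (Fin n) (RatFunc k) U) (hB : ∀ a i, B a i = H a i) :
    ((R2dual H hfin).W none).FG := by
  have h1 : (R2dual H hfin).W none =
      Submodule.span (localRing (none : Option k)) (Set.range fun i => (B none).coord i) := by
    apply le_antisymm
    · intro l hl
      rw [← (B none).sum_dual_apply_smul_coord l]
      apply Submodule.sum_mem
      intro i _
      have h2 : l ((B none) i) ∈ localRing (none : Option k) := by
        rw [hB]
        exact mem_R2dual.mp hl i
      exact Submodule.smul_mem _ (⟨l ((B none) i), h2⟩ : localRing (none : Option k))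
        (Submodule.subset_span ⟨i, rfl⟩)
    · rw [Submodule.span_le]
      rintro _ ⟨i, rfl⟩
      rw [SetLike.mem_coe, mem_R2dual]
      intro j
      rw [← hB]
      simp only [Basis.coord_apply, Basis.repr_self_apply]
      split_ifs
      · exact Subalgebra.one_mem _
      · exact Subalgebra.zero_mem _
  rw [h1]
  exact Submodule.fg_span (Set.finite_range _)

lemma R2_det_mem {n : ℕ} (a : Option k) (M : Matrix (Fin n) (Fin n) (RatFunc k))
    (h : ∀ i j, M i j ∈ localRing a) : M.det ∈ localRing a := by
  rw [Matrix.det_apply']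
  apply Subalgebra.sum_mem
  intro σ _
  apply Subalgebra.mul_mem
  · exact Subalgebra.intCast_mem _ _
  · apply Subalgebra.prod_mem
    intro i _
    exact h _ _

lemma R2_smul_mem (L : LatticeFamily k U) {a : Option k} {r : RatFunc k} {u : U}
    (hu : u ∈ L.W a) (hr : r ∈ localRing a) : r • u ∈ L.W a :=
  (L.W a).smul_mem (⟨r, hr⟩ : localRing a) hu

/-- Riemann: a lattice family of large degree has a nonzero section. -/
theorem exists_section_of_degGE [IsAlgClosed k] [FiniteDimensional (RatFunc k) U]
    (L : LatticeFamily k U)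
    (hup : ∀ l : U →ₗ[RatFunc k] RatFunc k, {a | ∃ u ∈ L.W a, l u ∉ localRing a}.Finite)
    {d t : ℤ} (h : DegGE L d) (ht : (t - 1) * finrank (RatFunc k) U < d) :
    ∃ u : U, u ≠ 0 ∧ IsSec L (-t) u := by
  by_contra hcon
  obtain ⟨b, H, hHW, hdet, hfinD, hd⟩ := h
  have hBB : ∀ a, LinearIndependent (RatFunc k) (H a) ∧
      Submodule.span (RatFunc k) (Set.range (H a)) = ⊤ := fun a =>
    (Basis.is_basis_iff_det b).mpr (IsUnit.mk0 _ (hdet a))
  let B : ∀ _ : Option k, Basis (Fin (finrank (RatFunc k) U)) (RatFunc k) U := fun a =>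
    Basis.mk (hBB a).1 (hBB a).2.ge
  have hB : ∀ a i, B a i = H a i := fun a i => Basis.mk_apply _ _ _
  have hfin : ∀ l : U →ₗ[RatFunc k] RatFunc k, {a | ¬ ∀ i, l (H a i) ∈ localRing a}.Finite := by
    intro l
    refine (hup l).subset ?_
    intro a ha
    simp only [Set.mem_ofPred_eq] at ha ⊢
    push Not at ha
    obtain ⟨i, hi⟩ := ha
    exact ⟨H a i, hHW a i, hi⟩
  have hpi : unifAt (none : Option k) ≠ 0 := unifAt_ne_zero none
  -- functionals on the dual are vectors
  have hfun : ∀ (d' : ℤ) (ev : (U →ₗ[RatFunc k] RatFunc k) →ₗ[RatFunc k] RatFunc k), ev ≠ 0 →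
      IsFun (R2dual H hfin) d' ev → 1 - t ≤ d' := by
    intro d' ev hev hfu
    by_contra hlt
    push Not at hlt
    apply hcon
    set u : U := (evalEquiv (RatFunc k) U).symm ev with hu
    have hlu : ∀ l : U →ₗ[RatFunc k] RatFunc k, l u = ev l := fun l =>
      apply_evalEquiv_symm_apply (R := RatFunc k) (M := U) l ev
    have hcoord : ∀ a i, (B a).coord i ∈ (R2dual H hfin).W a := by
      intro a i
      rw [mem_R2dual]
      intro j
      rw [← hB]
      simp only [Basis.coord_apply, Basis.repr_self_apply]
      split_ifs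
      · exact Subalgebra.one_mem _
      · exact Subalgebra.zero_mem _
    have hsum : ∀ a, u = ∑ i, ((B a).coord i u) • H a i := by
      intro a
      conv_lhs => rw [← (B a).sum_repr u]
      apply Finset.sum_congr rfl
      intro i _
      rw [hB]
      rfl
    refine ⟨u, ?_, ?_, ?_⟩
    · intro h0
      apply hev
      rw [hu] at h0
      exact (LinearEquiv.map_eq_zero_iff _).mp h0
    · intro a
      rw [hsum (some a)]
      apply Submodule.sum_mem
      intro i _
      apply R2_smul_mem L (hHW (some a) i)
      rw [hlu]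
      exact hfu.1 a _ (hcoord (some a) i)
    · rw [hsum none, Finset.smul_sum]
      apply Submodule.sum_mem
      intro i _
      rw [smul_smul]
      apply R2_smul_mem L (hHW none i)
      rw [hlu]
      rcases hfu.2 _ (hcoord none i) with h0 | h0
      · rw [h0, mul_zero]
        exact Subalgebra.zero_mem _
      · by_cases h1 : ev ((B none).coord i) = 0
        · rw [h1, mul_zero]
          exact Subalgebra.zero_mem _
        · rw [mem_localRing_of_ne (mul_ne_zero (zpow_ne_zero _ hpi) h1),
            ordAt_mul none (zpow_ne_zero _ hpi) h1, ordAt_zpow none hpi, ordAt_unifAt]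
          simp only [mul_one]
          linarith
  obtain ⟨lb, hlb⟩ := exists_basis_sections (R2dual H hfin) (R2_fg B hB) hfun
  have hrk : finrank (RatFunc k) (U →ₗ[RatFunc k] RatFunc k) = finrank (RatFunc k) U :=
    Subspace.dual_finrank_eq
  let lc : Basis (Fin (finrank (RatFunc k) U)) (RatFunc k) (U →ₗ[RatFunc k] RatFunc k) :=
    lb.reindex (finCongr hrk)
  have hlc : ∀ i, IsSec (R2dual H hfin) (-(1 - t)) (lc i) := by
    intro i
    simp only [lc, Basis.reindex_apply]
    exact hlb _
  let G : Matrix (Fin (finrank (RatFunc k) U)) (Fin (finrank (RatFunc k) U)) (RatFunc k) :=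
    Matrix.of fun i j => lc i (b j)
  have hG : G.det ≠ 0 := by
    have h1 : G = (b.dualBasis.toMatrix lc).transpose := by
      ext i j
      simp only [G, Matrix.of_apply, Matrix.transpose_apply, Basis.toMatrix_apply,
        Basis.dualBasis_repr]
    rw [h1, Matrix.det_transpose, ← Basis.det_apply]
    exact (Basis.isUnit_det b.dualBasis lc).ne_zero
  have hM : ∀ a, (Matrix.of fun i j => lc i (H a j)).det = G.det * b.det (H a) := by
    intro a
    rw [Basis.det_apply, ← Matrix.det_mul]
    congr 1
    ext i j
    simp only [G, Matrix.of_apply, Matrix.mul_apply, Basis.toMatrix_apply]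
    conv_lhs => rw [← b.sum_repr (H a j)]
    rw [map_sum]
    apply Finset.sum_congr rfl
    intro m _
    rw [map_smul, smul_eq_mul, mul_comm]
  have hord : ∀ a, ordAt a (G.det * b.det (H a)) = ordAt a G.det + ordAt a (b.det (H a)) :=
    fun a => ordAt_mul a hG (hdet a)
  have hsome : ∀ a : k, 0 ≤ ordAt (some a) G.det + ordAt (some a) (b.det (H (some a))) := by
    intro a
    rw [← hord, ← mem_localRing_of_ne (mul_ne_zero hG (hdet _)), ← hM]
    apply R2_det_mem
    intro i j
    exact mem_R2dual.mp ((hlc i).1 a) j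
  have hnone : -((t - 1) * finrank (RatFunc k) U) ≤
      ordAt none G.det + ordAt none (b.det (H none)) := by
    have h1 : ((unifAt (none : Option k)) ^ (-(1 - t)) •
        (Matrix.of fun i j => lc i (H none j))).det ∈ localRing (none : Option k) := by
      apply R2_det_mem
      intro i j
      exact mem_R2dual.mp ((hlc i).2) j
    rw [Matrix.det_smul, hM, Fintype.card_fin, mem_localRing_of_ne (mul_ne_zero
      (pow_ne_zero _ (zpow_ne_zero _ hpi)) (mul_ne_zero hG (hdet _))),
      ordAt_mul none (pow_ne_zero _ (zpow_ne_zero _ hpi)) (mul_ne_zero hG (hdet _)), hord,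
      ordAt_pow none (zpow_ne_zero _ hpi), ordAt_zpow none hpi, ordAt_unifAt] at h1
    linarith
  have hs1 : (fun a => ordAt a G.det).HasFiniteSupport := ordAt_support_finite hG
  have hs2 : (fun a => ordAt a (b.det (H a))).HasFiniteSupport := hfinD
  have hadd : ∑ᶠ a, (ordAt a G.det + ordAt a (b.det (H a))) =
      ∑ᶠ a, ordAt a (b.det (H a)) := by
    rw [finsum_add_distrib hs1 hs2, finsum_ordAt hG, zero_add]
  classical
  have hlow : ∑ᶠ a : Option k, (if a = none then -((t - 1) * (finrank (RatFunc k) U : ℤ)) else 0) ≤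
      ∑ᶠ a, (ordAt a G.det + ordAt a (b.det (H a))) := by
    apply finsum_le_finsum'
    · refine (Set.finite_singleton (none : Option k)).subset ?_
      intro a ha
      rw [Function.mem_support] at ha
      by_contra hne
      rw [Set.mem_singleton_iff] at hne
      exact ha (if_neg hne)
    · exact hs1.add hs2
    · intro a
      cases a with
      | none => simpa using hnone
      | some a => simpa using hsome a
  have hsing : ∑ᶠ a : Option k, (if a = none then -((t - 1) * (finrank (RatFunc k) U : ℤ)) else 0) =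
      -((t - 1) * (finrank (RatFunc k) U : ℤ)) := by
    rw [finsum_eq_single _ (none : Option k) (fun a ha => if_neg ha)]
    simp
  rw [hsing, hadd] at hlow
  linarith

end

end Pool.Agent.FJ.S
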