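import Pool.Agent.FJ.S.Defs
import Pool.Agent.FJ.S.R2

/-! # FJ, Theorem S: twists of line bundles on the curve -/

set_option linter.unusedSectionVars false

namespace Pool.Agent.FJ.S

open Pool.Agent.Helper38.Scroll Module MvPolynomial

section

variable {k K : Type} [Field k] [Field K] [Algebra (RatFunc k) K] [Algebra k K]
  [IsScalarTower k (RatFunc k) K] [IsAlgClosed k] [CharZero k] [FiniteDimensional (RatFunc k) K]

/-- The lattices `ν_a^{-t} R_a`. -/
noncomputable def twistFam (nu : Option k → K)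
    (hfin : {a | ¬ (nu a ∈ regRing k K a ∧ (nu a)⁻¹ ∈ regRing k K a)}.Finite) (t : ℕ) :
    LatticeFamily k K where
  W a :=
    { carrier := {u | u * nu a ^ t ∈ regRing k K a}
      add_mem' := by
        intro u v hu hv
        simp only [Set.mem_setOf_eq] at hu hv ⊢
        rw [add_mul]
        exact (regRing k K a).add_mem hu hv
      zero_mem' := by
        simp only [Set.mem_setOf_eq, zero_mul]
        exact (regRing k K a).zero_mem
      smul_mem' := by
        intro c u hu
        simp only [Set.mem_setOf_eq] at hu ⊢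
        rw [smul_mul_assoc]
        exact (regRing k K a).smul_mem hu c }
  fin u := by
    apply (hfin.union (regRing_cofinite (k := k) u)).subset
    intro a ha
    simp only [Set.mem_union, Set.mem_setOf_eq]
    by_contra hcon
    push Not at hcon
    apply ha
    exact (regRing k K a).mul_mem hcon.2 (pow_mem hcon.1.1 t)
  absorb a u := by
    obtain ⟨m, hm⟩ := regRing_absorb (k := k) a (u * nu a ^ t)
    refine ⟨m, ?_⟩
    change (unifAt a ^ m • u) * nu a ^ t ∈ regRing k K a
    rw [smul_mul_assoc]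
    exact hm

lemma mem_twistFam (nu : Option k → K)
    (hfin : {a | ¬ (nu a ∈ regRing k K a ∧ (nu a)⁻¹ ∈ regRing k K a)}.Finite) (t : ℕ)
    (a : Option k) (u : K) :
    u ∈ (twistFam nu hfin t).W a ↔ u * nu a ^ t ∈ regRing k K a := Iff.rfl

lemma ordOver_algebraMap (a : Option k) (r : RatFunc k) (hr : r ≠ 0) :
    ordOver a (algebraMap (RatFunc k) K r) = finrank (RatFunc k) K * ordAt a r := by
  rw [ordOver, Algebra.norm_algebraMap, ordAt_pow a hr]

theorem exists_twist (nu : Option k → K) (hnu : ∀ a, nu a ≠ 0)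
    (hfin : {a | ¬ (nu a ∈ regRing k K a ∧ (nu a)⁻¹ ∈ regRing k K a)}.Finite) :
    ∃ c0 : ℝ, ∀ t : ℕ, ∃ (h : K) (T : ℤ), h ≠ 0 ∧
      (∀ a : k, h * nu (some a) ^ t ∈ regRing k K (some a)) ∧
      ((unifAt (none : Option k)) ^ T • (h * nu none ^ t) ∈ regRing k K none) ∧
      (T : ℝ) * finrank (RatFunc k) K ≤ t * ((-∑ᶠ a, ordOver a (nu a) : ℤ) : ℝ) + c0 := by
  classical
  have : CharZero (RatFunc k) := charZero_of_injective_algebraMap (algebraMap k (RatFunc k)).injective
  set b := Module.finBasis (RatFunc k) K with hb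
  set N := finrank (RatFunc k) K with hN
  have hNpos : 0 < N := Module.finrank_pos
  have hn : ∀ a : Option k, ∃ n : ℕ, (∀ i, unifAt a ^ n • b i ∈ regRing k K a) ∧
      ((∀ i, b i ∈ regRing k K a) → n = 0) := by
    intro a
    by_cases h : ∀ i, b i ∈ regRing k K a
    · exact ⟨0, fun i => by simpa using h i, fun _ => rfl⟩
    · obtain ⟨m, hm⟩ := vec_absorb (k := k) a (fun i => b i)
      exact ⟨m, hm, fun h' => absurd h' h⟩
  choose n hn1 hn2 using hn
  have hbfin : {a : Option k | ¬ ∀ i, b i ∈ regRing k K a}.Finite := by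
    have : {a : Option k | ¬ ∀ i, b i ∈ regRing k K a} ⊆
        ⋃ i, {a : Option k | b i ∉ regRing k K a} := by
      intro a ha
      simp only [Set.mem_setOf_eq, not_forall] at ha
      simpa using ha
    exact (Set.finite_iUnion fun i => regRing_cofinite (k := k) (b i)).subset this
  have hnfin : (Function.support fun a => (n a : ℤ)).Finite := by
    apply hbfin.subset
    intro a ha h
    apply ha
    simp [hn2 a h]
  have hofin : (Function.support fun a => ordOver a (nu a)).Finite := by
    apply hfin.subset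
    intro a ha h
    exact ha (ordOver_unit (hnu a) h.1 h.2)
  refine ⟨N * ((∑ᶠ a, (n a : ℤ) : ℤ) : ℝ), fun t => ?_⟩
  -- the generators
  set c : Option k → K := fun a => (nu a)⁻¹ ^ t * algebraMap (RatFunc k) K (unifAt a ^ n a) with hc
  have hc0 : ∀ a, c a ≠ 0 := by
    intro a
    refine mul_ne_zero (pow_ne_zero _ (inv_ne_zero (hnu a))) ?_
    rw [Ne, map_eq_zero]
    exact pow_ne_zero _ (unifAt_ne_zero a)
  set H : Option k → Fin N → K := fun a i => c a * b i with hH
  have hdet : ∀ a, b.det (H a) = Algebra.norm (RatFunc k) (c a) := by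
    intro a
    have h1 : H a = (LinearMap.mul (RatFunc k) K (c a)) ∘ b := by
      funext i; simp [hH]
    rw [h1, Basis.det_comp, Basis.det_self, mul_one, Algebra.norm_apply]
    rfl
  have hord : ∀ a, ordAt a (b.det (H a)) = -(t : ℤ) * ordOver a (nu a) + N * (n a : ℤ) := by
    intro a
    rw [hdet a]
    change ordOver a (c a) = _
    have h1 : (nu a)⁻¹ ^ t ≠ 0 := pow_ne_zero _ (inv_ne_zero (hnu a))
    have h2 : (unifAt a ^ n a : RatFunc k) ≠ 0 := pow_ne_zero _ (unifAt_ne_zero a)
    rw [hc]
    simp only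
    rw [ordOver_mul a h1 (by rw [Ne, map_eq_zero]; exact h2),
      ordOver_pow a (inv_ne_zero (hnu a)), ordOver_inv a (hnu a), ordOver_algebraMap a _ h2,
      ordAt_pow a (unifAt_ne_zero a), ordAt_unifAt]
    ring
  have hsum : ∑ᶠ a, ordAt a (b.det (H a)) =
      -(t : ℤ) * ∑ᶠ a, ordOver a (nu a) + N * ∑ᶠ a, (n a : ℤ) := by
    rw [finsum_congr hord, finsum_add_distrib, mul_finsum, mul_finsum]
    · apply hofin.subset
      intro a ha h
      apply ha
      simp only at h ⊢
      rw [h, mul_zero]
    · apply hnfin.subset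
      intro a ha h
      apply ha
      simp only at h ⊢
      rw [h, mul_zero]
  have hdeg : DegGE (twistFam nu hfin t) (-∑ᶠ a, ordAt a (b.det (H a))) := by
    refine ⟨b, H, ?_, ?_, ?_, le_refl _⟩
    · intro a i
      rw [mem_twistFam]
      have h1 : H a i * nu a ^ t = unifAt a ^ n a • b i := by
        have h2 : (nu a)⁻¹ ^ t * nu a ^ t = 1 := by
          rw [← mul_pow, inv_mul_cancel₀ (hnu a), one_pow]
        calc H a i * nu a ^ t = ((nu a)⁻¹ ^ t * nu a ^ t) *
              (algebraMap (RatFunc k) K (unifAt a ^ n a) * b i) := by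
                simp only [hH, hc]; ring
          _ = unifAt a ^ n a • b i := by rw [h2, one_mul, Algebra.smul_def]
      rw [h1]
      exact hn1 a i
    · intro a
      rw [hdet a]
      exact norm_ne_zero' (hc0 a)
    · apply (hofin.union hnfin).subset
      intro a ha
      by_contra hcon
      simp only [Set.mem_union, Function.mem_support, not_or, not_not] at hcon
      apply ha
      rw [hord a, hcon.1, hcon.2]
      ring
  set d : ℤ := -∑ᶠ a, ordAt a (b.det (H a)) with hd
  set q : ℤ := (-d) / (N : ℤ) with hq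
  have hN' : (0 : ℤ) < N := by exact_mod_cast hNpos
  have hq1 : q * N ≤ -d := Int.ediv_mul_le _ hN'.ne'
  have hq2 : -d < (q + 1) * N := Int.lt_ediv_add_one_mul_self _ hN'
  have hup : ∀ l : K →ₗ[RatFunc k] RatFunc k,
      {a | ∃ u ∈ (twistFam nu hfin t).W a, l u ∉ localRing a}.Finite := by
    intro l
    obtain ⟨s, hs⟩ := exists_trace_repr l
    apply (hfin.union (regRing_cofinite (k := k) s)).subset
    rintro a ⟨u, hu, hlu⟩
    by_contra hcon
    simp only [Set.mem_union, Set.mem_setOf_eq, not_or, not_not] at hcon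
    apply hlu
    rw [hs u]
    apply trace_mem_localRing
    apply (regRing k K a).mul_mem hcon.2
    rw [mem_twistFam] at hu
    have h1 : u = u * nu a ^ t * (nu a)⁻¹ ^ t := by
      rw [mul_assoc, ← mul_pow, mul_inv_cancel₀ (hnu a), one_pow, mul_one]
    rw [h1]
    exact (regRing k K a).mul_mem hu (pow_mem hcon.1.2 t)
  obtain ⟨u, hu0, hu1, hu2⟩ := exists_section_of_degGE (twistFam nu hfin t) hup hdeg (t := -q)
    (by have : (-q - 1) * (N : ℤ) = -((q + 1) * N) := by ring
        rw [← hN, this]; linarith)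
  refine ⟨u, q, hu0, fun a => hu1 a, ?_, ?_⟩
  · rw [mem_twistFam, neg_neg, smul_mul_assoc] at hu2
    exact hu2
  · have h1 : (q * N : ℝ) ≤ ((-d : ℤ) : ℝ) := by exact_mod_cast hq1
    have h2 : (-d : ℤ) = t * (-∑ᶠ a, ordOver a (nu a)) + N * ∑ᶠ a, (n a : ℤ) := by
      rw [hd, neg_neg, hsum]; ring
    rw [h2] at h1
    push_cast at h1 ⊢
    linarith

end

end Pool.Agent.FJ.S
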