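import Pool.Agent.FJ.S.Defs

/-! # FJ, Theorem S: independent embeddings -/

set_option linter.unusedSectionVars false

namespace Pool.Agent.FJ.S

open Pool.Agent.Helper38.Scroll Module MvPolynomial

section

theorem exists_rows {Ω X : Type} [Field Ω] [Fintype X] {r : ℕ} (f : X → Fin r → Ω)
    (hf : LinearIndependent Ω (fun j : Fin r => fun x : X => f x j)) :
    ∃ s : Fin r → X, (Matrix.of fun i j => f (s i) j).det ≠ 0 := by
  classical
  set A : Matrix (Fin r) X Ω := Matrix.of fun j x => f x j with hA
  have hrank : A.rank = r := by
    have : LinearIndependent Ω A.row := hf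
    have := this.rank_matrix
    simpa using this
  have hspan : Submodule.span Ω (Set.range f) = ⊤ := by
    apply Submodule.eq_top_of_finrank_eq
    rw [Matrix.rank_eq_finrank_span_cols] at hrank
    have : A.col = f := by
      ext x j
      simp [hA, Matrix.col_apply]
    rw [this] at hrank
    rw [hrank]
    simp
  obtain ⟨b, hb, hbs, hbl⟩ := exists_linearIndependent Ω (Set.range f)
  rw [hspan] at hbs
  have hbfin : b.Finite := (Set.finite_range f).subset hb
  have : Fintype b := hbfin.fintype
  have hcard : Fintype.card b = r := by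
    have hbas : Module.Basis b Ω (Fin r → Ω) := Module.Basis.mk hbl (by
      rw [Subtype.range_coe, hbs])
    have := Module.finrank_eq_card_basis hbas
    rw [← this]
    simp
  let e : Fin r ≃ b := (Fintype.equivFinOfCardEq hcard).symm
  have hch : ∀ i : Fin r, ∃ x : X, f x = (e i : Fin r → Ω) := fun i => hb (e i).2
  choose s hs using hch
  refine ⟨s, ?_⟩
  have hli : LinearIndependent Ω (Matrix.of fun i j => f (s i) j).row := by
    have h1 : LinearIndependent Ω (fun i : Fin r => (e i : Fin r → Ω)) :=
      hbl.comp e e.injective
    have h2 : (Matrix.of fun i j => f (s i) j).row = fun i : Fin r => (e i : Fin r → Ω) := by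
      ext i j
      simp [Matrix.row_apply, hs]
    rw [h2]
    exact h1
  rw [Matrix.linearIndependent_rows_iff_isUnit, Matrix.isUnit_iff_isUnit_det] at hli
  exact hli.ne_zero

theorem exists_embeddings {K L : Type} [Field K] [CharZero K] [Field L] [Algebra K L]
    [FiniteDimensional K L] {r : ℕ} (v : Fin r → L) (hv : LinearIndependent K v) :
    ∃ (M : Type) (_ : Field M) (_ : Algebra K M) (_ : FiniteDimensional K M)
      (s : Fin r → (L →ₐ[K] M)), (Matrix.of fun i j => s i (v j)).det ≠ 0 := by
  classical
  set Ω := AlgebraicClosure K with hΩ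
  have hind : LinearIndependent Ω (fun j : Fin r => fun σ : L →ₐ[K] Ω => σ (v j)) := by
    have hvr : LinearIndepOn K id (Set.range v) := hv.linearIndepOn_id
    let b := Module.Basis.extend hvr
    have : Fintype ↑(hvr.extend (Set.subset_univ _)) := FiniteDimensional.fintypeBasisIndex b
    have hc : Fintype.card ↑(hvr.extend (Set.subset_univ _)) = Fintype.card (L →ₐ[K] Ω) := by
      rw [AlgHom.card K L Ω]
      exact (Module.finrank_eq_card_basis b).symm
    let e : ↑(hvr.extend (Set.subset_univ _)) ≃ (L →ₐ[K] Ω) := Fintype.equivOfCardEq hc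
    have hdet : (Algebra.embeddingsMatrixReindex K Ω b e).det ≠ 0 := by
      intro h0
      have h1 := Algebra.discr_eq_det_embeddingsMatrixReindex_pow_two K Ω b e
      rw [h0] at h1
      have h2 := Algebra.discr_not_zero_of_basis K b
      rw [zero_pow two_ne_zero] at h1
      exact h2 ((map_eq_zero _).1 h1)
    have hrows : LinearIndependent Ω (Algebra.embeddingsMatrixReindex K Ω b e).row := by
      rw [Matrix.linearIndependent_rows_iff_isUnit, Matrix.isUnit_iff_isUnit_det]
      exact isUnit_iff_ne_zero.2 hdet
    -- restrict to the rows of `v`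
    let g : Fin r → ↑(hvr.extend (Set.subset_univ _)) := fun j =>
      ⟨v j, hvr.subset_extend (Set.subset_univ _) (Set.mem_range_self j)⟩
    have hg : Function.Injective g := by
      intro i j hij
      exact hv.injective (congrArg Subtype.val hij)
    have h1 := hrows.comp g hg
    have h2 : LinearIndependent Ω (fun j : Fin r =>
        (LinearEquiv.funCongrLeft Ω Ω e.symm) (((Algebra.embeddingsMatrixReindex K Ω b e).row ∘ g) j)) :=
      h1.map' _ (LinearEquiv.ker _)
    convert h2 using 1
    ext j σ
    simp [Algebra.embeddingsMatrixReindex, Algebra.embeddingsMatrix, Matrix.row_apply, b, g,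
      LinearEquiv.funCongrLeft_apply, LinearMap.funLeft_apply]
  obtain ⟨s, hs⟩ := exists_rows (fun (σ : L →ₐ[K] Ω) (j : Fin r) => σ (v j)) hind
  let M : IntermediateField K Ω := ⨆ i : Fin r, (s i).fieldRange
  have : ∀ i, FiniteDimensional K ((s i).fieldRange) := fun i => by
    have : FiniteDimensional K (s i).range := by
      exact Module.Finite.range (s i).toLinearMap
    exact this
  have : FiniteDimensional K M := IntermediateField.finiteDimensional_iSup_of_finite
  have hmem : ∀ i x, s i x ∈ M := fun i x =>
    (le_iSup (fun i : Fin r => (s i).fieldRange) i) ⟨x, rfl⟩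
  let s' : Fin r → (L →ₐ[K] M) := fun i => (s i).codRestrict M.toSubalgebra (hmem i)
  refine ⟨M, inferInstance, inferInstance, inferInstance, s', ?_⟩
  intro h0
  apply hs
  have h1 := congrArg (algebraMap M Ω) h0
  rw [RingHom.map_det, map_zero] at h1
  exact h1

theorem norm_embedding {F L M : Type} [Field F] [Field L] [Field M] [Algebra F L] [Algebra F M]
    [FiniteDimensional F L] [FiniteDimensional F M] (s : L →ₐ[F] M) (x : L) :
    Algebra.norm F (s x) ^ finrank F L = Algebra.norm F x ^ finrank F M := by
  let : Algebra L M := s.toRingHom.toAlgebra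
  have : IsScalarTower F L M := IsScalarTower.of_algebraMap_eq (fun y => (s.commutes y).symm)
  have : FiniteDimensional L M := Module.Finite.of_restrictScalars_finite F L M
  have h1 : s x = algebraMap L M x := rfl
  rw [h1, ← Algebra.norm_norm (S := L), Algebra.norm_algebraMap, map_pow, ← pow_mul,
    mul_comm, Module.finrank_mul_finrank]

end

end Pool.Agent.FJ.S
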