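import Pool.Agent.FJ.S.Defs
import Pool.Agent.FJ.S.EM

/-! # FJ, Theorem S: degrees at points -/

set_option linter.unusedSectionVars false

namespace Pool.Agent.FJ.S

open Pool.Agent.Helper38.Scroll Module MvPolynomial

section

private theorem exists_factor {K L : Type} [Field K] [Field L] [Algebra K L] {n : ℕ}
    (y : Fin n → L) (hy : y ≠ 0) :
    ∃ (r : ℕ) (_ : 0 < r) (A : Matrix (Fin r) (Fin n) K) (R : Matrix (Fin n) (Fin r) K)
      (v : Fin r → L), A * R = 1 ∧ LinearIndependent K v ∧ ∀ w : Fin n → K,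
        ∑ i, algebraMap K L (w i) * y i = ∑ j, algebraMap K L ((A.mulVec w) j) * v j := by
  classical
  let f : (Fin n → K) →ₗ[K] L := Fintype.linearCombination K y
  have hf : ∀ w, f w = ∑ i, algebraMap K L (w i) * y i := by
    intro w
    simp only [f, Fintype.linearCombination_apply, Algebra.smul_def]
  set r := finrank K (LinearMap.range f) with hr
  have hpos : 0 < r := by
    rw [hr, Module.finrank_pos_iff_exists_ne_zero]
    by_contra hcon
    push Not at hcon
    apply hy
    funext j
    have h1 := hcon ⟨f (Pi.single j 1), ⟨_, rfl⟩⟩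
    have h2 := congrArg Subtype.val h1
    simpa [f, Fintype.linearCombination_apply_single] using h2
  let e : LinearMap.range f ≃ₗ[K] (Fin r → K) :=
    LinearEquiv.ofFinrankEq _ _ (by rw [Module.finrank_fin_fun])
  let p : (Fin n → K) →ₗ[K] (Fin r → K) := e.toLinearMap ∘ₗ f.rangeRestrict
  have hp : Function.Surjective p :=
    e.surjective.comp (LinearMap.surjective_rangeRestrict f)
  obtain ⟨s, hs⟩ := p.exists_rightInverse_of_surjective (LinearMap.range_eq_top.mpr hp)
  have hv : LinearIndependent K (fun j => (((Pi.basisFun K (Fin r)).map e.symm) j :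
      LinearMap.range f)) := ((Pi.basisFun K (Fin r)).map e.symm).linearIndependent
  refine ⟨r, hpos, LinearMap.toMatrix' p, LinearMap.toMatrix' s,
    fun j => (((Pi.basisFun K (Fin r)).map e.symm j : LinearMap.range f) : L), ?_, ?_, ?_⟩
  · rw [← LinearMap.toMatrix'_comp, hs, LinearMap.toMatrix'_id]
  · exact hv.map' (Submodule.subtype _) (Submodule.ker_subtype _)
  · intro w
    rw [← hf w, LinearMap.toMatrix'_mulVec]
    have h1 : e.symm (p w) = ∑ j, (p w) j • ((Pi.basisFun K (Fin r)).map e.symm j) := by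
      conv_lhs => rw [← (Pi.basisFun K (Fin r)).sum_repr (p w)]
      rw [map_sum]
      refine Finset.sum_congr rfl fun j _ => ?_
      rw [map_smul, Pi.basisFun_repr, Basis.map_apply]
    have h2 : (e.symm (p w) : LinearMap.range f) = f.rangeRestrict w := by
      simp only [p, LinearMap.comp_apply, LinearEquiv.coe_coe, LinearEquiv.symm_apply_apply]
    have h3 : f w = ((e.symm (p w) : LinearMap.range f) : L) := by
      rw [h2]
      rfl
    rw [h3, h1, Submodule.coe_sum]
    refine Finset.sum_congr rfl fun j _ => ?_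
    rw [Submodule.coe_smul, Algebra.smul_def]

variable {k K : Type} [Field k] [Field K] [Algebra (RatFunc k) K] [Algebra k K]
  [IsScalarTower k (RatFunc k) K] [IsAlgClosed k] [CharZero k] [FiniteDimensional (RatFunc k) K]

variable {L : Type} [Field L] [Algebra K L] [FiniteDimensional K L] [Algebra (RatFunc k) L]
  [IsScalarTower (RatFunc k) K L] [Algebra k L] [IsScalarTower k (RatFunc k) L]

/-- The local inequality. -/
private theorem local_ineq {n : ℕ} {a : Option k} {g : Matrix (Fin n) (Fin n) K} {r : ℕ}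
    {A : Matrix (Fin r) (Fin n) K} {v : Fin r → L} {y : Fin n → L}
    (hA : ∀ w : Fin n → K,
      ∑ i, algebraMap K L (w i) * y i = ∑ j, algebraMap K L ((A.mulVec w) j) * v j)
    {h' : Matrix (Fin r) (Fin r) K} (hdet : h'.det ≠ 0)
    (hl : lattice a h' = (lattice a g).map ((Matrix.mulVecLin A).restrictScalars (regRing k K a)))
    {q : L} (hq : q ≠ 0)
    (h : ∀ v ∈ lattice a g, ∃ c ∈ regRing k L a, ∑ i, algebraMap K L (v i) * y i = q * c)
    {M : Type} [Field M] [Algebra K M] [FiniteDimensional K M] [Algebra (RatFunc k) M]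
    [IsScalarTower (RatFunc k) K M] [Algebra k M] [IsScalarTower k (RatFunc k) M]
    [FiniteDimensional (RatFunc k) M]
    (s : Fin r → (L →ₐ[K] M)) (hD : (Matrix.of fun i j => s i (v j)).det ≠ 0) :
    (∑ i, ordAt a (Algebra.norm (RatFunc k) (s i q))) ≤
      ordAt a (Algebra.norm (RatFunc k) (Matrix.of fun i j => s i (v j)).det) +
        ordAt a (Algebra.norm (RatFunc k) (algebraMap K M h'.det)) := by
  classical
  have h1 : ∀ l : Fin r, ∃ c ∈ regRing k L a,
      ∑ j, algebraMap K L (h' j l) * v j = q * c := by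
    intro l
    have hmem : (h'.transpose l) ∈ lattice a h' := Submodule.subset_span ⟨l, rfl⟩
    rw [hl] at hmem
    obtain ⟨w, hw, hwl⟩ := hmem
    obtain ⟨c, hc, hcw⟩ := h w hw
    refine ⟨c, hc, ?_⟩
    rw [← hcw, hA w]
    refine Finset.sum_congr rfl fun j _ => ?_
    have : A.mulVec w = h'.transpose l := hwl
    rw [this]
    rfl
  choose c hc hcl using h1
  have hmat : (Matrix.of fun i j => s i (v j)) * h'.map (algebraMap K M) =
      Matrix.diagonal (fun i => s i q) * (Matrix.of fun i l => s i (c l)) := by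
    ext i l
    rw [Matrix.mul_apply, Matrix.diagonal_mul]
    simp only [Matrix.of_apply, Matrix.map_apply]
    rw [← map_mul, ← hcl l, map_sum]
    refine Finset.sum_congr rfl fun j _ => ?_
    rw [map_mul, AlgHom.commutes, mul_comm]
  have hdetm := congrArg Matrix.det hmat
  rw [Matrix.det_mul, Matrix.det_mul, Matrix.det_diagonal, ← RingHom.mapMatrix_apply,
    ← RingHom.map_det] at hdetm
  have hq' : ∀ i, s i q ≠ 0 := fun i => (map_ne_zero _).mpr hq
  have hh' : algebraMap K M h'.det ≠ 0 := (map_ne_zero _).mpr hdet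
  have hprod : (∏ i, s i q) ≠ 0 := Finset.prod_ne_zero_iff.mpr fun i _ => hq' i
  have hc0 : (Matrix.of fun i l => s i (c l)).det ≠ 0 := by
    intro h0
    rw [h0, mul_zero] at hdetm
    exact mul_ne_zero hD hh' hdetm
  have hcm : (Matrix.of fun i l => s i (c l)).det ∈ regRing k M a := by
    rw [Matrix.det_apply]
    refine Subalgebra.sum_mem _ fun σ _ => ?_
    rw [Units.smul_def]
    refine zsmul_mem ?_ _
    refine Subalgebra.prod_mem _ fun i _ => ?_
    have hint : IsIntegral (localRing a) (c i) := hc i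
    exact hint.map (((s (σ i)).restrictScalars (RatFunc k)).restrictScalars (localRing a))
  have hnn : 0 ≤ ordOver a (Matrix.of fun i l => s i (c l)).det := ordOver_nonneg hc0 hcm
  have hord := congrArg (ordOver a) hdetm
  rw [ordOver_mul a hD hh', ordOver_mul a hprod hc0] at hord
  have hpr : ordOver a (∏ i, s i q) = ∑ i, ordAt a (Algebra.norm (RatFunc k) (s i q)) := by
    rw [ordOver, map_prod, ordAt_prod a _ _ (fun i _ => norm_ne_zero' (hq' i))]
  rw [hpr] at hord
  change _ ≤ ordOver a (Matrix.of fun i j => s i (v j)).det + ordOver a (algebraMap K M h'.det)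
  rw [hord]
  linarith

theorem point_slope {n : ℕ} {g : Option k → Matrix (Fin n) (Fin n) K} (hg : IsBundle g) {mu : ℝ}
    (hmu : ∀ r : ℕ, 0 < r → ∀ A : Matrix (Fin r) (Fin n) K, A.rank = r →
      ∀ h : Option k → Matrix (Fin r) (Fin r) K, IsQuotientBundle g A h →
        mu * r ≤ (degree h : ℝ)) (y : Fin n → L) (hy : y ≠ 0) (q : Option k → L)
    (hq : ∀ a, q a ≠ 0) (hfin : {a | q a ≠ 1}.Finite)
    (h : ∀ a, ∀ v ∈ lattice a (g a), ∃ c ∈ regRing k L a,
      ∑ i, algebraMap K L (v i) * y i = q a * c) :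
    mu * (finrank K L : ℝ) ≤ ((-∑ᶠ a, ordAt a (Algebra.norm (RatFunc k) (q a)) : ℤ) : ℝ) := by
  classical
  obtain ⟨r, hr, A, R, v, hAR, hv, hA⟩ := exists_factor (K := K) y hy
  obtain ⟨h', hh'⟩ := exists_quotientBundle hg hAR
  have hslope := hmu r hr A (rank_of_right_inv hAR) h' hh'
  have : CharZero K := charZero_of_injective_algebraMap (algebraMap k K).injective
  obtain ⟨M, _, _, _, s, hD⟩ := exists_embeddings v hv
  let : Algebra (RatFunc k) M := ((algebraMap K M).comp (algebraMap (RatFunc k) K)).toAlgebra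
  have : IsScalarTower (RatFunc k) K M := IsScalarTower.of_algebraMap_eq fun _ => rfl
  let : Algebra k M := ((algebraMap (RatFunc k) M).comp (algebraMap k (RatFunc k))).toAlgebra
  have : IsScalarTower k (RatFunc k) M := IsScalarTower.of_algebraMap_eq fun _ => rfl
  have : FiniteDimensional (RatFunc k) M := FiniteDimensional.trans (RatFunc k) K M
  have : FiniteDimensional (RatFunc k) L := FiniteDimensional.trans (RatFunc k) K L
  set D := (Matrix.of fun i j => s i (v j)).det with hDdef
  have hloc := fun a => local_ineq (k := k) (a := a) hA (hh' a).1 (hh' a).2 (hq a) (h a) s hD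
  rw [← hDdef] at hloc
  -- the orders of the terms
  have hF := finrank_mul_finrank (RatFunc k) K L
  have hFM := finrank_mul_finrank (RatFunc k) K M
  have hnq : ∀ a i, (finrank (RatFunc k) L : ℤ) * ordAt a (Algebra.norm (RatFunc k) (s i (q a))) =
      finrank (RatFunc k) M * ordAt a (Algebra.norm (RatFunc k) (q a)) := by
    intro a i
    have h1 := norm_embedding ((s i).restrictScalars (RatFunc k)) (q a)
    have h2 := congrArg (ordAt a) h1
    rw [ordAt_pow a (norm_ne_zero' ((map_ne_zero _).mpr (hq a))),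
      ordAt_pow a (norm_ne_zero' (hq a))] at h2
    exact h2
  have hnh : ∀ a, ordAt a (Algebra.norm (RatFunc k) (algebraMap K M (h' a).det)) =
      finrank K M * ordOver a (h' a).det := by
    intro a
    rw [← Algebra.norm_norm (R := RatFunc k) (S := K), Algebra.norm_algebraMap, map_pow,
      ordAt_pow a (norm_ne_zero' (hh' a).1)]
    rfl
  have hineq : ∀ a, (r : ℤ) * (finrank (RatFunc k) M * ordAt a (Algebra.norm (RatFunc k) (q a))) ≤
      finrank (RatFunc k) L * ordAt a (Algebra.norm (RatFunc k) D) +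
        finrank (RatFunc k) L * (finrank K M * ordOver a (h' a).det) := by
    intro a
    have h1 := hloc a
    rw [hnh a] at h1
    have h2 : (finrank (RatFunc k) L : ℤ) *
        (∑ i, ordAt a (Algebra.norm (RatFunc k) (s i (q a)))) =
        (r : ℤ) * (finrank (RatFunc k) M * ordAt a (Algebra.norm (RatFunc k) (q a))) := by
      rw [Finset.mul_sum, Finset.sum_congr rfl (fun i _ => hnq a i), Finset.sum_const,
        Finset.card_univ, Fintype.card_fin, nsmul_eq_mul]
    rw [← h2, ← mul_add]
    exact mul_le_mul_of_nonneg_left h1 (Int.natCast_nonneg _)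
  -- finite supports
  have hs1 : {a | ordAt a (Algebra.norm (RatFunc k) (q a)) ≠ 0}.Finite := by
    refine hfin.subset fun a ha hqa => ha ?_
    rw [hqa, map_one, ordAt_one]
  have hs2 : {a | ordAt a (Algebra.norm (RatFunc k) D) ≠ 0}.Finite :=
    ordAt_support_finite (norm_ne_zero' hD)
  have hs3 : {a | ordOver a (h' a).det ≠ 0}.Finite := quotient_support_finite hg hAR hh'
  set T : Finset (Option k) := hs1.toFinset ∪ hs2.toFinset ∪ hs3.toFinset with hT
  have e1 : ∑ᶠ a, ordAt a (Algebra.norm (RatFunc k) (q a)) =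
      ∑ a ∈ T, ordAt a (Algebra.norm (RatFunc k) (q a)) := by
    refine finsum_eq_sum_of_support_subset _ fun a ha => ?_
    simp only [hT, Finset.coe_union, Set.Finite.coe_toFinset]
    exact Or.inl (Or.inl ha)
  have e2 : ∑ᶠ a, ordAt a (Algebra.norm (RatFunc k) D) =
      ∑ a ∈ T, ordAt a (Algebra.norm (RatFunc k) D) := by
    refine finsum_eq_sum_of_support_subset _ fun a ha => ?_
    simp only [hT, Finset.coe_union, Set.Finite.coe_toFinset]
    exact Or.inl (Or.inr ha)
  have e3 : ∑ᶠ a, ordOver a (h' a).det = ∑ a ∈ T, ordOver a (h' a).det := by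
    refine finsum_eq_sum_of_support_subset _ fun a ha => ?_
    simp only [hT, Finset.coe_union, Set.Finite.coe_toFinset]
    exact Or.inr ha
  have e4 : ∑ᶠ a, ordAt a (Algebra.norm (RatFunc k) D) = 0 := finsum_ordAt (norm_ne_zero' hD)
  have hsum := Finset.sum_le_sum fun a (_ : a ∈ T) => hineq a
  rw [Finset.sum_add_distrib, ← Finset.mul_sum, ← Finset.mul_sum, ← Finset.mul_sum,
    ← Finset.mul_sum, ← Finset.mul_sum, ← e1, ← e2, ← e3, e4, mul_zero, zero_add] at hsum
  rw [degree] at hslope
  have hK : (0 : ℝ) < finrank (RatFunc k) K := by exact_mod_cast finrank_pos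
  have hKM : (0 : ℝ) < finrank K M := by exact_mod_cast finrank_pos
  have hKL : (0 : ℝ) < finrank K L := by exact_mod_cast finrank_pos
  have hr' : (0 : ℝ) < r := by exact_mod_cast hr
  set P : ℤ := ∑ᶠ a, ordAt a (Algebra.norm (RatFunc k) (q a)) with hP
  set Q : ℤ := ∑ᶠ a, ordOver a (h' a).det with hQ
  have hsum' : (r : ℝ) * (finrank (RatFunc k) M * P) ≤
      finrank (RatFunc k) L * (finrank K M * Q) := by exact_mod_cast hsum
  rw [← hF, ← hFM] at hsum'
  push_cast at hsum' hslope ⊢
  have h5 : (finrank (RatFunc k) K * finrank K M : ℝ) * (r * P) ≤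
      (finrank (RatFunc k) K * finrank K M : ℝ) * (finrank K L * Q) := by
    calc _ = (r : ℝ) * (finrank (RatFunc k) K * finrank K M * P) := by ring
      _ ≤ _ := hsum'
      _ = _ := by ring
  have h6 := le_of_mul_le_mul_left h5 (mul_pos hK hKM)
  have h7 := mul_le_mul_of_nonneg_left hslope hKL.le
  have h8 : (r : ℝ) * (mu * finrank K L) ≤ r * (-P) := by
    calc (r : ℝ) * (mu * finrank K L) = finrank K L * (mu * r) := by ring
      _ ≤ finrank K L * (-(Q : ℝ)) := h7
      _ = -(finrank K L * Q) := by ring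
      _ ≤ -(r * P) := neg_le_neg h6
      _ = _ := by ring
  exact le_of_mul_le_mul_left h8 hr'

end

end Pool.Agent.FJ.S
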