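import Pool.Agent.FJ.S.Defs
import Pool.Agent.FJ.S.A

/-! # FJ, Theorem S: the lattices of linear forms of a bundle -/

set_option linter.unusedSectionVars false

namespace Pool.Agent.FJ.S

open Pool.Agent.Helper38.Scroll Module MvPolynomial

section

variable {k K : Type} [Field k] [Field K] [Algebra (RatFunc k) K] [Algebra k K]
  [IsScalarTower k (RatFunc k) K] [IsAlgClosed k] [CharZero k] [FiniteDimensional (RatFunc k) K]

/-- The linear form with coefficients `v`. -/
noncomputable def linForm (K : Type) [Field K] (j n : ℕ) :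
    (Fin j → Fin n → K) →ₗ[K] MvPolynomial (Fin j × Fin n) K where
  toFun v := ∑ l, ∑ i, C (v l i) * X (l, i)
  map_add' v w := by
    simp only [Pi.add_apply, map_add, add_mul, Finset.sum_add_distrib]
  map_smul' c v := by
    simp only [Pi.smul_apply, smul_eq_mul, map_mul, RingHom.id_apply, Finset.smul_sum,
      MvPolynomial.smul_eq_C_mul, mul_assoc]

lemma linForm_apply (j n : ℕ) (v : Fin j → Fin n → K) :
    linForm K j n v = ∑ l, ∑ i, C (v l i) * X (l, i) := rfl

lemma linForm_single (j n : ℕ) (l : Fin j) (v : Fin n → K) :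
    linForm K j n (Pi.single l v) = ∑ i, C (v i) * X (l, i) := by
  rw [linForm_apply, Finset.sum_eq_single l]
  · simp
  · intro m _ hm
    apply Finset.sum_eq_zero
    intro i _
    simp [Pi.single_eq_of_ne hm]
  · intro h; exact absurd (Finset.mem_univ l) h

/-- The lattices of linear forms of the bundle `E^j`. -/
theorem exists_linLat {n : ℕ} (j : ℕ) {g : Option k → Matrix (Fin n) (Fin n) K}
    (hg : IsBundle g) : ∃ E : LinLat k K (Fin j × Fin n), ∀ (a : Option k)
      (f : MvPolynomial (Fin j × Fin n) K), f ∈ E.E a ↔ ∃ v : Fin j → Fin n → K,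
        (∀ l, v l ∈ lattice a (g a)) ∧ f = ∑ l, ∑ i, C (v l i) * X (l, i) := by
  classical
  have hmem : ∀ (a : Option k) (f : MvPolynomial (Fin j × Fin n) K),
      f ∈ (Submodule.pi (Set.univ : Set (Fin j)) (fun _ => lattice a (g a))).map
        ((linForm K j n).restrictScalars (regRing k K a)) ↔ ∃ v : Fin j → Fin n → K,
        (∀ l, v l ∈ lattice a (g a)) ∧ f = ∑ l, ∑ i, C (v l i) * X (l, i) := by
    intro a f
    constructor
    · rintro ⟨v, hv, rfl⟩
      exact ⟨v, fun l => hv l (Set.mem_univ l), rfl⟩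
    · rintro ⟨v, hv, rfl⟩
      exact ⟨v, fun l _ => hv l, rfl⟩
  refine ⟨⟨fun a => (Submodule.pi (Set.univ : Set (Fin j)) (fun _ => lattice a (g a))).map
        ((linForm K j n).restrictScalars (regRing k K a)), ?_, ?_, ?_, ?_⟩, hmem⟩
  · intro a f hf
    obtain ⟨v, hv, rfl⟩ := (hmem a f).mp hf
    apply IsHomogeneous.sum
    intro l _
    apply IsHomogeneous.sum
    intro i _
    exact isHomogeneous_C_mul_X _ _
  · intro a
    exact (Submodule.fg_pi fun _ => lattice_fg a (g a)).map _
  · rintro a ⟨l, i⟩
    obtain ⟨m, hm⟩ := lattice_absorb (k := k) a (hg.1 a) (Pi.single i (1 : K))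
    refine ⟨m, (hmem a _).mpr ⟨Pi.single l (unifAt a ^ m • Pi.single i (1 : K)), ?_, ?_⟩⟩
    · intro l'
      by_cases h : l' = l
      · subst h; simpa using hm
      · rw [Pi.single_eq_of_ne h]; exact Submodule.zero_mem _
    · rw [← linForm_apply, linForm_single, Finset.sum_eq_single i]
      · rw [Pi.smul_apply, Pi.single_eq_same, Algebra.smul_def (unifAt a ^ m) (1 : K), mul_one,
          Algebra.smul_def]
        rfl
      · intro i' _ hi'
        rw [Pi.smul_apply, Pi.single_eq_of_ne hi', smul_zero, map_zero, zero_mul]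
      · intro h; exact absurd (Finset.mem_univ i) h
  · apply hg.2.subset
    intro a ha h
    apply ha
    ext f
    rw [hmem a f, h, Submodule.mem_span_range_iff_exists_fun]
    constructor
    · rintro ⟨v, hv, rfl⟩
      simp only [mem_lattice_one] at hv
      refine ⟨fun p => ⟨v p.1 p.2, hv p.1 p.2⟩, ?_⟩
      rw [Fintype.sum_prod_type]
      apply Finset.sum_congr rfl
      intro l _
      apply Finset.sum_congr rfl
      intro i _
      rw [← MvPolynomial.smul_eq_C_mul]
      rfl
    · rintro ⟨c, rfl⟩
      refine ⟨fun l i => (c (l, i) : K), ?_, ?_⟩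
      · intro l
        rw [mem_lattice_one]
        exact fun i => (c (l, i)).2
      · rw [Fintype.sum_prod_type]
        apply Finset.sum_congr rfl
        intro l _
        apply Finset.sum_congr rfl
        intro i _
        rw [← MvPolynomial.smul_eq_C_mul]
        rfl

theorem pointBound_of_slopes {n : ℕ} (j : ℕ) {g : Option k → Matrix (Fin n) (Fin n) K}
    (hg : IsBundle g) {mu : ℝ}
    (hmu : ∀ r : ℕ, 0 < r → ∀ A : Matrix (Fin r) (Fin n) K, A.rank = r →
      ∀ h : Option k → Matrix (Fin r) (Fin r) K, IsQuotientBundle g A h →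
        mu * r ≤ (degree h : ℝ)) {E : LinLat k K (Fin j × Fin n)}
    (hE : ∀ (a : Option k) (f : MvPolynomial (Fin j × Fin n) K), f ∈ E.E a ↔
      ∃ v : Fin j → Fin n → K,
        (∀ l, v l ∈ lattice a (g a)) ∧ f = ∑ l, ∑ i, C (v l i) * X (l, i)) :
    PointBound E (mu / (finrank (RatFunc k) K : ℝ)) := by
  classical
  intro L _ _ _ _ _ _ _ y q hy hq hfin h
  have hex : ∃ l, (fun i => y (l, i)) ≠ 0 := by
    by_contra hcon
    push Not at hcon
    apply hy
    funext p
    exact congrFun (hcon p.1) p.2
  obtain ⟨l, hl⟩ := hex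
  have h1 := point_slope (L := L) hg hmu (fun i => y (l, i)) hl q hq hfin (by
    intro a v hv
    obtain ⟨c, hc, hc'⟩ := h a (∑ i, C (v i) * X (l, i)) ((hE a _).mpr
      ⟨Pi.single l v, by
        intro l'
        by_cases h' : l' = l
        · subst h'; simpa using hv
        · rw [Pi.single_eq_of_ne h']; exact Submodule.zero_mem _, by
        rw [← linForm_apply, linForm_single]⟩)
    refine ⟨c, hc, ?_⟩
    rw [← hc']
    simp [map_sum])
  have hN : (0 : ℝ) < finrank (RatFunc k) K := by
    exact_mod_cast (Module.finrank_pos : 0 < finrank (RatFunc k) K)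
  have h2 : (finrank (RatFunc k) L : ℝ) = finrank (RatFunc k) K * finrank K L := by
    exact_mod_cast (Module.finrank_mul_finrank (RatFunc k) K L).symm
  rw [h2]
  calc mu / (finrank (RatFunc k) K : ℝ) * (finrank (RatFunc k) K * finrank K L)
      = mu * finrank K L := by field_simp
    _ ≤ _ := h1

end

end Pool.Agent.FJ.S
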