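import Pool.Agent.FJ.S.Defs

/-! # FJ, Theorem S: powers of the lattices of linear forms -/

set_option linter.unusedSectionVars false

namespace Pool.Agent.FJ.S

open Pool.Agent.Helper38.Scroll Module MvPolynomial
open scoped Pointwise

section

variable {k K ι : Type} [Field k] [Field K] [Algebra (RatFunc k) K] [Algebra k K]
  [IsScalarTower k (RatFunc k) K] [IsAlgClosed k] [CharZero k] [FiniteDimensional (RatFunc k) K]
  [Finite ι]

/-- Induction for homogeneous polynomials. -/
private lemma ep_ind (Q : ℕ → MvPolynomial ι K → Prop) (h0 : ∀ m, Q m 0)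
    (hadd : ∀ m f g, Q m f → Q m g → Q m (f + g)) (hC : ∀ c : K, Q 0 (C c))
    (hX : ∀ m i f, Q m f → Q (m + 1) (X i * f)) (m : ℕ) (f : MvPolynomial ι K)
    (hf : f.IsHomogeneous m) : Q m f := by
  classical
  have hmon : ∀ (m : ℕ) (d : ι →₀ ℕ) (c : K), d.degree = m → Q m (monomial d c) := by
    intro m
    induction m with
    | zero =>
      intro d c hd
      have : d = 0 := (Finsupp.degree_eq_zero_iff d).1 hd
      subst this
      exact hC c
    | succ m ih =>
      intro d c hd
      have hd0 : d ≠ 0 := by
        rintro rfl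
        simp at hd
      obtain ⟨i, hi⟩ : ∃ i, d i ≠ 0 := by
        by_contra hcon
        push Not at hcon
        exact hd0 (Finsupp.ext hcon)
      have hle : Finsupp.single i 1 ≤ d := by
        rw [Finsupp.single_le_iff]
        omega
      obtain ⟨d', rfl⟩ := le_iff_exists_add.1 hle
      have hdeg : d'.degree = m := by
        rw [map_add, Finsupp.degree_single] at hd
        omega
      have : (monomial (Finsupp.single i 1 + d') c : MvPolynomial ι K) = X i * monomial d' c := by
        rw [X, monomial_mul, one_mul]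
      rw [this]
      exact hX m i _ (ih d' c hdeg)
  rw [f.as_sum]
  have hsup : ∀ d ∈ f.support, Q m (monomial d (coeff d f)) := by
    intro d hd
    apply hmon
    have := hf (mem_support_iff.1 hd)
    rw [← this, Finsupp.degree_eq_weight_one]
    rfl
  revert hsup
  generalize f.support = s
  generalize f = g
  intro hsup
  induction s using Finset.induction_on with
  | empty => simpa using h0 m
  | insert d s hd ih =>
    rw [Finset.sum_insert hd]
    exact hadd m _ _ (hsup d (Finset.mem_insert_self _ _))
      (ih fun e he => hsup e (Finset.mem_insert_of_mem he))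

private lemma ep_smul_eq (a : Option k) {r : RatFunc k} (hr : r ∈ localRing a)
    (f : MvPolynomial ι K) :
    r • f = (⟨algebraMap (RatFunc k) K r, algebraMap_mem_regRing hr⟩ : regRing k K a) • f := by
  change r • f = (algebraMap (RatFunc k) K r) • f
  rw [algebraMap_smul]

private lemma ep_unif (a : Option k) (n : ℕ) : (unifAt a) ^ n ∈ localRing a := by
  apply Subalgebra.pow_mem
  rw [mem_localRing_of_ne (unifAt_ne_zero a), ordAt_unifAt]
  norm_num

theorem pow_hom (E : LinLat k K ι) (a : Option k) (m : ℕ) {f : MvPolynomial ι K}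
    (hf : f ∈ (E.E a) ^ m) : f.IsHomogeneous m := by
  have key : ∀ m : ℕ, (E.E a) ^ m ≤
      (homogeneousSubmodule ι K m).restrictScalars (regRing k K a) := by
    intro m
    induction m with
    | zero =>
      rw [pow_zero]
      intro g hg
      obtain ⟨r, rfl⟩ := Submodule.mem_one.1 hg
      exact isHomogeneous_C ι (r : K)
    | succ m ih =>
      rw [pow_succ]
      refine Submodule.mul_le.2 fun g hg h hh => ?_
      have h1 : g.IsHomogeneous m := ih hg
      exact h1.mul (E.hom a h hh)
  exact key m hf

theorem pow_smul (E : LinLat k K ι) (a : Option k) (m : ℕ) {r : RatFunc k} (hr : r ∈ localRing a)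
    {f : MvPolynomial ι K} (hf : f ∈ (E.E a) ^ m) : r • f ∈ (E.E a) ^ m := by
  rw [ep_smul_eq a hr f]
  exact Submodule.smul_mem _ _ hf

theorem pow_absorb (E : LinLat k K ι) (a : Option k) (m : ℕ) {f : MvPolynomial ι K}
    (hf : f.IsHomogeneous m) : ∃ n : ℕ, (unifAt a) ^ n • f ∈ (E.E a) ^ m := by
  refine ep_ind (K := K) (fun m f => ∃ n : ℕ, (unifAt a) ^ n • f ∈ (E.E a) ^ m) ?_ ?_ ?_ ?_ m f hf
  · intro m
    exact ⟨0, by rw [smul_zero]; exact Submodule.zero_mem _⟩
  · rintro m f g ⟨n1, h1⟩ ⟨n2, h2⟩
    refine ⟨n1 + n2, ?_⟩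
    rw [smul_add]
    apply Submodule.add_mem
    · rw [add_comm, pow_add, mul_smul]
      exact pow_smul E a m (ep_unif a n2) h1
    · rw [pow_add, mul_smul]
      exact pow_smul E a m (ep_unif a n1) h2
  · intro c
    obtain ⟨n, hn⟩ := regRing_absorb a c
    refine ⟨n, ?_⟩
    rw [pow_zero, Submodule.mem_one]
    refine ⟨⟨_, hn⟩, ?_⟩
    change C ((unifAt a) ^ n • c) = (unifAt a) ^ n • C c
    exact (smul_monomial _).symm
  · rintro m i f ⟨n, hn⟩
    obtain ⟨n1, h1⟩ := E.absorb a i
    refine ⟨n1 + n, ?_⟩
    have : (unifAt a) ^ (n1 + n) • (X i * f) = ((unifAt a) ^ n1 • X i) * ((unifAt a) ^ n • f) := by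
      rw [smul_mul_smul_comm, pow_add]
    rw [this, pow_succ']
    exact Submodule.mul_mem_mul h1 hn

theorem pow_cofinite (E : LinLat k K ι) (m : ℕ) {f : MvPolynomial ι K} (hf : f.IsHomogeneous m) :
    {a | f ∉ (E.E a) ^ m}.Finite := by
  refine ep_ind (K := K) (fun m f => {a | f ∉ (E.E a) ^ m}.Finite) ?_ ?_ ?_ ?_ m f hf
  · intro m
    convert Set.finite_empty
    ext a
    simp
  · intro m f g h1 h2
    refine (h1.union h2).subset ?_
    intro a ha
    by_contra hcon
    simp only [Set.mem_union, Set.mem_ofPred_eq, not_or, not_not] at hcon ha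
    exact ha (Submodule.add_mem _ hcon.1 hcon.2)
  · intro c
    refine (regRing_cofinite (k := k) c).subset ?_
    intro a ha
    simp only [Set.mem_ofPred_eq] at ha ⊢
    intro hc
    apply ha
    rw [pow_zero, Submodule.mem_one]
    exact ⟨⟨c, hc⟩, rfl⟩
  · intro m i f h1
    refine (E.std.union h1).subset ?_
    intro a ha
    by_contra hcon
    simp only [Set.mem_union, Set.mem_ofPred_eq, not_or, not_not] at hcon ha
    apply ha
    rw [pow_succ']
    refine Submodule.mul_mem_mul ?_ hcon.2
    rw [hcon.1]
    exact Submodule.subset_span ⟨i, rfl⟩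

/-- Upper bound: every functional is regular on almost all lattices. -/
theorem pow_upper (E : LinLat k K ι) (m : ℕ) (θ : MvPolynomial ι K →ₗ[RatFunc k] RatFunc k) :
    {a | ∃ f ∈ (E.E a) ^ m, θ f ∉ localRing a}.Finite := by
  have : CharZero (RatFunc k) := inferInstance
  have hs : ∀ g : MvPolynomial ι K, ∃ s : K, ∀ c : K,
      θ (c • g) = Algebra.trace (RatFunc k) K (s * c) := by
    intro g
    let l : K →ₗ[RatFunc k] RatFunc k :=
      { toFun := fun c => θ (c • g)
        map_add' := fun c c' => by rw [add_smul, map_add]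
        map_smul' := fun r c => by
          rw [RingHom.id_apply, smul_assoc, map_smul] }
    obtain ⟨s, hs⟩ := exists_trace_repr l
    exact ⟨s, hs⟩
  choose s hs using hs
  have hfin : ((Set.range (X : ι → MvPolynomial ι K)) ^ m).Finite := by
    induction m with
    | zero => rw [pow_zero]; exact Set.finite_one
    | succ m ih => rw [pow_succ]; exact ih.mul (Set.finite_range _)
  have hU : (⋃ g ∈ (Set.range (X : ι → MvPolynomial ι K)) ^ m,
      {a : Option k | s g ∉ regRing k K a}).Finite :=
    hfin.biUnion fun g _ => regRing_cofinite (s g)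
  refine (E.std.union hU).subset ?_
  rintro a ⟨f, hf, hθ⟩
  by_contra hcon
  simp only [Set.mem_union, Set.mem_ofPred_eq, not_or, not_not, Set.mem_iUnion, not_exists] at hcon
  obtain ⟨h1, h2⟩ := hcon
  rw [h1, Submodule.span_pow] at hf
  have key : ∀ f ∈ Submodule.span (regRing k K a)
      ((Set.range (X : ι → MvPolynomial ι K)) ^ m), ∀ r : regRing k K a,
      θ ((r : K) • f) ∈ localRing a := by
    intro f hf
    induction hf using Submodule.span_induction with
    | mem g hg =>
      intro r
      rw [hs]
      exact trace_mem_localRing ((regRing k K a).mul_mem (h2 g hg) r.2)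
    | zero => intro r; rw [smul_zero, map_zero]; exact Subalgebra.zero_mem _
    | add f g _ _ hf hg =>
      intro r
      rw [smul_add, map_add]
      exact Subalgebra.add_mem _ (hf r) (hg r)
    | smul c f _ hf =>
      intro r
      have : (r : K) • (c • f) = ((r * c : regRing k K a) : K) • f := by
        change (r : K) • ((c : K) • f) = ((r : K) * (c : K)) • f
        rw [mul_smul]
      rw [this]
      exact hf _
  have h3 := key f hf 1
  rw [OneMemClass.coe_one, one_smul] at h3
  exact hθ h3

end

end Pool.Agent.FJ.S
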