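import Pool.Agent.FJ.S.Defs
import Pool.Agent.FJ.S.EP

/-! # FJ, Theorem S: polarization -/

set_option linter.unusedSectionVars false

namespace Pool.Agent.FJ.S

open Pool.Agent.Helper38.Scroll Module MvPolynomial

/-- The polarization identity. -/
lemma po_aux_polarization {A : Type*} [CommRing A] (m : ℕ) (x : Fin m → A) :
    ∑ T : Finset (Fin m), (-1 : A) ^ T.card * (∑ i ∈ Tᶜ, x i) ^ m =
      (m.factorial : A) * ∏ i, x i := by
  classical
  have h1 : ∀ T : Finset (Fin m), (∑ i ∈ Tᶜ, x i) ^ m =
      ∑ p : Fin m → Fin m, if (∀ i, p i ∉ T) then ∏ i, x (p i) else 0 := by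
    intro T
    have h2 : (∑ i ∈ Tᶜ, x i) ^ m = ∏ _i : Fin m, ∑ j ∈ Tᶜ, x j := by
      rw [Finset.prod_const, Finset.card_univ, Fintype.card_fin]
    rw [h2, Finset.prod_univ_sum, ← Finset.sum_filter]
    refine Finset.sum_congr ?_ fun _ _ => rfl
    ext p
    simp [Fintype.mem_piFinset]
  have h3 : ∀ p : Fin m → Fin m,
      (∑ T : Finset (Fin m), if (∀ i, p i ∉ T) then (-1 : A) ^ T.card else 0) =
        if Function.Bijective p then 1 else 0 := by
    intro p
    rw [← Finset.sum_filter]
    have h4 : (Finset.univ.filter fun T : Finset (Fin m) => ∀ i, p i ∉ T) =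
        ((Finset.univ.image p)ᶜ).powerset := by
      ext T
      simp only [Finset.mem_filter, Finset.mem_univ, true_and, Finset.mem_powerset]
      constructor
      · intro h t ht
        rw [Finset.mem_compl, Finset.mem_image]
        rintro ⟨i, -, rfl⟩
        exact h i ht
      · intro h i hi
        have := h hi
        rw [Finset.mem_compl] at this
        exact this (Finset.mem_image_of_mem _ (Finset.mem_univ i))
    rw [h4]
    have h5 := Finset.sum_powerset_neg_one_pow_card (x := (Finset.univ.image p)ᶜ)
    have h6 : (∑ T ∈ ((Finset.univ.image p)ᶜ).powerset, (-1 : A) ^ T.card) =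
        ((∑ T ∈ ((Finset.univ.image p)ᶜ).powerset, (-1 : ℤ) ^ T.card : ℤ) : A) := by
      push_cast
      rfl
    rw [h6, h5]
    by_cases hb : Function.Bijective p
    · rw [if_pos hb, if_pos]
      · simp
      · rw [Finset.compl_eq_empty_iff, Finset.image_univ_of_surjective hb.2]
    · rw [if_neg hb, if_neg]
      · simp
      · intro h7
        rw [Finset.compl_eq_empty_iff] at h7
        apply hb
        rw [← Finite.surjective_iff_bijective]
        intro y
        have : y ∈ Finset.univ.image p := by rw [h7]; exact Finset.mem_univ y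
        obtain ⟨i, -, hi⟩ := Finset.mem_image.1 this
        exact ⟨i, hi⟩
  calc ∑ T : Finset (Fin m), (-1 : A) ^ T.card * (∑ i ∈ Tᶜ, x i) ^ m
      = ∑ T : Finset (Fin m), ∑ p : Fin m → Fin m,
          (if (∀ i, p i ∉ T) then (-1 : A) ^ T.card else 0) * ∏ i, x (p i) := by
        refine Finset.sum_congr rfl fun T _ => ?_
        rw [h1, Finset.mul_sum]
        refine Finset.sum_congr rfl fun p _ => ?_
        split_ifs <;> simp
    _ = ∑ p : Fin m → Fin m, (if Function.Bijective p then 1 else 0) * ∏ i, x (p i) := by
        rw [Finset.sum_comm]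
        refine Finset.sum_congr rfl fun p _ => ?_
        rw [← Finset.sum_mul, h3]
    _ = ∑ p ∈ Finset.univ.filter fun p : Fin m → Fin m => Function.Bijective p,
          ∏ i, x i := by
        rw [Finset.sum_filter]
        refine Finset.sum_congr rfl fun p _ => ?_
        split_ifs with hb
        · rw [one_mul, hb.prod_comp]
        · rw [zero_mul]
    _ = (m.factorial : A) * ∏ i, x i := by
        rw [Finset.sum_const, nsmul_eq_mul]
        congr 2
        have h8 : (Finset.univ.filter fun p : Fin m → Fin m => Function.Bijective p) =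
            Finset.univ.map ⟨fun σ : Equiv.Perm (Fin m) => (σ : Fin m → Fin m),
              DFunLike.coe_injective⟩ := by
          ext p
          simp only [Finset.mem_filter, Finset.mem_univ, true_and, Finset.mem_map,
            Function.Embedding.coeFn_mk]
          constructor
          · intro hb
            exact ⟨Equiv.ofBijective p hb, rfl⟩
          · rintro ⟨σ, rfl⟩
            exact σ.bijective
        rw [h8, Finset.card_map, Finset.card_univ, Fintype.card_perm, Fintype.card_fin]

section

variable {k K ι : Type} [Field k] [Field K] [Algebra (RatFunc k) K] [Algebra k K]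
  [IsScalarTower k (RatFunc k) K] [IsAlgClosed k] [CharZero k] [FiniteDimensional (RatFunc k) K]
  [Finite ι]

theorem pow_le_span (E : LinLat k K ι) (a : Option k) (m : ℕ) :
    (E.E a) ^ m ≤ Submodule.span (regRing k K a) {f | ∃ e ∈ E.E a, f = e ^ m} := by
  classical
  rw [Submodule.pow_eq_span_pow_set, Submodule.span_le]
  intro f hf
  obtain ⟨g, hg⟩ := Set.mem_pow.1 hf
  rw [List.prod_ofFn] at hg
  set N := Submodule.span (regRing k K a) {f | ∃ e ∈ E.E a, f = e ^ m} with hN
  have h1 := po_aux_polarization m fun i => ((g i : MvPolynomial ι K))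
  rw [hg] at h1
  have h2 : (m.factorial : MvPolynomial ι K) * f ∈ N := by
    rw [← h1]
    refine Submodule.sum_mem _ fun T _ => ?_
    have h3 : (∑ i ∈ Tᶜ, (g i : MvPolynomial ι K)) ^ m ∈ N :=
      Submodule.subset_span ⟨_, Submodule.sum_mem _ fun i _ => (g i).2, rfl⟩
    rcases neg_one_pow_eq_or (MvPolynomial ι K) T.card with h4 | h4
    · rw [h4, one_mul]
      exact h3
    · rw [h4, neg_one_mul]
      exact Submodule.neg_mem _ h3
  have hm : (m.factorial : k) ≠ 0 := by exact_mod_cast Nat.factorial_ne_zero m
  let u : localRing (k := k) a := algebraMap k (localRing a) (m.factorial : k)⁻¹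
  let r : regRing k K a := algebraMap (localRing a) (regRing k K a) u
  have h5 : f = r • ((m.factorial : MvPolynomial ι K) * f) := by
    have h6 : (m.factorial : MvPolynomial ι K) * f =
        (m.factorial : regRing k K a) • f := by
      rw [Nat.cast_smul_eq_nsmul, nsmul_eq_mul]
    rw [h6, smul_smul]
    have h7 : r * (m.factorial : regRing k K a) = 1 := by
      have h8 : (m.factorial : regRing k K a) =
          algebraMap (localRing a) (regRing k K a) (algebraMap k (localRing a)
            (m.factorial : k)) := by
        rw [map_natCast, map_natCast]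
      rw [h8, ← map_mul, ← map_mul, inv_mul_cancel₀ hm, map_one, map_one]
    rw [h7, one_smul]
  rw [SetLike.mem_coe, h5]
  exact Submodule.smul_mem _ _ h2

end

end Pool.Agent.FJ.S
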