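import Pool.Agent.FJ.S.Defs

/-! # FJ, Theorem S: the polynomial of a multilinear form -/

set_option linter.unusedSectionVars false

namespace Pool.Agent.FJ.S

open Pool.Agent.Helper38.Scroll Module MvPolynomial

section

variable {K : Type} [Field K] {n j : ℕ}

theorem exists_thetaPoly (Θ : MultilinearMap K (fun _ : Fin j => Fin n → K) K) :
    ∃ P : MvPolynomial (Fin j × Fin n) K, P.IsHomogeneous j ∧
      ∀ x : Fin j × Fin n → K, eval x P = Θ (fun l i => x (l, i)) := by
  classical
  refine ⟨∑ s : Fin j → Fin n, C (Θ (fun l => Pi.single (s l) 1)) * ∏ l : Fin j, X (l, s l),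
    ?_, ?_⟩
  · refine IsHomogeneous.sum _ _ _ fun s _ => ?_
    have h1 : (∏ l : Fin j, (X (l, s l) : MvPolynomial (Fin j × Fin n) K)).IsHomogeneous
        (∑ _l : Fin j, 1) := IsHomogeneous.prod _ _ _ fun l _ => isHomogeneous_X _ _
    have h2 := (isHomogeneous_C (Fin j × Fin n) (Θ (fun l => Pi.single (s l) 1))).mul h1
    simpa using h2
  · intro x
    have key : (fun l i => x (l, i) : Fin j → Fin n → K) =
        fun l => ∑ i : Fin n, x (l, i) • (Pi.single i (1 : K) : Fin n → K) := by
      funext l i
      simp [Finset.sum_apply, Pi.single_apply]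
    rw [key, MultilinearMap.map_sum, map_sum]
    refine Finset.sum_congr rfl fun s _ => ?_
    rw [MultilinearMap.map_smul_univ]
    simp [mul_comm]

end

end Pool.Agent.FJ.S
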