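import Pool.Agent.FJ.S.IND
import Pool.Agent.FJ.S.LG
import Pool.Agent.FJ.S.AP
import Pool.Agent.FJ.S.PO
import Pool.Agent.FJ.S.TH
import Pool.Agent.FJ.S.HT

/-! # FJ, Theorem S: the theorem -/

set_option linter.unusedSectionVars false

namespace Pool.Agent.FJ.S

open Pool.Agent.Helper38.Scroll Module MvPolynomial

section

variable {k K : Type} [Field k] [Field K] [Algebra (RatFunc k) K] [Algebra k K]
  [IsScalarTower k (RatFunc k) K] [IsAlgClosed k] [CharZero k] [FiniteDimensional (RatFunc k) K]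

/-- The values of the apolar functional. -/
theorem apolar_values {n j : ℕ} {g : Option k → Matrix (Fin n) (Fin n) K}
    {E : LinLat k K (Fin j × Fin n)}
    (hE : ∀ (a : Option k) (f : MvPolynomial (Fin j × Fin n) K), f ∈ E.E a ↔
      ∃ v : Fin j → Fin n → K,
        (∀ l, v l ∈ lattice a (g a)) ∧ f = ∑ l, ∑ i, C (v l i) * X (l, i))
    (Θ : MultilinearMap K (fun _ : Fin j => Fin n → K) K) {nu : Option k → K}
    (hval : ∀ (a : Option k) (v : Fin j → Fin n → K), (∀ i, v i ∈ lattice a (g a)) →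
      ∃ c ∈ regRing k K a, Θ v = nu a * c) {P : MvPolynomial (Fin j × Fin n) K}
    (hP : ∀ x : Fin j × Fin n → K, eval x P = Θ (fun l i => x (l, i))) (t m : ℕ)
    {θ : MvPolynomial (Fin j × Fin n) K →ₗ[K] K}
    (hθ : ∀ v : Fin j × Fin n → K, θ ((∑ i, C (v i) * X i) ^ m) =
      (m.factorial : K) * eval v (P ^ t)) (a : Option k) (f : MvPolynomial (Fin j × Fin n) K)
    (hf : f ∈ (E.E a) ^ m) : ∃ c ∈ regRing k K a, θ f = nu a ^ t * c := by
  have h1 := pow_le_span E a m hf
  refine Submodule.span_induction (p := fun f _ => ∃ c ∈ regRing k K a, θ f = nu a ^ t * c)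
    ?_ ?_ ?_ ?_ h1
  · rintro f ⟨e, he, rfl⟩
    obtain ⟨v, hv, rfl⟩ := (hE a e).mp he
    obtain ⟨c, hc, hc'⟩ := hval a v hv
    have h2 : (∑ l, ∑ i, C (v l i) * X (l, i) : MvPolynomial (Fin j × Fin n) K) =
        ∑ p : Fin j × Fin n, C (v p.1 p.2) * X p := by
      rw [Fintype.sum_prod_type]
    refine ⟨(m.factorial : K) * c ^ t, ?_, ?_⟩
    · exact mul_mem (natCast_mem _ _) (pow_mem hc t)
    · rw [h2, hθ (fun p => v p.1 p.2), map_pow, hP]
      change (m.factorial : K) * Θ v ^ t = _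
      rw [hc']
      ring
  · exact ⟨0, zero_mem _, by rw [map_zero, mul_zero]⟩
  · rintro x y _ _ ⟨c, hc, hx⟩ ⟨c', hc', hy⟩
    exact ⟨c + c', add_mem hc hc', by rw [map_add, hx, hy]; ring⟩
  · rintro r x _ ⟨c, hc, hx⟩
    refine ⟨(r : K) * c, mul_mem r.2 hc, ?_⟩
    have h3 : r • x = (r : K) • x := rfl
    rw [h3, map_smul, hx, smul_eq_mul]
    ring

theorem slope_multilinear_aux {n j : ℕ} {g : Option k → Matrix (Fin n) (Fin n) K}
    (hg : IsBundle g) {mu : ℝ}
    (hmu : ∀ r : ℕ, 0 < r → ∀ A : Matrix (Fin r) (Fin n) K, A.rank = r →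
      ∀ h : Option k → Matrix (Fin r) (Fin r) K, IsQuotientBundle g A h →
        mu * r ≤ (degree h : ℝ))
    (Θ : MultilinearMap K (fun _ : Fin j => Fin n → K) K) (h0 : Θ ≠ 0) (nu : Option k → K)
    (hnu : ∀ a, nu a ≠ 0)
    (hfin : {a | ¬ (nu a ∈ regRing k K a ∧ (nu a)⁻¹ ∈ regRing k K a)}.Finite)
    (hval : ∀ (a : Option k) (v : Fin j → Fin n → K), (∀ i, v i ∈ lattice a (g a)) →
      ∃ c ∈ regRing k K a, Θ v = nu a * c) :
    mu * (j : ℝ) ≤ ((-∑ᶠ a, ordOver a (nu a) : ℤ) : ℝ) := by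
  haveI : CharZero K := charZero_of_injective_algebraMap (algebraMap k K).injective
  obtain ⟨E, hE⟩ := exists_linLat j hg
  have hPB := pointBound_of_slopes j hg hmu hE
  have hLB := LB_all E hPB ⊥ homI_bot
  obtain ⟨P, hPhom, hP⟩ := exists_thetaPoly Θ
  have hP0 : P ≠ 0 := by
    intro h
    apply h0
    refine MultilinearMap.ext fun v => ?_
    have h1 := hP (fun p => v p.1 p.2)
    rw [h, map_zero] at h1
    exact h1.symm
  obtain ⟨c0, hc0⟩ := exists_twist nu hnu hfin
  set d0 : ℝ := (finrank (RatFunc k) K : ℝ) with hd0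
  have hd0pos : 0 < d0 := by
    rw [hd0]
    exact_mod_cast finrank_pos
  set N : ℝ := ((-∑ᶠ a, ordOver a (nu a) : ℤ) : ℝ) with hN
  -- the inequality for each `t`
  have key : ∀ η : ℝ, 0 < η → ∃ C : ℝ, ∀ t : ℕ,
      (mu / d0 - η) * ((j : ℝ) * t) * d0 - C ≤ t * N := by
    intro η hη
    obtain ⟨C, hC⟩ := hLB η hη
    refine ⟨C * d0 + c0, ?_⟩
    intro t
    obtain ⟨h, T, hh0, hh1, hh2, hT⟩ := hc0 t
    obtain ⟨θ, hθ, hθ0⟩ := exists_apolar (P ^ t) (hPhom.pow t)
    have hvals := apolar_values hE Θ hval hP t (j * t) hθ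
    -- the functional over `k(x)`
    let φ : MvPolynomial (Fin j × Fin n) K →ₗ[RatFunc k] RatFunc k :=
      (Algebra.trace (RatFunc k) K).comp
        ((LinearMap.mulLeft (RatFunc k) h).comp (θ.restrictScalars (RatFunc k)))
    have hφ : ∀ f, φ f = Algebra.trace (RatFunc k) K (h * θ f) := fun f => rfl
    have hb := hC (j * t) φ T ?_ ?_ ?_
    · push_cast at hb
      have h3 : ((mu / d0 - η) * ((j : ℝ) * t) - C) * d0 ≤ T * d0 :=
        mul_le_mul_of_nonneg_right hb hd0pos.le
      nlinarith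
    · intro f hf _
      rw [Ideal.mem_bot] at hf
      rw [hf, map_zero]
    · obtain ⟨f, hf, hf0⟩ := hθ0 (pow_ne_zero t hP0)
      obtain ⟨z, hz⟩ := Algebra.trace_surjective (RatFunc k) K 1
      refine ⟨(z / (h * θ f)) • f, ?_, ?_⟩
      · rw [MvPolynomial.smul_eq_C_mul]
        have h4 := (isHomogeneous_C (Fin j × Fin n) (z / (h * θ f))).mul hf
        rwa [zero_add] at h4
      · rw [hφ, map_smul, smul_eq_mul]
        have h5 : h * (z / (h * θ f) * θ f) = z := by
          field_simp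
        rw [h5, hz]
        exact one_ne_zero
    · refine ⟨?_, ?_⟩
      · intro a f hf
        obtain ⟨c, hc, hc'⟩ := hvals (some a) f hf
        rw [hφ, hc', ← mul_assoc]
        exact trace_mem_localRing (mul_mem (hh1 a) hc)
      · intro f hf
        obtain ⟨c, hc, hc'⟩ := hvals none f hf
        by_cases hφ0 : φ f = 0
        · left; exact hφ0
        right
        have h6 : (unifAt (none : Option k)) ^ T * φ f ∈ localRing (none : Option k) := by
          have h7 : (unifAt (none : Option k)) ^ T * φ f =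
              Algebra.trace (RatFunc k) K
                (((unifAt (none : Option k)) ^ T • (h * nu none ^ t)) * c) := by
            rw [smul_mul_assoc, map_smul, smul_eq_mul, hφ, hc', ← mul_assoc h]
          rw [h7]
          exact trace_mem_localRing (mul_mem hh2 hc)
        have h8 : (unifAt (none : Option k)) ^ T ≠ 0 := zpow_ne_zero _ (unifAt_ne_zero none)
        rw [mem_localRing_of_ne (mul_ne_zero h8 hφ0), ordAt_mul none h8 hφ0,
          ordAt_zpow none (unifAt_ne_zero none), ordAt_unifAt] at h6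
        linarith
  -- the limits
  have key2 : ∀ η : ℝ, 0 < η → (mu - η * d0) * (j : ℝ) ≤ N := by
    intro η hη
    obtain ⟨C, hC⟩ := key η hη
    by_contra hcon
    push Not at hcon
    obtain ⟨t, ht⟩ := exists_nat_gt (C / ((mu - η * d0) * (j : ℝ) - N))
    have hpos : 0 < (mu - η * d0) * (j : ℝ) - N := by linarith
    rw [div_lt_iff₀ hpos] at ht
    have h9 := hC t
    have h10 : (mu / d0 - η) * ((j : ℝ) * t) * d0 = t * ((mu - η * d0) * (j : ℝ)) := by
      field_simp
    rw [h10] at h9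
    nlinarith
  by_contra hcon
  push Not at hcon
  have hj : 0 ≤ (j : ℝ) := Nat.cast_nonneg j
  set δ := mu * (j : ℝ) - N with hδ
  have hδpos : 0 < δ := by linarith
  have hden : 0 < d0 * ((j : ℝ) + 1) := by positivity
  have h11 := key2 (δ / (2 * (d0 * ((j : ℝ) + 1)))) (by positivity)
  have h12 : δ / (2 * (d0 * ((j : ℝ) + 1))) * d0 * (j : ℝ) ≤ δ / 2 := by
    rw [div_mul_eq_mul_div, div_mul_eq_mul_div, div_le_div_iff₀ (by positivity) (by norm_num)]
    nlinarith
  nlinarith

end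

/-- **Theorem S.** A nonzero multilinear map `E × ⋯ × E → N` into a line bundle, where every
quotient bundle of `E` has slope at least `mu`, satisfies `deg N ≥ mu j`. -/
theorem slope_multilinear_fin {k K : Type} [Field k] [IsAlgClosed k] [CharZero k] [Field K]
    [Algebra (RatFunc k) K] [Algebra k K] [IsScalarTower k (RatFunc k) K]
    [FiniteDimensional (RatFunc k) K] {n j : ℕ} {g : Option k → Matrix (Fin n) (Fin n) K}
    (hg : Curve.IsBundle g) {mu : ℚ}
    (hmu : ∀ r : ℕ, 0 < r → ∀ A : Matrix (Fin r) (Fin n) K, A.rank = r →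
      ∀ h : Option k → Matrix (Fin r) (Fin r) K, Curve.IsQuotientBundle g A h →
        mu * r ≤ Curve.degree h)
    (Θ : MultilinearMap K (fun _ : Fin j => Fin n → K) K) (h0 : Θ ≠ 0) (nu : Option k → K)
    (hnu : ∀ a, nu a ≠ 0)
    (hfin : {a | ¬ (Curve.Regular a (nu a) ∧ Curve.Regular a (nu a)⁻¹)}.Finite)
    (hval : ∀ (a : Option k) (v : Fin j → Fin n → K), (∀ i, v i ∈ Curve.lattice a (g a)) →
      ∃ c, Curve.Regular a c ∧ Θ v = nu a * c) :
    mu * j ≤ -(∑ᶠ a, Curve.ordOver a (nu a)) := by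
  have h1 : (mu : ℝ) * (j : ℝ) ≤ ((-∑ᶠ a, ordOver a (nu a) : ℤ) : ℝ) := by
    refine slope_multilinear_aux (light_isBundle hg) ?_ Θ h0 nu hnu hfin ?_
    · intro r hr A hA h hh
      have h2 := hmu r hr A hA h (light_quotient hh)
      rw [light_degree] at h2
      exact_mod_cast h2
    · intro a v hv
      refine hval a v ?_
      intro i
      rw [light_lattice]
      exact hv i
  have h3 : (∑ᶠ a, Curve.ordOver a (nu a)) = ∑ᶠ a, ordOver a (nu a) := rfl
  rw [h3]
  exact_mod_cast h1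

/-- **Theorem S**, for multilinear maps indexed by a finite type. -/
theorem slope_multilinear {k K : Type} [Field k] [IsAlgClosed k] [CharZero k] [Field K]
    [Algebra (RatFunc k) K] [Algebra k K] [IsScalarTower k (RatFunc k) K]
    [FiniteDimensional (RatFunc k) K] {ι : Type} [Fintype ι] {r : ℕ}
    {h : Option k → Matrix (Fin r) (Fin r) K} (hh : Curve.IsBundle h) {μ : ℚ}
    (hμ : ∀ s, 0 < s → ∀ A : Matrix (Fin s) (Fin r) K, A.rank = s → ∀ h',
      Curve.IsQuotientBundle h A h' → μ * s ≤ Curve.degree h')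
    (Θ : MultilinearMap K (fun _ : ι => Fin r → K) K) (h0 : Θ ≠ 0) {ν : Option k → K}
    (hν : ∀ a, ν a ≠ 0)
    (hfin : {a | ¬ (Curve.Regular a (ν a) ∧ Curve.Regular a (ν a)⁻¹)}.Finite)
    (hval : ∀ a (v : ι → Fin r → K), (∀ i, v i ∈ Curve.lattice a (h a)) →
      ∃ c, Curve.Regular a c ∧ Θ v = ν a * c) :
    μ * Fintype.card ι ≤ ((-∑ᶠ a, Curve.ordOver a (ν a) : ℤ) : ℚ) := by
  let e : ι ≃ Fin (Fintype.card ι) := Fintype.equivFin ι
  let Θ' : MultilinearMap K (fun _ : Fin (Fintype.card ι) => Fin r → K) K := Θ.domDomCongr e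
  have hΘ' : ∀ v, Θ' v = Θ (fun i => v (e i)) := fun v => rfl
  have h0' : Θ' ≠ 0 := by
    intro h
    apply h0
    refine MultilinearMap.ext fun v => ?_
    have h1 : Θ' (fun j => v (e.symm j)) = 0 := by
      rw [h]
      rfl
    rw [hΘ'] at h1
    simp only [Equiv.symm_apply_apply] at h1
    exact h1
  have h2 := slope_multilinear_fin hh hμ Θ' h0' ν hν hfin (fun a v hv => by
    obtain ⟨c, hc, hc'⟩ := hval a (fun i => v (e i)) (fun i => hv (e i))
    exact ⟨c, hc, by rw [hΘ', hc']⟩)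
  exact_mod_cast h2

end Pool.Agent.FJ.S
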