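import Pool.Agent.FJ.S.Defs
import Pool.Agent.FJ.S.EP

/-! # FJ, Theorem S: generators of the image at a point -/

set_option linter.unusedSectionVars false

namespace Pool.Agent.FJ.S

open Pool.Agent.Helper38.Scroll Module MvPolynomial

section ring

variable {k L : Type} [Field k] [Field L] [Algebra (RatFunc k) L] [Algebra k L]
  [IsScalarTower k (RatFunc k) L] [IsAlgClosed k] [CharZero k] [FiniteDimensional (RatFunc k) L]

private lemma qa_maximal_finite (a : Option k) :
    {P : Ideal (regRing k L a) | P.IsMaximal}.Finite := by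
  have h1 : (IsLocalRing.maximalIdeal (localRing a)).primesOver (regRing k L a) |>.Finite :=
    IsDedekindDomain.primesOver_finite _ _
  refine Set.Finite.subset (h1.insert ⊥) ?_
  intro P hP
  have hP'' : P.IsMaximal := hP
  have hP' : P.IsPrime := hP''.isPrime
  by_cases hbot : P = ⊥
  · left; exact hbot
  right
  refine ⟨hP', ⟨?_⟩⟩
  have hcomap : P.under (localRing a) ≠ ⊥ := by
    intro h
    exact hbot (Ideal.eq_bot_of_comap_eq_bot h)
  have hprime : (P.under (localRing a)).IsPrime := inferInstance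
  have hmax : (P.under (localRing a)).IsMaximal := hprime.isMaximal hcomap
  exact (IsLocalRing.eq_maximalIdeal hmax).symm

/-- A `k`-combination of generators of the unit ideal which is a unit. -/
private lemma qa_unit {a : Option k} {n : ℕ} (c b : Fin n → regRing k L a)
    (h : ∑ j, b j * c j = 1) : ∃ t : Fin n → k, IsUnit (∑ j, t j • c j) := by
  classical
  let V : Ideal (regRing k L a) → Submodule k (Fin n → k) := fun P =>
    (P.restrictScalars k).comap (Fintype.linearCombination k c)
  have hV : ∀ P : Ideal (regRing k L a), P.IsMaximal → V P ≠ ⊤ := by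
    intro P hP htop
    have hc : ∀ j, c j ∈ P := by
      intro j
      have h1 : (Pi.single j 1 : Fin n → k) ∈ V P := htop ▸ Submodule.mem_top
      have h2 : Fintype.linearCombination k c (Pi.single j 1) ∈ P := h1
      rwa [Fintype.linearCombination_apply_single, one_smul] at h2
    apply hP.ne_top
    rw [Ideal.eq_top_iff_one, ← h]
    exact P.sum_mem fun j _ => P.mul_mem_left _ (hc j)
  set s : Finset (Submodule k (Fin n → k)) :=
    (qa_maximal_finite (k := k) (L := L) a).toFinset.image V with hs
  have hcov : ⋃ p ∈ s, (p : Set (Fin n → k)) ≠ Set.univ := by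
    intro hcov
    have h1 := Subspace.top_mem_of_biUnion_eq_univ hcov
    rw [hs, Finset.mem_image] at h1
    obtain ⟨P, hP, hP'⟩ := h1
    rw [Set.Finite.mem_toFinset] at hP
    exact hV P hP hP'
  obtain ⟨t, ht⟩ := (Set.ne_univ_iff_exists_notMem _).1 hcov
  refine ⟨t, ?_⟩
  by_contra hu
  obtain ⟨P, hP, hPm⟩ := exists_max_ideal_of_mem_nonunits hu
  apply ht
  refine Set.mem_biUnion (x := V P) ?_ ?_
  · rw [hs]
    exact Finset.mem_coe.2 (Finset.mem_image.2 ⟨P, by rwa [Set.Finite.mem_toFinset], rfl⟩)
  · show Fintype.linearCombination k c t ∈ P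
    rw [Fintype.linearCombination_apply]
    exact hPm

end ring

section

variable {k K ι : Type} [Field k] [Field K] [Algebra (RatFunc k) K] [Algebra k K]
  [IsScalarTower k (RatFunc k) K] [IsAlgClosed k] [CharZero k] [FiniteDimensional (RatFunc k) K]

variable {L : Type} [Field L] [Algebra K L] [FiniteDimensional K L] [Algebra (RatFunc k) L]
  [IsScalarTower (RatFunc k) K L] [Algebra k L] [IsScalarTower k (RatFunc k) L]

private lemma qa_map {a : Option k} {x : K} (hx : x ∈ regRing k K a) :
    algebraMap K L x ∈ regRing k L a := by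
  have h : IsIntegral (localRing a) x := hx
  obtain ⟨p, hp, hpx⟩ := h
  refine ⟨p, hp, ?_⟩
  have h1 : (algebraMap (localRing a) L) = (algebraMap K L).comp (algebraMap (localRing a) K) := by
    ext r
    show algebraMap (RatFunc k) L (r : RatFunc k) =
      algebraMap K L (algebraMap (RatFunc k) K (r : RatFunc k))
    rw [IsScalarTower.algebraMap_apply (RatFunc k) K L]
  rw [h1, ← Polynomial.hom_eval₂, hpx, map_zero]

private lemma qa_const (t : k) : algebraMap K L (algebraMap k K t) = algebraMap k L t := by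
  rw [IsScalarTower.algebraMap_apply k (RatFunc k) K, IsScalarTower.algebraMap_apply k (RatFunc k) L,
    IsScalarTower.algebraMap_apply (RatFunc k) K L]

private lemma qa_span {a : Option k} {S : Set (MvPolynomial ι K)} (y : ι → L) (q : L)
    (h : ∀ f ∈ S, ∃ c ∈ regRing k L a, aeval y f = q * c) {f : MvPolynomial ι K}
    (hf : f ∈ Submodule.span (regRing k K a) S) : ∃ c ∈ regRing k L a, aeval y f = q * c := by
  induction hf using Submodule.span_induction with
  | mem f hf => exact h f hf
  | zero => exact ⟨0, zero_mem _, by rw [map_zero, mul_zero]⟩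
  | add f g _ _ hf hg =>
    obtain ⟨c, hc, hc'⟩ := hf
    obtain ⟨d, hd, hd'⟩ := hg
    exact ⟨c + d, add_mem hc hd, by rw [map_add, hc', hd', mul_add]⟩
  | smul r f _ hf =>
    obtain ⟨c, hc, hc'⟩ := hf
    refine ⟨algebraMap K L (r : K) * c, mul_mem (qa_map r.2) hc, ?_⟩
    have h1 : r • f = (r : K) • f := rfl
    rw [h1, map_smul, hc', Algebra.smul_def]
    ring

private lemma qa_local (E : LinLat k K ι) (y : ι → L) {i0 : ι} (hy : y i0 = 1) (a : Option k) :
    ∃ q : L, q ≠ 0 ∧ (∃ e ∈ E.E a, aeval y e = q) ∧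
      ∀ f ∈ E.E a, ∃ c ∈ regRing k L a, aeval y f = q * c := by
  classical
  have hfin : FiniteDimensional (RatFunc k) L := FiniteDimensional.trans (RatFunc k) K L
  obtain ⟨n, s, hs⟩ := Submodule.fg_iff_exists_fin_generating_family.1 (E.fg a)
  -- common denominator
  choose m hm using fun j => regRing_absorb (k := k) a (aeval y (s j))
  set N : ℕ := ∑ j, m j with hN
  set p : L := algebraMap (RatFunc k) L (unifAt a ^ N) with hp
  have hp0 : p ≠ 0 := by
    rw [hp]
    exact (map_ne_zero _).2 (pow_ne_zero _ (unifAt_ne_zero a))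
  have hz : ∀ j, p * aeval y (s j) ∈ regRing k L a := by
    intro j
    have h1 : m j ≤ N := Finset.single_le_sum (fun _ _ => Nat.zero_le _) (Finset.mem_univ j)
    obtain ⟨d, hd⟩ := Nat.exists_eq_add_of_le' h1
    have h2 := smul_regRing_mem (K := L) (pow_mem (unifAt_mem a) d) (hm j)
    rw [smul_smul, ← pow_add, ← hd, Algebra.smul_def] at h2
    exact h2
  -- the generator
  let z : Fin n → regRing k L a := fun j => ⟨p * aeval y (s j), hz j⟩
  obtain ⟨g, hg⟩ := (IsPrincipalIdealRing.principal (Ideal.span (Set.range z))).principal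
  have hg' : Ideal.span (Set.range z) = Ideal.span {g} := hg
  have hzg : ∀ j, ∃ c, z j = g * c := by
    intro j
    have h1 : z j ∈ Ideal.span {g} := hg' ▸ Ideal.subset_span ⟨j, rfl⟩
    obtain ⟨c, hc⟩ := Ideal.mem_span_singleton'.1 h1
    exact ⟨c, by rw [← hc, mul_comm]⟩
  choose c hc using hzg
  have hgz : g ∈ Ideal.span (Set.range z) := hg' ▸ Ideal.mem_span_singleton_self g
  obtain ⟨b, hb⟩ := Ideal.mem_span_range_iff_exists_fun.1 hgz
  have hg0 : g ≠ 0 := by
    rintro rfl
    have hzero : ∀ j, aeval y (s j) = 0 := by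
      intro j
      have h1 := hc j
      rw [zero_mul] at h1
      have h2 : p * aeval y (s j) = 0 := congrArg Subtype.val h1
      exact (mul_eq_zero.1 h2).resolve_left hp0
    obtain ⟨M, hM⟩ := E.absorb a i0
    rw [← hs] at hM
    obtain ⟨c, -, hc⟩ := qa_span (S := Set.range s) y (0 : L)
      (by rintro f ⟨j, rfl⟩; exact ⟨0, zero_mem _, by rw [hzero j, zero_mul]⟩) hM
    rw [zero_mul] at hc
    have h3 : aeval y ((unifAt a) ^ M • (X i0 : MvPolynomial ι K)) =
        algebraMap (RatFunc k) L (unifAt a ^ M) := by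
      rw [← algebraMap_smul K (unifAt a ^ M) (X i0 : MvPolynomial ι K), map_smul, aeval_X, hy,
        Algebra.smul_def, mul_one, IsScalarTower.algebraMap_apply (RatFunc k) K L]
    rw [h3] at hc
    exact (map_ne_zero _).2 (pow_ne_zero _ (unifAt_ne_zero a)) hc
  have hsum : ∑ j, b j * c j = 1 := by
    have h1 : g * ∑ j, b j * c j = g * 1 := by
      rw [Finset.mul_sum, mul_one]
      conv_rhs => rw [← hb]
      refine Finset.sum_congr rfl fun j _ => ?_
      rw [hc j]
      ring
    exact mul_left_cancel₀ hg0 h1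
  obtain ⟨t, ht⟩ := qa_unit c b hsum
  obtain ⟨u, hu⟩ := ht
  have huL : ((u : regRing k L a) : L) * (((u⁻¹ : (regRing k L a)ˣ) : regRing k L a) : L) = 1 := by
    have := congrArg Subtype.val (Units.mul_inv u)
    exact this
  set u' : L := ((u : regRing k L a) : L) with hu'
  have hu0 : u' ≠ 0 := fun h => by rw [h, zero_mul] at huL; exact zero_ne_one huL
  set q0 : L := p⁻¹ * (g : L) with hq0
  have hg0' : (g : L) ≠ 0 := fun h => hg0 (Subtype.ext h)
  have hzq : ∀ j, aeval y (s j) = q0 * (c j : L) := by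
    intro j
    have h1 : p * aeval y (s j) = (g : L) * (c j : L) := congrArg Subtype.val (hc j)
    rw [hq0, mul_assoc, ← h1, ← mul_assoc, inv_mul_cancel₀ hp0, one_mul]
  refine ⟨q0 * u', mul_ne_zero (mul_ne_zero (inv_ne_zero hp0) hg0') hu0, ?_, ?_⟩
  · refine ⟨∑ j, (algebraMap k K (t j)) • s j, ?_, ?_⟩
    · refine Submodule.sum_mem _ fun j _ => ?_
      have h1 : s j ∈ E.E a := hs ▸ Submodule.subset_span ⟨j, rfl⟩
      have h2 : algebraMap k K (t j) ∈ regRing k K a := by
        rw [IsScalarTower.algebraMap_apply k (RatFunc k) K]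
        exact algebraMap_mem_regRing ((localRing a).algebraMap_mem (t j))
      exact (E.E a).smul_mem (⟨_, h2⟩ : regRing k K a) h1
    · rw [map_sum]
      have h3 : u' = ∑ j, algebraMap k L (t j) * (c j : L) := by
        rw [hu', hu]
        rw [AddSubmonoidClass.coe_finsetSum]
        refine Finset.sum_congr rfl fun j _ => ?_
        rw [← Algebra.smul_def]
        rfl
      rw [h3, Finset.mul_sum]
      refine Finset.sum_congr rfl fun j _ => ?_
      rw [map_smul, hzq, Algebra.smul_def, qa_const]
      ring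
  · intro f hf
    rw [← hs] at hf
    refine qa_span (S := Set.range s) y _ ?_ hf
    rintro f ⟨j, rfl⟩
    refine ⟨(((u⁻¹ : (regRing k L a)ˣ) : regRing k L a) : L) * (c j : L),
      mul_mem (Subtype.property _) (c j).2, ?_⟩
    rw [hzq]
    calc q0 * (c j : L) = q0 * 1 * (c j : L) := by rw [mul_one]
      _ = _ := by rw [← huL]; ring

variable [Finite ι]

theorem exists_generators (E : LinLat k K ι) (y : ι → L) {i0 : ι} (hy : y i0 = 1) :
    ∃ q : Option k → L, (∀ a, q a ≠ 0) ∧ {a | q a ≠ 1}.Finite ∧
      (∀ a, ∃ e ∈ E.E a, aeval y e = q a) ∧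
      ∀ a, ∀ f ∈ E.E a, ∃ c ∈ regRing k L a, aeval y f = q a * c := by
  classical
  have hfin : FiniteDimensional (RatFunc k) L := FiniteDimensional.trans (RatFunc k) K L
  let good : Option k → Prop := fun a => E.E a = Submodule.span (regRing k K a)
    (Set.range (X : ι → MvPolynomial ι K)) ∧ ∀ i, y i ∈ regRing k L a
  have hbad : {a | ¬ good a}.Finite := by
    refine (E.std.union (Set.finite_iUnion fun i => regRing_cofinite (k := k) (y i))).subset ?_
    intro a ha
    by_contra hcon
    apply ha
    refine ⟨?_, fun i => ?_⟩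
    · by_contra h
      exact hcon (Or.inl h)
    · by_contra h
      exact hcon (Or.inr (Set.mem_iUnion.2 ⟨i, h⟩))
  have hex : ∀ a, ∃ q : L, (good a → q = 1) ∧ q ≠ 0 ∧ (∃ e ∈ E.E a, aeval y e = q) ∧
      ∀ f ∈ E.E a, ∃ c ∈ regRing k L a, aeval y f = q * c := by
    intro a
    by_cases ha : good a
    · refine ⟨1, fun _ => rfl, one_ne_zero, ⟨X i0, ?_, by rw [aeval_X, hy]⟩, fun f hf => ?_⟩
      · rw [ha.1]
        exact Submodule.subset_span ⟨i0, rfl⟩
      · rw [ha.1] at hf
        refine qa_span (S := Set.range (X : ι → MvPolynomial ι K)) y _ ?_ hf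
        rintro f ⟨i, rfl⟩
        exact ⟨y i, ha.2 i, by rw [aeval_X, one_mul]⟩
    · obtain ⟨q, hq⟩ := qa_local E y hy a
      exact ⟨q, fun h => absurd h ha, hq⟩
  choose q h1 h2 h3 h4 using hex
  refine ⟨q, h2, hbad.subset fun a ha hga => ha (h1 a hga), h3, h4⟩

end

end Pool.Agent.FJ.S
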