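import Pool.Agent.FJ.S.Defs
import Pool.Agent.FJ.S.EP

/-! # FJ, Theorem S: scaling and the trivial bound -/

set_option linter.unusedSectionVars false

namespace Pool.Agent.FJ.S

open Pool.Agent.Helper38.Scroll Module MvPolynomial

section

variable {k K ι : Type} [Field k] [Field K] [Algebra (RatFunc k) K] [Algebra k K]
  [IsScalarTower k (RatFunc k) K] [IsAlgClosed k] [CharZero k] [FiniteDimensional (RatFunc k) K]
  [Finite ι]

private noncomputable def scFam (E : LinLat k K ι) (m : ℕ) : LatticeFamily k (Sm k K ι m) where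
  W a :=
    { carrier := {u | (u : MvPolynomial ι K) ∈ (E.E a) ^ m}
      add_mem' := fun hu hv => add_mem (S := Submodule (regRing k K a) (MvPolynomial ι K)) hu hv
      zero_mem' := Submodule.zero_mem _
      smul_mem' := fun r _ hu => pow_smul E a m r.2 hu }
  fin u := pow_cofinite E m u.2
  absorb a u := pow_absorb E a m u.2

theorem exists_scale (E : LinLat k K ι) (m : ℕ) {b : MvPolynomial ι K} (hb : b.IsHomogeneous m) :
    ∃ (p : RatFunc k) (c : ℕ), p ≠ 0 ∧ (∀ a : k, p • b ∈ (E.E (some a)) ^ m) ∧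
      (unifAt (none : Option k)) ^ c • (p • b) ∈ (E.E none) ^ m := by
  obtain ⟨f, hf, -, hf2⟩ := (scFam E m).exists_denom (⟨b, hb⟩ : Sm k K ι m)
  have h1 : ∀ a : k, (algebraMap (Polynomial k) (RatFunc k) f) • b ∈ (E.E (some a)) ^ m :=
    fun a => hf2 a
  have hh : ((algebraMap (Polynomial k) (RatFunc k) f) • b).IsHomogeneous m :=
    (Sm k K ι m).smul_mem _ (x := b) hb
  obtain ⟨c, hc⟩ := pow_absorb E none m hh
  exact ⟨_, c, RatFunc.algebraMap_ne_zero hf, h1, hc⟩

theorem trivial_bound (E : LinLat k K ι) (m : ℕ) : ∃ c : ℤ,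
    ∀ (θ : MvPolynomial ι K →ₗ[RatFunc k] RatFunc k) (d : ℤ), NonZ m θ → IsFunS E m d θ →
      c ≤ d := by
  classical
  have hfin : {α : ι →₀ ℕ | α.degree = m}.Finite :=
    (Finsupp.finite_of_degree_le m).subset fun α hα => le_of_eq hα
  let e := Module.finBasis (RatFunc k) K
  have hhom : ∀ (α : ι →₀ ℕ) (j : Fin (finrank (RatFunc k) K)), α.degree = m →
      (monomial α (e j) : MvPolynomial ι K).IsHomogeneous m := fun α j h =>
    isHomogeneous_monomial _ h
  have hsc : ∀ (α : ι →₀ ℕ) (j : Fin (finrank (RatFunc k) K)), ∃ c : ℕ, α.degree = m →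
      ∃ p : RatFunc k, p ≠ 0 ∧ (∀ a : k, p • (monomial α (e j)) ∈ (E.E (some a)) ^ m) ∧
      (unifAt (none : Option k)) ^ c • (p • (monomial α (e j))) ∈ (E.E none) ^ m := by
    intro α j
    by_cases h : α.degree = m
    · obtain ⟨p, c, h1, h2, h3⟩ := exists_scale E m (hhom α j h)
      exact ⟨c, fun _ => ⟨p, h1, h2, h3⟩⟩
    · exact ⟨0, fun h' => absurd h' h⟩
  choose c hc using hsc
  let C : ℕ := hfin.toFinset.sup fun α => Finset.univ.sup fun j => c α j
  have hC : ∀ α j, α.degree = m → c α j ≤ C := by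
    intro α j h
    have h1 : c α j ≤ Finset.univ.sup fun j => c α j := Finset.le_sup (f := fun j => c α j)
      (Finset.mem_univ j)
    exact h1.trans (Finset.le_sup (f := fun α => Finset.univ.sup fun j => c α j)
      (hfin.mem_toFinset.2 h))
  refine ⟨-(C : ℤ), ?_⟩
  intro θ d hnz hfun
  -- some monomial has nonzero value
  obtain ⟨α, hα, j, hj⟩ : ∃ α : ι →₀ ℕ, α.degree = m ∧ ∃ j, θ (monomial α (e j)) ≠ 0 := by
    by_contra hcon
    push Not at hcon
    obtain ⟨f, hf, hθ⟩ := hnz
    apply hθ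
    rw [f.as_sum, map_sum]
    refine Finset.sum_eq_zero fun α hα => ?_
    have hdeg : α.degree = m := by
      by_contra h
      exact (mem_support_iff.1 hα) (hf.coeff_eq_zero h)
    have h1 : (monomial α (coeff α f) : MvPolynomial ι K) =
        ∑ j, (e.repr (coeff α f) j) • monomial α (e j) := by
      conv_lhs => rw [← e.sum_repr (coeff α f)]
      rw [map_sum]
      refine Finset.sum_congr rfl fun j _ => ?_
      rw [smul_monomial]
    rw [h1, map_sum]
    refine Finset.sum_eq_zero fun j _ => ?_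
    rw [map_smul, hcon α hdeg j, smul_zero]
  obtain ⟨p, hp, hp1, hp2⟩ := hc α j hα
  set φ : RatFunc k := θ (p • monomial α (e j)) with hφ
  have hφ0 : φ ≠ 0 := by
    rw [hφ, map_smul, smul_eq_mul]
    exact mul_ne_zero hp hj
  have hreg : ∀ a : k, 0 ≤ ordAt (some a) φ := fun a =>
    (mem_localRing_of_ne hφ0).1 (hfun.1 a _ (hp1 a))
  have hnone : ordAt none φ ≤ 0 := by
    by_contra h
    push Not at h
    have hall : ∀ a : Option k, 0 ≤ ordAt a φ := by
      intro a
      cases a with
      | none => exact h.le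
      | some a => exact hreg a
    have h1 := single_le_finsum none (f := fun a => ordAt a φ) (ordAt_support_finite hφ0) hall
    rw [finsum_ordAt hφ0] at h1
    exact absurd h1 (not_le.2 h)
  have h2 := hfun.2 _ hp2
  rw [map_smul, ← hφ, smul_eq_mul] at h2
  have hπ : unifAt (none : Option k) ^ c α j ≠ 0 := pow_ne_zero _ (unifAt_ne_zero _)
  rcases h2 with h2 | h2
  · exact absurd h2 (mul_ne_zero hπ hφ0)
  · rw [ordAt_mul _ hπ hφ0, ordAt_pow _ (unifAt_ne_zero _), ordAt_unifAt] at h2
    have h3 := hC α j hα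
    have h4 : (c α j : ℤ) ≤ C := by exact_mod_cast h3
    linarith

end

end Pool.Agent.FJ.S
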