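import Pool.Agent.FJ.S.Defs
import Pool.Agent.FJ.S.QA
import Pool.Agent.FJ.S.SC

/-! # FJ, Theorem S: primes with bounded Hilbert function -/

set_option linter.unusedSectionVars false

namespace Pool.Agent.FJ.S

open Pool.Agent.Helper38.Scroll Module MvPolynomial

section

variable {k K ι : Type} [Field k] [Field K] [Algebra (RatFunc k) K] [Algebra k K]
  [IsScalarTower k (RatFunc k) K] [IsAlgClosed k] [CharZero k] [FiniteDimensional (RatFunc k) K]
  [Finite ι]

variable {L : Type} [Field L] [Algebra K L] [FiniteDimensional K L] [Algebra (RatFunc k) L]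
  [IsScalarTower (RatFunc k) K L] [Algebra k L] [IsScalarTower k (RatFunc k) L]

/-- Uniform denominators for finitely many forms. -/
lemma exists_denoms (E : LinLat k K ι) (m : ℕ) {κ : Type} [Finite κ] (f : κ → MvPolynomial ι K)
    (hf : ∀ i, (f i).IsHomogeneous m) : ∃ c : Option k → ℕ, {a | c a ≠ 0}.Finite ∧
      ∀ a i, (unifAt a) ^ (c a) • f i ∈ (E.E a) ^ m := by
  classical
  cases nonempty_fintype κ
  choose n hn using fun (a : Option k) (i : κ) => pow_absorb E a m (hf i)
  refine ⟨fun a => if ∀ i, f i ∈ (E.E a) ^ m then 0 else ∑ i, n a i, ?_, ?_⟩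
  · have h1 : (⋃ i : κ, {a | f i ∉ (E.E a) ^ m}).Finite :=
      Set.finite_iUnion fun i => pow_cofinite E m (hf i)
    refine h1.subset ?_
    intro a ha
    by_contra hcon
    simp only [Set.mem_iUnion, Set.mem_ofPred_eq, not_exists, not_not] at hcon
    exact ha (if_pos hcon)
  · intro a i
    dsimp only
    split_ifs with h
    · rw [pow_zero, one_smul]
      exact h i
    · have h2 : n a i ≤ ∑ i, n a i := Finset.single_le_sum (fun _ _ => Nat.zero_le _)
        (Finset.mem_univ i)
      obtain ⟨s, hs⟩ := Nat.exists_eq_add_of_le' h2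
      rw [hs, pow_add, mul_smul]
      exact pow_smul E a m (pow_mem (unifAt_mem a) s) (hn a i)

lemma mem_Sm {m : ℕ} {f : MvPolynomial ι K} : f ∈ Sm k K ι m ↔ f.IsHomogeneous m := Iff.rfl

/-- A functional killing `I` factors through the field of the point. -/
lemma exists_factor {I : Ideal (MvPolynomial ι K)} {m : ℕ} (y : ι → L)
    (h1 : ∀ f : MvPolynomial ι K, f.IsHomogeneous m → aeval y f = 0 → f ∈ I)
    (h2 : ∀ z : L, ∃ f : MvPolynomial ι K, f.IsHomogeneous m ∧ aeval y f = z)
    (θ : MvPolynomial ι K →ₗ[RatFunc k] RatFunc k) (hθ : Kills I m θ) :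
    ∃ tb : L →ₗ[RatFunc k] RatFunc k, ∀ f : MvPolynomial ι K, f.IsHomogeneous m →
      θ f = tb (aeval y f) := by
  let ev : Sm k K ι m →ₗ[RatFunc k] L :=
    ((aeval y).toLinearMap.restrictScalars (RatFunc k)).comp (Sm k K ι m).subtype
  have hev : ∀ f : Sm k K ι m, ev f = aeval y (f : MvPolynomial ι K) := fun f => rfl
  have hsurj : LinearMap.range ev = ⊤ := by
    rw [LinearMap.range_eq_top]
    intro z
    obtain ⟨f, hf, hfz⟩ := h2 z
    exact ⟨⟨f, hf⟩, hfz⟩
  obtain ⟨g, hg⟩ := ev.exists_rightInverse_of_surjective hsurj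
  refine ⟨(θ.comp (Sm k K ι m).subtype).comp g, ?_⟩
  intro f hf
  have h3 : ev (⟨f, hf⟩ - g (aeval y f)) = 0 := by
    rw [map_sub, hev]
    have h4 : ev (g (aeval y f)) = aeval y f := LinearMap.congr_fun hg _
    rw [h4, sub_self]
  have h5 : θ ((⟨f, hf⟩ - g (aeval y f) : Sm k K ι m) : MvPolynomial ι K) = 0 :=
    hθ _ (h1 _ (mem_Sm.mp (⟨f, hf⟩ - g (aeval y f) : Sm k K ι m).2) h3)
      (mem_Sm.mp (⟨f, hf⟩ - g (aeval y f) : Sm k K ι m).2)
  have h6 : ((⟨f, hf⟩ - g (aeval y f) : Sm k K ι m) : MvPolynomial ι K) =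
      f - (g (aeval y f) : MvPolynomial ι K) := rfl
  rw [h6, map_sub, sub_eq_zero] at h5
  exact h5

/-- The matrix of the form `tb (u v)` is nonsingular. -/
lemma det_form_ne_zero {F L : Type} [Field F] [Field L] [Algebra F L] {r : ℕ}
    (e : Basis (Fin r) F L) (tb : L →ₗ[F] F) (h0 : tb ≠ 0) :
    (Matrix.of fun i j => tb (e i * e j)).det ≠ 0 := by
  intro hdet
  obtain ⟨v, hv0, hv⟩ := Matrix.exists_mulVec_eq_zero_iff.mpr hdet
  apply h0
  set z : L := ∑ j, v j • e j with hz
  have hz0 : z ≠ 0 := by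
    intro h
    apply hv0
    have h1 := e.linearIndependent
    rw [Fintype.linearIndependent_iff] at h1
    funext j
    exact h1 v h j
  have h2 : ∀ i, tb (e i * z) = 0 := by
    intro i
    have h3 := congrFun hv i
    rw [Matrix.mulVec, dotProduct] at h3
    rw [hz, Finset.mul_sum, map_sum]
    refine Eq.trans ?_ h3
    apply Finset.sum_congr rfl
    intro j _
    rw [mul_smul_comm, map_smul, smul_eq_mul, mul_comm]
    rfl
  have h4 : ∀ w : L, tb (w * z) = 0 := by
    intro w
    rw [← e.sum_repr w, Finset.sum_mul, map_sum]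
    apply Finset.sum_eq_zero
    intro i _
    rw [smul_mul_assoc, map_smul, h2, smul_zero]
  ext w
  have h5 := h4 (w * z⁻¹)
  rw [mul_assoc, inv_mul_cancel₀ hz0, mul_one] at h5
  rw [h5]
  rfl

/-- Multiplying the second argument by `x` multiplies the determinant of the form by the norm. -/
lemma det_form_mul {F L : Type} [Field F] [Field L] [Algebra F L] {r : ℕ}
    (e : Basis (Fin r) F L) (tb : L →ₗ[F] F) (x : L) :
    (Matrix.of fun i j => tb (x * (e i * e j))).det =
      (Matrix.of fun i j => tb (e i * e j)).det * Algebra.norm F x := by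
  rw [Algebra.norm_eq_matrix_det e x, ← Matrix.det_mul]
  congr 1
  ext i j
  rw [Matrix.mul_apply, Matrix.of_apply]
  have h1 : x * e j = ∑ l, (Algebra.leftMulMatrix e x) l j • e l := by
    rw [← e.sum_repr (x * e j)]
    apply Finset.sum_congr rfl
    intro l _
    rw [Algebra.leftMulMatrix_eq_repr_mul]
  have h2 : x * (e i * e j) = e i * (x * e j) := by ring
  rw [h2, h1, Finset.mul_sum, map_sum]
  apply Finset.sum_congr rfl
  intro l _
  rw [mul_smul_comm, map_smul, smul_eq_mul, Matrix.of_apply, mul_comm]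

/-- The order of a determinant with bounded entries. -/
lemma ordAt_det_bounded {r : ℕ} (a : Option k) (T : Matrix (Fin r) (Fin r) (RatFunc k))
    (hT : T.det ≠ 0) (s : ℤ) (h : ∀ i j, (unifAt a) ^ s * T i j ∈ localRing a) :
    0 ≤ s * r + ordAt a T.det := by
  have h1 : ((unifAt a) ^ s • T).det ∈ localRing a := by
    rw [Matrix.det_apply]
    refine Subalgebra.sum_mem _ fun σ _ => ?_
    have h2 : ∏ i, ((unifAt a) ^ s • T) (σ i) i ∈ localRing a :=
      Subalgebra.prod_mem _ fun i _ => h _ _
    rcases Int.units_eq_one_or (Equiv.Perm.sign σ) with h3 | h3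
    · rw [h3, one_smul]
      exact h2
    · rw [h3, Units.neg_smul, one_smul]
      exact neg_mem h2
  have hu : (unifAt a) ^ s ≠ 0 := zpow_ne_zero _ (unifAt_ne_zero a)
  rw [Matrix.det_smul, Fintype.card_fin] at h1
  rw [mem_localRing_of_ne (mul_ne_zero (pow_ne_zero _ hu) hT),
    ordAt_mul a (pow_ne_zero _ hu) hT, ordAt_pow a hu, ordAt_zpow a (unifAt_ne_zero a),
    ordAt_unifAt] at h1
  linarith

theorem LB_const (E : LinLat k K ι) {mu : ℝ} (hP : PointBound E mu)
    {I : Ideal (MvPolynomial ι K)} {i0 : ι} {m1 : ℕ} (y : ι → L) (hy : y i0 = 1)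
    (h1 : ∀ (m : ℕ) (f : MvPolynomial ι K), f.IsHomogeneous m → (aeval y f = 0 ↔ f ∈ I))
    (h2 : ∀ m ≥ m1, ∀ z : L, ∃ f : MvPolynomial ι K, f.IsHomogeneous m ∧ aeval y f = z) :
    LB E mu I := by
  classical
  obtain ⟨q, hq0, hqfin, hqe, hqc⟩ := exists_generators E y hy
  have hy0 : y ≠ 0 := by
    intro h
    rw [h] at hy
    exact zero_ne_one hy
  have hPB := hP L y q hy0 hq0 hqfin hqc
  haveI : FiniteDimensional (RatFunc k) L := FiniteDimensional.trans (RatFunc k) K L
  set r : ℕ := finrank (RatFunc k) L with hr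
  have hrpos : 0 < r := finrank_pos
  let e : Basis (Fin r) (RatFunc k) L := finBasis (RatFunc k) L
  choose f hf hfe using fun p : Fin r × Fin r => h2 m1 le_rfl (e p.1 * e p.2)
  obtain ⟨c, hcfin, hc⟩ := exists_denoms E m1 f hf
  choose b hb using fun m : ℕ => trivial_bound E m
  set Sq : ℤ := ∑ᶠ a, ordAt a (Algebra.norm (RatFunc k) (q a)) with hSq
  set Sc : ℤ := ∑ᶠ a, (c a : ℤ) with hSc
  -- the main inequality
  have main : ∀ (m : ℕ) (θ : MvPolynomial ι K →ₗ[RatFunc k] RatFunc k) (d : ℤ), m1 ≤ m →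
      Kills I m θ → NonZ m θ → IsFunS E m d θ →
      0 ≤ Sc * r + ((m - m1 : ℕ) : ℤ) * Sq + d * r := by
    intro m θ d hm hk hnz hfun
    obtain ⟨tb, htb⟩ := exists_factor y (fun f hf hf0 => (h1 m f hf).mp hf0) (h2 m hm) θ hk
    have htb0 : tb ≠ 0 := by
      rintro rfl
      obtain ⟨f0, hf0, hf1⟩ := hnz
      exact hf1 (htb f0 hf0)
    set T : Matrix (Fin r) (Fin r) (RatFunc k) := Matrix.of fun i j => tb (e i * e j) with hT
    have hTdet : T.det ≠ 0 := det_form_ne_zero e tb htb0
    have hN : ∀ a, Algebra.norm (RatFunc k) (q a ^ (m - m1)) ≠ 0 := fun a =>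
      Algebra.norm_ne_zero_iff.mpr (pow_ne_zero _ (hq0 a))
    -- the values
    have hval : ∀ a (i j : Fin r), ∃ g ∈ (E.E a) ^ m,
        (unifAt a) ^ (c a) * tb (q a ^ (m - m1) * (e i * e j)) = θ g := by
      intro a i j
      obtain ⟨e0, he0, he1⟩ := hqe a
      have h5 : (e0 ^ (m - m1) * ((unifAt a) ^ (c a) • f (i, j))) ∈ (E.E a) ^ m := by
        have h3 : (e0 ^ (m - m1) * ((unifAt a) ^ (c a) • f (i, j))) ∈
            (E.E a) ^ ((m - m1) + m1) := by
          rw [pow_add]
          exact Submodule.mul_mem_mul (Submodule.pow_mem_pow _ he0 _) (hc a (i, j))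
        rwa [Nat.sub_add_cancel hm] at h3
      refine ⟨e0 ^ (m - m1) * ((unifAt a) ^ (c a) • f (i, j)), h5, ?_⟩
      · have h4 : (e0 ^ (m - m1) * ((unifAt a) ^ (c a) • f (i, j))).IsHomogeneous m :=
          pow_hom E a m h5
        have h6 : aeval y ((unifAt a) ^ (c a) • f (i, j)) =
            (unifAt a) ^ (c a) • aeval y (f (i, j)) := by
          have h7 := ((aeval y).toLinearMap.restrictScalars (RatFunc k) :
            MvPolynomial ι K →ₗ[RatFunc k] L).map_smul ((unifAt a) ^ (c a)) (f (i, j))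
          exact h7
        have h8 : aeval y (e0 ^ (m - m1) * ((unifAt a) ^ (c a) • f (i, j))) =
            (unifAt a) ^ (c a) • (q a ^ (m - m1) * (e i * e j)) := by
          rw [map_mul, map_pow, he1, h6, hfe, mul_smul_comm]
        rw [htb _ h4, h8, map_smul, smul_eq_mul]
    have hord : ∀ a, 0 ≤ ((c a : ℤ) + if a = none then d else 0) * r +
        (ordAt a T.det + ((m - m1 : ℕ) : ℤ) * ordAt a (Algebra.norm (RatFunc k) (q a))) := by
      intro a
      have h3 := ordAt_det_bounded a
        (Matrix.of fun i j => tb (q a ^ (m - m1) * (e i * e j))) ?_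
        ((c a : ℤ) + if a = none then d else 0) ?_
      · rw [det_form_mul, ordAt_mul a hTdet (hN a), map_pow,
          ordAt_pow a (Algebra.norm_ne_zero_iff.mpr (hq0 a))] at h3
        exact h3
      · rw [det_form_mul]
        exact mul_ne_zero hTdet (hN a)
      · intro i j
        obtain ⟨g, hg, hgv⟩ := hval a i j
        rw [Matrix.of_apply]
        cases a with
        | some a =>
          rw [if_neg (by simp), add_zero, zpow_natCast, hgv]
          exact hfun.1 a g hg
        | none =>
          rw [if_pos rfl, zpow_add₀ (unifAt_ne_zero none), zpow_natCast,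
            mul_comm (unifAt none ^ c none), mul_assoc, hgv]
          rcases hfun.2 g hg with h5 | h5
          · rw [h5, mul_zero]
            exact zero_mem _
          · by_cases h6 : θ g = 0
            · rw [h6, mul_zero]
              exact zero_mem _
            have hu : (unifAt (none : Option k)) ^ d ≠ 0 := zpow_ne_zero _ (unifAt_ne_zero _)
            rw [mem_localRing_of_ne (mul_ne_zero hu h6), ordAt_mul _ hu h6,
              ordAt_zpow _ (unifAt_ne_zero _), ordAt_unifAt]
            linarith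
    -- summation
    have hs1 : (Function.support fun a : Option k => (c a : ℤ) * r).Finite := by
      refine hcfin.subset ?_
      intro a ha h0
      apply ha
      simp [h0]
    have hs2 : (Function.support fun a : Option k => (if a = none then d else 0) * (r : ℤ)).Finite := by
      refine (Set.finite_singleton (none : Option k)).subset ?_
      intro a ha
      by_contra hcon
      apply ha
      simp only [Set.mem_singleton_iff] at hcon
      simp [hcon]
    have hs3 : (Function.support fun a : Option k => ordAt a T.det).Finite :=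
      ordAt_support_finite hTdet
    have hs4 : (Function.support fun a : Option k =>
        ((m - m1 : ℕ) : ℤ) * ordAt a (Algebra.norm (RatFunc k) (q a))).Finite := by
      refine hqfin.subset ?_
      intro a ha h0
      apply ha
      dsimp only
      rw [h0, map_one, ordAt_one, mul_zero]
    have hsum := finsum_nonneg hord
    have heq : (∑ᶠ a, (((c a : ℤ) + if a = none then d else 0) * r +
        (ordAt a T.det + ((m - m1 : ℕ) : ℤ) * ordAt a (Algebra.norm (RatFunc k) (q a))))) =
        Sc * r + ((m - m1 : ℕ) : ℤ) * Sq + d * r := by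
      simp only [add_mul]
      rw [finsum_add_distrib (by
          refine (hs1.union hs2).subset ?_
          exact Function.support_add _ _) (by
          refine (hs3.union hs4).subset ?_
          exact Function.support_add _ _), finsum_add_distrib hs1 hs2,
        finsum_add_distrib hs3 hs4, finsum_ordAt hTdet]
      have e1 : (∑ᶠ a : Option k, (c a : ℤ) * r) = Sc * r := by
        rw [hSc, finsum_mul' _ _ (by
          refine hcfin.subset ?_
          intro a ha h0
          apply ha
          simp [h0])]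
      have e2 : (∑ᶠ a : Option k, (if a = none then d else 0) * (r : ℤ)) = d * r := by
        rw [finsum_eq_single _ (none : Option k) (fun a ha => by simp [ha])]
        simp
      have e3 : (∑ᶠ a : Option k, ((m - m1 : ℕ) : ℤ) *
          ordAt a (Algebra.norm (RatFunc k) (q a))) = ((m - m1 : ℕ) : ℤ) * Sq := by
        rw [hSq, mul_finsum' _ _ (by
          refine hqfin.subset ?_
          intro a ha h0
          apply ha
          dsimp only
          rw [h0, map_one, ordAt_one])]
      rw [e1, e2, e3]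
      ring
    rw [heq] at hsum
    exact hsum
  -- the conclusion
  intro η hη
  have hSc0 : 0 ≤ Sc := finsum_nonneg fun a => Int.natCast_nonneg _
  refine ⟨|mu| * m1 + Sc + ∑ m ∈ Finset.range m1, |(mu - η) * m - b m|, ?_⟩
  intro m θ d hk hnz hfun
  have hsum0 : 0 ≤ ∑ m ∈ Finset.range m1, |(mu - η) * m - b m| :=
    Finset.sum_nonneg fun _ _ => abs_nonneg _
  have hSc0' : (0 : ℝ) ≤ (Sc : ℝ) := by exact_mod_cast hSc0
  rcases le_or_gt m1 m with hm | hm
  · have h3 := main m θ d hm hk hnz hfun
    have h4 : (0 : ℝ) ≤ (Sc : ℝ) * r + ((m - m1 : ℕ) : ℝ) * Sq + d * r := by exact_mod_cast h3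
    have hr0 : (0 : ℝ) < (r : ℝ) := by exact_mod_cast hrpos
    have h5 : mu * (r : ℝ) ≤ -(Sq : ℝ) := by
      have h6 := hPB
      push_cast at h6
      exact_mod_cast h6
    have h7 : (0 : ℝ) ≤ ((m - m1 : ℕ) : ℝ) := Nat.cast_nonneg _
    have h8 : ((m - m1 : ℕ) : ℝ) * (mu * r) ≤ ((m - m1 : ℕ) : ℝ) * (-(Sq : ℝ)) :=
      mul_le_mul_of_nonneg_left h5 h7
    have h9 : ((m - m1 : ℕ) : ℝ) * mu * r ≤ (Sc + d) * r := by nlinarith
    have h10 : ((m - m1 : ℕ) : ℝ) * mu ≤ Sc + d := le_of_mul_le_mul_right h9 hr0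
    have h11 : ((m - m1 : ℕ) : ℝ) = (m : ℝ) - m1 := by
      rw [Nat.cast_sub hm]
    rw [h11] at h10
    have h12 : mu * (m1 : ℝ) ≤ |mu| * m1 :=
      mul_le_mul_of_nonneg_right (le_abs_self mu) (Nat.cast_nonneg _)
    have h13 : 0 ≤ η * (m : ℝ) := by positivity
    nlinarith
  · have h3 := hb m θ d hnz hfun
    have h4 : |(mu - η) * m - b m| ≤ ∑ m ∈ Finset.range m1, |(mu - η) * m - b m| :=
      Finset.single_le_sum (f := fun m : ℕ => |(mu - η) * m - b m|)
        (fun _ _ => abs_nonneg _) (Finset.mem_range.mpr hm)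
    have h5 : (b m : ℝ) ≤ d := by exact_mod_cast h3
    have h6 := le_abs_self ((mu - η) * m - b m)
    have h7 : 0 ≤ |mu| * (m1 : ℝ) := by positivity
    linarith

end

end Pool.Agent.FJ.S
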