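import Pool.Agent.FJ.S.Defs

/-! # FJ, Theorem S: homogeneous ideals -/

set_option linter.unusedSectionVars false

namespace Pool.Agent.FJ.S

open Pool.Agent.Helper38.Scroll Module MvPolynomial

section

variable {K ι : Type} [Field K]

private theorem hc_mul {b : MvPolynomial ι K} {q : ℕ} (hb : b.IsHomogeneous q)
    (g : MvPolynomial ι K) (n : ℕ) : homogeneousComponent n (b * g) =
      if q ≤ n then b * homogeneousComponent (n - q) g else 0 := by
  have h1 : b * g = ∑ j ∈ Finset.range (g.totalDegree + 1), b * homogeneousComponent j g := by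
    rw [← Finset.mul_sum, sum_homogeneousComponent]
  conv_lhs => rw [h1]
  rw [map_sum]
  have h2 : ∀ j, homogeneousComponent n (b * homogeneousComponent j g) =
      if q + j = n then b * homogeneousComponent j g else 0 := by
    intro j
    rw [homogeneousComponent_of_mem (m := n) (n := q + j)
      (hb.mul (homogeneousComponent_isHomogeneous j g))]
    simp only [eq_comm]
  simp_rw [h2]
  split_ifs with h
  · by_cases h3 : n - q ∈ Finset.range (g.totalDegree + 1)
    · rw [Finset.sum_eq_single_of_mem (n - q) h3]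
      · rw [if_pos (by omega)]
      · intro j _ hj
        rw [if_neg (by omega)]
    · rw [Finset.sum_eq_zero]
      · rw [homogeneousComponent_eq_zero _ _ (by
          rw [Finset.mem_range] at h3
          omega), mul_zero]
      · intro j hj
        rw [if_neg]
        intro h4
        exact h3 (by
          rw [show n - q = j by omega]
          exact hj)
  · refine Finset.sum_eq_zero fun j _ => ?_
    rw [if_neg (by omega)]

theorem homI_bot : HomI (⊥ : Ideal (MvPolynomial ι K)) := by
  intro f hf n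
  rw [Ideal.mem_bot] at hf
  rw [hf, map_zero]
  exact Ideal.zero_mem _

private theorem mem_sup_decomp {I : Ideal (MvPolynomial ι K)} {b f : MvPolynomial ι K}
    (hf : f ∈ I ⊔ Ideal.span {b}) : ∃ i ∈ I, ∃ g, f = i + b * g := by
  obtain ⟨i, hi, y, hy, h⟩ := Submodule.mem_sup.1 hf
  obtain ⟨g, hg⟩ := Ideal.mem_span_singleton'.1 hy
  exact ⟨i, hi, g, by rw [← h, ← hg, mul_comm]⟩

theorem homI_sup {I : Ideal (MvPolynomial ι K)} (hI : HomI I) {b : MvPolynomial ι K} {q : ℕ}
    (hb : b.IsHomogeneous q) : HomI (I ⊔ Ideal.span {b}) := by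
  intro f hf n
  obtain ⟨i, hi, g, rfl⟩ := mem_sup_decomp hf
  rw [map_add, hc_mul hb]
  refine Ideal.add_mem _ (Ideal.mem_sup_left (hI i hi n)) ?_
  split_ifs
  · exact Ideal.mem_sup_right (Ideal.mul_mem_right _ _ (Ideal.subset_span rfl))
  · exact Ideal.zero_mem _

/-- A form of degree `m` in `I + (b)` is congruent to a multiple of `b` by a form. -/
theorem exists_of_mem_sup {I : Ideal (MvPolynomial ι K)} (hI : HomI I) {b : MvPolynomial ι K}
    {q : ℕ} (hb : b.IsHomogeneous q) {m : ℕ} {f : MvPolynomial ι K} (hf : f.IsHomogeneous (m + q))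
    (hfI : f ∈ I ⊔ Ideal.span {b}) : ∃ g : MvPolynomial ι K, g.IsHomogeneous m ∧ f - b * g ∈ I := by
  obtain ⟨i, hi, g, h⟩ := mem_sup_decomp hfI
  refine ⟨homogeneousComponent m g, homogeneousComponent_isHomogeneous m g, ?_⟩
  have h1 : homogeneousComponent (m + q) f = f := by
    rw [homogeneousComponent_of_mem hf, if_pos rfl]
  have h2 : f = homogeneousComponent (m + q) i + b * homogeneousComponent m g := by
    conv_lhs => rw [← h1, h]
    rw [map_add, hc_mul hb, if_pos (by omega), Nat.add_sub_cancel]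
  have h3 : f - b * homogeneousComponent m g = homogeneousComponent (m + q) i := by
    rw [sub_eq_iff_eq_add]
    exact h2
  rw [h3]
  exact hI i hi _

theorem mem_of_mem_sup_of_lt {I : Ideal (MvPolynomial ι K)} (hI : HomI I) {b : MvPolynomial ι K}
    {q : ℕ} (hb : b.IsHomogeneous q) {m : ℕ} (hm : m < q) {f : MvPolynomial ι K}
    (hf : f.IsHomogeneous m) (hfI : f ∈ I ⊔ Ideal.span {b}) : f ∈ I := by
  obtain ⟨i, hi, g, h⟩ := mem_sup_decomp hfI
  have h1 : homogeneousComponent m f = f := by
    rw [homogeneousComponent_of_mem hf, if_pos rfl]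
  rw [← h1, h, map_add, hc_mul hb, if_neg (by omega), add_zero]
  exact hI i hi _

theorem homI_colon {I J : Ideal (MvPolynomial ι K)} (hI : HomI I) {b : MvPolynomial ι K} {q : ℕ}
    (hb : b.IsHomogeneous q) (hJ : ∀ x, x ∈ J ↔ b * x ∈ I) : HomI J := by
  intro x hx n
  rw [hJ] at hx ⊢
  have h := hI _ hx (n + q)
  rwa [hc_mul hb, if_pos (by omega), Nat.add_sub_cancel] at h

attribute [local instance] MvPolynomial.gradedAlgebra

theorem exists_of_not_prime {I : Ideal (MvPolynomial ι K)} (hI : HomI I) (htop : I ≠ ⊤)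
    (h : ¬ I.IsPrime) : ∃ (a b : MvPolynomial ι K) (p q : ℕ), a.IsHomogeneous p ∧
      b.IsHomogeneous q ∧ a ∉ I ∧ b ∉ I ∧ a * b ∈ I := by
  by_contra hcon
  apply h
  have hI' : I.IsHomogeneous (homogeneousSubmodule ι K) := by
    intro i r hr
    have h1 := hI r hr i
    rw [← decomposition.decompose'_apply] at h1
    exact h1
  refine hI'.isPrime_of_homogeneous_mem_or_mem htop ?_
  rintro x y ⟨p, hp⟩ ⟨q, hq⟩ hxy
  by_contra h2
  rw [not_or] at h2
  exact hcon ⟨x, y, p, q, hp, hq, h2.1, h2.2, hxy⟩

end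

end Pool.Agent.FJ.S
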