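import Pool.Agent.FJ.S.Defs
import Pool.Agent.FJ.S.EP
import Pool.Agent.FJ.S.R1

/-! # FJ, Theorem S: the lattice families on the pieces of S/I -/

set_option linter.unusedSectionVars false

namespace Pool.Agent.FJ.S

open Pool.Agent.Helper38.Scroll Module MvPolynomial

section

variable {k K ι : Type} [Field k] [Field K] [Algebra (RatFunc k) K] [Algebra k K]
  [IsScalarTower k (RatFunc k) K] [IsAlgClosed k] [CharZero k] [FiniteDimensional (RatFunc k) K]
  [Finite ι]

private lemma ql_homFG (m : ℕ) : (homogeneousSubmodule ι K m).FG := by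
  rw [← homogeneousSubmodule_one_pow, homogeneousSubmodule_one_eq_span_X]
  exact (Submodule.fg_span (Set.finite_range _)).pow m

instance finiteDimensional_Sm (m : ℕ) : FiniteDimensional (RatFunc k) (Sm k K ι m) := by
  have h1 : Module.Finite K (homogeneousSubmodule ι K m) := Module.Finite.iff_fg.2 (ql_homFG m)
  have h2 : Module.Finite (RatFunc k) (homogeneousSubmodule ι K m) :=
    Module.Finite.trans K _
  exact h2

instance finiteDimensional_Bm (I : Ideal (MvPolynomial ι K)) (m : ℕ) :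
    FiniteDimensional (RatFunc k) (Bm k I m) := by
  unfold Bm
  infer_instance

private lemma ql_lift {I : Ideal (MvPolynomial ι K)} {m : ℕ} (u : Bm k I m) :
    ∃ f : MvPolynomial ι K, f.IsHomogeneous m ∧
      Ideal.Quotient.mk I f = (u : MvPolynomial ι K ⧸ I) := by
  obtain ⟨u, f, hf, rfl⟩ := u
  exact ⟨f, hf, rfl⟩

private lemma ql_mem {I : Ideal (MvPolynomial ι K)} {m : ℕ} {f : MvPolynomial ι K}
    (hf : f.IsHomogeneous m) : Ideal.Quotient.mk I f ∈ Bm k I m :=
  ⟨f, hf, rfl⟩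

/-- The images of the lattices `(E a)^m` in `(S/I)_m`. -/
noncomputable def QL (E : LinLat k K ι) (I : Ideal (MvPolynomial ι K)) (m : ℕ) :
    LatticeFamily k (Bm k I m) where
  W a :=
    { carrier := {u | ∃ f ∈ (E.E a) ^ m, Ideal.Quotient.mk I f = (u : MvPolynomial ι K ⧸ I)}
      add_mem' := by
        rintro u v ⟨f, hf, hfu⟩ ⟨g, hg, hgv⟩
        exact ⟨f + g, add_mem hf hg, by rw [map_add, hfu, hgv]; rfl⟩
      zero_mem' := ⟨0, zero_mem _, by rw [map_zero]; rfl⟩
      smul_mem' := by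
        rintro ⟨r, hr⟩ u ⟨f, hf, hfu⟩
        refine ⟨r • f, pow_smul E a m hr hf, ?_⟩
        change (Ideal.Quotient.mkₐ (RatFunc k) I) (r • f) = _
        rw [map_smul]
        change r • (Ideal.Quotient.mk I f) = _
        rw [hfu]
        rfl }
  fin u := by
    obtain ⟨f, hf, hfu⟩ := ql_lift u
    refine (pow_cofinite E m hf).subset ?_
    intro a ha hmem
    exact ha ⟨f, hmem, hfu⟩
  absorb a u := by
    obtain ⟨f, hf, hfu⟩ := ql_lift u
    obtain ⟨n, hn⟩ := pow_absorb E a m hf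
    refine ⟨n, (unifAt a) ^ n • f, hn, ?_⟩
    change (Ideal.Quotient.mkₐ (RatFunc k) I) ((unifAt a) ^ n • f) = _
    rw [map_smul]
    change (unifAt a) ^ n • (Ideal.Quotient.mk I f) = _
    rw [hfu]
    rfl

theorem mem_QL {E : LinLat k K ι} {I : Ideal (MvPolynomial ι K)} {m : ℕ} {a : Option k}
    {u : Bm k I m} : u ∈ (QL E I m).W a ↔
      ∃ f ∈ (E.E a) ^ m, Ideal.Quotient.mk I f = (u : MvPolynomial ι K ⧸ I) := Iff.rfl

private instance ql_tower (a : Option k) :
    IsScalarTower (localRing a) (regRing k K a) (MvPolynomial ι K) :=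
  ⟨fun r s f => by
    change ((r : RatFunc k) • (s : K)) • f = (r : RatFunc k) • ((s : K) • f)
    rw [smul_assoc]⟩

theorem QL_fg (E : LinLat k K ι) (I : Ideal (MvPolynomial ι K)) (m : ℕ) (a : Option k) :
    ((QL E I m).W a).FG := by
  have h1 : ((E.E a) ^ m).FG := (E.fg a).pow m
  have h2 : (((E.E a) ^ m).restrictScalars (localRing a)).FG := h1.restrictScalars
  let φ : (((E.E a) ^ m).restrictScalars (localRing a)) →ₗ[localRing a] Bm k I m :=
    { toFun := fun f => ⟨Ideal.Quotient.mk I f.1, ql_mem (pow_hom E a m f.2)⟩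
      map_add' := fun f g => by
        apply Subtype.ext
        exact map_add _ _ _
      map_smul' := fun r f => by
        apply Subtype.ext
        change (Ideal.Quotient.mkₐ (RatFunc k) I) ((r : RatFunc k) • (f : MvPolynomial ι K)) = _
        rw [map_smul]
        rfl }
  have h3 : (QL E I m).W a = LinearMap.range φ := by
    ext u
    constructor
    · rintro ⟨f, hf, hfu⟩
      exact ⟨⟨f, hf⟩, Subtype.ext hfu⟩
    · rintro ⟨f, rfl⟩
      exact ⟨f.1, f.2, rfl⟩
  rw [h3, LinearMap.range_eq_map]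
  exact Submodule.FG.map φ ((Submodule.fg_top _).2 h2)

/-- The functional on the forms given by a functional on the quotient. -/
private lemma ql_ext (I : Ideal (MvPolynomial ι K)) (m : ℕ)
    (l : Bm k I m →ₗ[RatFunc k] RatFunc k) :
    ∃ θ : MvPolynomial ι K →ₗ[RatFunc k] RatFunc k, ∀ (f : MvPolynomial ι K)
      (hf : f.IsHomogeneous m), θ f = l ⟨Ideal.Quotient.mk I f, ql_mem hf⟩ := by
  let φ : Sm k K ι m →ₗ[RatFunc k] Bm k I m :=
    { toFun := fun f => ⟨Ideal.Quotient.mk I f.1, ql_mem f.2⟩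
      map_add' := fun f g => by
        apply Subtype.ext
        exact map_add _ _ _
      map_smul' := fun r f => by
        apply Subtype.ext
        change (Ideal.Quotient.mkₐ (RatFunc k) I) ((r : RatFunc k) • (f : MvPolynomial ι K)) = _
        rw [map_smul]
        rfl }
  obtain ⟨θ, hθ⟩ := LinearMap.exists_extend (l ∘ₗ φ)
  refine ⟨θ, fun f hf => ?_⟩
  have := LinearMap.congr_fun hθ ⟨f, hf⟩
  exact this

theorem QL_upper (E : LinLat k K ι) (I : Ideal (MvPolynomial ι K)) (m : ℕ)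
    (l : Bm k I m →ₗ[RatFunc k] RatFunc k) :
    {a | ∃ u ∈ (QL E I m).W a, l u ∉ localRing a}.Finite := by
  obtain ⟨θ, hθ⟩ := ql_ext I m l
  refine (pow_upper E m θ).subset ?_
  rintro a ⟨u, ⟨f, hf, hfu⟩, hu⟩
  refine ⟨f, hf, ?_⟩
  rw [hθ f (pow_hom E a m hf)]
  have : (⟨Ideal.Quotient.mk I f, ql_mem (pow_hom E a m hf)⟩ : Bm k I m) = u := Subtype.ext hfu
  rw [this]
  exact hu

theorem QL_LB (E : LinLat k K ι) (I : Ideal (MvPolynomial ι K)) (m : ℕ) {lam : ℤ}
    (h : ∀ (θ : MvPolynomial ι K →ₗ[RatFunc k] RatFunc k) (d : ℤ), Kills I m θ → NonZ m θ →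
      IsFunS E m d θ → lam ≤ d) (d : ℤ) (l : Bm k I m →ₗ[RatFunc k] RatFunc k) (hl : l ≠ 0)
    (hd : IsFun (QL E I m) d l) : lam ≤ d := by
  obtain ⟨θ, hθ⟩ := ql_ext I m l
  refine h θ d ?_ ?_ ⟨?_, ?_⟩
  · intro f hfI hf
    rw [hθ f hf]
    have : (⟨Ideal.Quotient.mk I f, ql_mem hf⟩ : Bm k I m) = 0 :=
      Subtype.ext (Ideal.Quotient.eq_zero_iff_mem.2 hfI)
    rw [this, map_zero]
  · have h1 : ∃ u, l u ≠ 0 := by
      by_contra hcon
      push Not at hcon
      exact hl (LinearMap.ext hcon)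
    obtain ⟨u, hu⟩ := h1
    obtain ⟨f, hf, hfu⟩ := ql_lift u
    refine ⟨f, hf, ?_⟩
    rw [hθ f hf]
    have : (⟨Ideal.Quotient.mk I f, ql_mem hf⟩ : Bm k I m) = u := Subtype.ext hfu
    rw [this]
    exact hu
  · intro a f hf
    rw [hθ f (pow_hom E _ m hf)]
    exact hd.1 a _ ⟨f, hf, rfl⟩
  · intro f hf
    rw [hθ f (pow_hom E _ m hf)]
    exact hd.2 _ ⟨f, hf, rfl⟩

theorem degGE_QL (E : LinLat k K ι) (I : Ideal (MvPolynomial ι K)) (m : ℕ) {lam : ℤ}
    (h : ∀ (θ : MvPolynomial ι K →ₗ[RatFunc k] RatFunc k) (d : ℤ), Kills I m θ → NonZ m θ →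
      IsFunS E m d θ → lam ≤ d) : DegGE (QL E I m) (lam * finrank (RatFunc k) (Bm k I m)) := by
  obtain ⟨b, hb⟩ := exists_basis_sections (QL E I m) (QL_fg E I m none) (QL_LB E I m h)
  exact degGE_of_basis_sections _ b hb

end

end Pool.Agent.FJ.S
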