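import Pool.Agent.FJ.S.Defs
import Pool.Agent.FJ.S.HI
import Pool.Agent.FJ.S.QL

/-! # FJ, Theorem S: the dichotomy for the Hilbert function -/

set_option linter.unusedSectionVars false

namespace Pool.Agent.FJ.S

open Pool.Agent.Helper38.Scroll Module MvPolynomial

section

variable {k K ι : Type} [Field k] [Field K] [Algebra (RatFunc k) K] [Algebra k K]
  [IsScalarTower k (RatFunc k) K]

private lemma di_mem {I : Ideal (MvPolynomial ι K)} {m : ℕ} {u : MvPolynomial ι K ⧸ I} :
    u ∈ Bm k I m ↔ ∃ f : MvPolynomial ι K, f.IsHomogeneous m ∧ Ideal.Quotient.mk I f = u := by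
  unfold Bm Sm
  rw [Submodule.mem_map]
  constructor <;> rintro ⟨f, hf, h⟩ <;> exact ⟨f, hf, h⟩

/-- Multiplication by the class of a form of degree one. -/
private noncomputable def diMul (I : Ideal (MvPolynomial ι K)) (i0 : ι) (m : ℕ) :
    Bm k I m →ₗ[RatFunc k] Bm k I (m + 1) :=
  LinearMap.restrict (LinearMap.mulLeft (RatFunc k) (Ideal.Quotient.mk I (X i0))) (by
    intro u hu
    obtain ⟨f, hf, rfl⟩ := di_mem.1 hu
    refine di_mem.2 ⟨X i0 * f, ?_, ?_⟩
    · rw [add_comm]
      exact (isHomogeneous_X K i0).mul hf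
    · rw [map_mul]
      rfl)

private lemma diMul_coe (I : Ideal (MvPolynomial ι K)) (i0 : ι) (m : ℕ) (u : Bm k I m) :
    (diMul I i0 m u : MvPolynomial ι K ⧸ I) = Ideal.Quotient.mk I (X i0) * u := rfl

private lemma diMul_injective {I : Ideal (MvPolynomial ι K)} (hprime : I.IsPrime) {i0 : ι}
    (hi0 : (X i0 : MvPolynomial ι K) ∉ I) (m : ℕ) :
    Function.Injective (diMul (k := k) I i0 m) := by
  have := hprime
  rw [← LinearMap.ker_eq_bot, LinearMap.ker_eq_bot']
  intro u hu
  have h1 := congrArg (Subtype.val) hu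
  rw [diMul_coe] at h1
  have h2 : Ideal.Quotient.mk I (X i0 : MvPolynomial ι K) ≠ 0 := fun h =>
    hi0 (Ideal.Quotient.eq_zero_iff_mem.1 h)
  apply Subtype.ext
  exact (mul_eq_zero.1 h1).resolve_left h2

/-- Surjectivity propagates to higher degrees. -/
private lemma di_step {I : Ideal (MvPolynomial ι K)} {i0 : ι} {m : ℕ}
    (h : ∀ f : MvPolynomial ι K, f.IsHomogeneous (m + 1) →
        ∃ g : MvPolynomial ι K, g.IsHomogeneous m ∧ f - X i0 * g ∈ I)
    (f : MvPolynomial ι K) (hf : f.IsHomogeneous (m + 1 + 1)) :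
    ∃ g : MvPolynomial ι K, g.IsHomogeneous (m + 1) ∧ f - X i0 * g ∈ I := by
  classical
  -- monomials
  have hmon : ∀ s ∈ f.support, ∃ g : MvPolynomial ι K, g.IsHomogeneous (m + 1) ∧
      monomial s (f.coeff s) - X i0 * g ∈ I := by
    intro s hs
    have hdeg : s.degree = m + 1 + 1 := by
      have := hf (mem_support_iff.1 hs)
      rw [← this, Finsupp.degree_eq_weight_one]
      rfl
    have hne : s.support.Nonempty := by
      rw [Finset.nonempty_iff_ne_empty]
      intro h0
      have : s = 0 := Finsupp.support_eq_empty.1 h0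
      rw [this, map_zero] at hdeg
      omega
    obtain ⟨i, hi⟩ := hne
    have hle : Finsupp.single i 1 ≤ s := by
      rw [Finsupp.single_le_iff]
      exact Nat.one_le_iff_ne_zero.2 (Finsupp.mem_support_iff.1 hi)
    have hsplit : s = s - Finsupp.single i 1 + Finsupp.single i 1 :=
      (tsub_add_cancel_of_le hle).symm
    have hdeg' : (s - Finsupp.single i 1).degree = m + 1 := by
      have h1 := congrArg Finsupp.degree hsplit
      rw [map_add, Finsupp.degree_single, hdeg] at h1
      omega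
    obtain ⟨g, hg, hgI⟩ := h (monomial (s - Finsupp.single i 1) (f.coeff s))
      (isHomogeneous_monomial _ hdeg')
    refine ⟨X i * g, ?_, ?_⟩
    · rw [add_comm]
      exact (isHomogeneous_X K i).mul hg
    · have h2' : ∀ c : K, monomial s c = X i * monomial (s - Finsupp.single i 1) c := by
        intro c
        rw [X, monomial_mul, one_mul, add_comm (Finsupp.single i 1), ← hsplit]
      have h2 := h2' (f.coeff s)
      have h3 : monomial s (f.coeff s) - X i0 * (X i * g) =
          X i * (monomial (s - Finsupp.single i 1) (f.coeff s) - X i0 * g) := by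
        rw [h2]; ring
      rw [h3]
      exact I.mul_mem_left _ hgI
  choose! g hg hgI using hmon
  refine ⟨∑ s ∈ f.support, g s, IsHomogeneous.sum _ _ _ fun s hs => hg s hs, ?_⟩
  have h4 : f - X i0 * ∑ s ∈ f.support, g s =
      ∑ s ∈ f.support, (monomial s (f.coeff s) - X i0 * g s) := by
    rw [Finset.sum_sub_distrib, ← Finset.mul_sum]
    congr 1
    exact f.as_sum
  rw [h4]
  exact I.sum_mem fun s hs => hgI s hs

variable [IsAlgClosed k] [CharZero k] [FiniteDimensional (RatFunc k) K] [Finite ι]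

theorem dichotomy {I : Ideal (MvPolynomial ι K)} (hI : HomI I)
    (hprime : I.IsPrime) {i0 : ι}
    (hi0 : (X i0 : MvPolynomial ι K) ∉ I) :
    (∀ m, finrank (RatFunc k) (Bm k I m) < finrank (RatFunc k) (Bm k I (m + 1))) ∨
      ∃ m1 : ℕ, ∀ m ≥ m1, ∀ f : MvPolynomial ι K, f.IsHomogeneous (m + 1) →
        ∃ g : MvPolynomial ι K, g.IsHomogeneous m ∧ f - X i0 * g ∈ I := by
  by_cases hall : ∀ m, finrank (RatFunc k) (Bm k I m) < finrank (RatFunc k) (Bm k I (m + 1))
  · exact Or.inl hall
  right
  push Not at hall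
  obtain ⟨m1, hm1⟩ := hall
  have hinj := diMul_injective (k := k) hprime hi0 m1
  have hle := LinearMap.finrank_le_finrank_of_injective hinj
  have hsurj : Function.Surjective (diMul (k := k) I i0 m1) :=
    (LinearMap.injective_iff_surjective_of_finrank_eq_finrank (le_antisymm hle hm1)).1 hinj
  refine ⟨m1, fun m hm => ?_⟩
  induction m, hm using Nat.le_induction with
  | base =>
    intro f hf
    obtain ⟨u, hu⟩ := hsurj ⟨Ideal.Quotient.mk I f, di_mem.2 ⟨f, hf, rfl⟩⟩
    obtain ⟨g, hg, hgu⟩ := di_mem.1 u.2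
    refine ⟨g, hg, ?_⟩
    have h1 := congrArg Subtype.val hu
    rw [diMul_coe, ← hgu, ← map_mul] at h1
    exact (Ideal.Quotient.mk_eq_mk_iff_sub_mem _ _).1 h1.symm
  | succ m hm ih => exact di_step ih

end

end Pool.Agent.FJ.S
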