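import Pool.Agent.Helper38.Scroll.P13

/-!
# FJ, Theorem S: definitions

`F = k(x)`, `K` a finite extension, `S = K[X_i : i ∈ ι]`. A system of lattices of linear forms is
given by `regRing k K a`-submodules `E a` of `S_1`, `a ∈ ℙ¹`. Everything is measured over `ℙ¹`:
`F`-linear functionals on the homogeneous pieces `S_m` which are regular on `(E a)^m` at the finite
points and have a pole of order at most `d` at infinity.
-/

namespace Pool.Agent.FJ.S

open Pool.Agent.Helper38.Scroll

section line

variable {k : Type} [Field k] {U : Type} [AddCommGroup U] [Module (RatFunc k) U]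

/-- `u` is a global section of `L(t)`: it lies in the lattices at the finite points, and has a pole
of order at most `t` at infinity. -/
def IsSec (L : LatticeFamily k U) (t : ℤ) (u : U) : Prop :=
  (∀ a : k, u ∈ L.W (some a)) ∧ (unifAt (none : Option k)) ^ t • u ∈ L.W none

/-- The functional `l` maps `L` to `O(d)`: it is regular at the finite points, and has a pole of
order at most `d` at infinity. -/
def IsFun (L : LatticeFamily k U) (d : ℤ) (l : U →ₗ[RatFunc k] RatFunc k) : Prop :=
  (∀ (a : k) (u : U), u ∈ L.W (some a) → l u ∈ localRing (some a)) ∧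
    ∀ u : U, u ∈ L.W none → l u = 0 ∨ -d ≤ ordAt none (l u)

/-- The degree of `L` is at least `d`: there are linearly independent local sections whose
determinants have total order at most `-d`. -/
def DegGE (L : LatticeFamily k U) (d : ℤ) : Prop :=
  ∃ (b : Module.Basis (Fin (Module.finrank (RatFunc k) U)) (RatFunc k) U)
    (H : Option k → Fin (Module.finrank (RatFunc k) U) → U),
    (∀ a i, H a i ∈ L.W a) ∧ (∀ a, b.det (H a) ≠ 0) ∧
      {a | ordAt a (b.det (H a)) ≠ 0}.Finite ∧ d ≤ -∑ᶠ a, ordAt a (b.det (H a))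

end line

section forms

variable (k K ι : Type) [Field k] [Field K] [Algebra (RatFunc k) K] [Algebra k K]
  [IsScalarTower k (RatFunc k) K]

/-- Systems of lattices of linear forms. -/
structure LinLat where
  E : ∀ a : Option k, Submodule (regRing k K a) (MvPolynomial ι K)
  hom : ∀ a, ∀ f ∈ E a, f.IsHomogeneous 1
  fg : ∀ a, (E a).FG
  absorb : ∀ a (i : ι), ∃ m : ℕ, (unifAt a) ^ m • (MvPolynomial.X i : MvPolynomial ι K) ∈ E a
  std : {a | E a ≠ Submodule.span (regRing k K a)
    (Set.range (MvPolynomial.X : ι → MvPolynomial ι K))}.Finite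

variable {k K ι}

/-- The functional `θ` on `S_m` is regular on `(E a)^m` at the finite points and has a pole of order
at most `d` at infinity. -/
def IsFunS (E : LinLat k K ι) (m : ℕ) (d : ℤ) (θ : MvPolynomial ι K →ₗ[RatFunc k] RatFunc k) :
    Prop :=
  (∀ (a : k) (f : MvPolynomial ι K), f ∈ (E.E (some a)) ^ m → θ f ∈ localRing (some a)) ∧
    ∀ f : MvPolynomial ι K, f ∈ (E.E none) ^ m → θ f = 0 ∨ -d ≤ ordAt none (θ f)

/-- `θ` vanishes on the forms of degree `m` in `I`. -/
def Kills (I : Ideal (MvPolynomial ι K)) (m : ℕ) (θ : MvPolynomial ι K →ₗ[RatFunc k] RatFunc k) :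
    Prop := ∀ f ∈ I, f.IsHomogeneous m → θ f = 0

/-- `θ` does not vanish on `S_m`. -/
def NonZ (m : ℕ) (θ : MvPolynomial ι K →ₗ[RatFunc k] RatFunc k) : Prop :=
  ∃ f : MvPolynomial ι K, f.IsHomogeneous m ∧ θ f ≠ 0

/-- The lower bound: functionals on `(S/I)_m` have degree at least `(mu - η) m - C`. -/
def LB (E : LinLat k K ι) (mu : ℝ) (I : Ideal (MvPolynomial ι K)) : Prop :=
  ∀ η : ℝ, 0 < η → ∃ C : ℝ, ∀ (m : ℕ) (θ : MvPolynomial ι K →ₗ[RatFunc k] RatFunc k) (d : ℤ),
    Kills I m θ → NonZ m θ → IsFunS E m d θ → (mu - η) * m - C ≤ d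

/-- Homogeneous ideals. -/
def HomI {K ι : Type} [Field K] (I : Ideal (MvPolynomial ι K)) : Prop :=
  ∀ f ∈ I, ∀ n : ℕ, MvPolynomial.homogeneousComponent n f ∈ I

/-- The forms of degree `m` as a vector space over `k(x)`. -/
noncomputable def Sm (k K ι : Type) [Field k] [Field K] [Algebra (RatFunc k) K] (m : ℕ) :
    Submodule (RatFunc k) (MvPolynomial ι K) :=
  (MvPolynomial.homogeneousSubmodule ι K m).restrictScalars (RatFunc k)

/-- The image of the forms of degree `m` in `S/I`. -/
noncomputable def Bm (k : Type) {K ι : Type} [Field k] [Field K] [Algebra (RatFunc k) K]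
    (I : Ideal (MvPolynomial ι K)) (m : ℕ) : Submodule (RatFunc k) (MvPolynomial ι K ⧸ I) :=
  (Sm k K ι m).map (Ideal.Quotient.mkₐ (RatFunc k) I).toLinearMap

/-- `ψ` is a form of degree `M`, not in `I`, whose class is a section of degree `nu`: it lies in
`(E a)^M + I` at the finite points and has a zero of order at least `nu` at infinity. -/
def HasSec (E : LinLat k K ι) (I : Ideal (MvPolynomial ι K)) (M : ℕ) (nu : ℤ)
    (ψ : MvPolynomial ι K) : Prop :=
  ψ.IsHomogeneous M ∧ ψ ∉ I ∧ (∀ a : k, ∃ e ∈ (E.E (some a)) ^ M, ψ - e ∈ I) ∧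
    ∃ e ∈ (E.E none) ^ M, (unifAt (none : Option k)) ^ (-nu) • ψ - e ∈ I

/-- Lower bound for the degrees at the points with values in the finite extensions `L` of `K`: if
the image of `E` under `X_i ↦ y_i` lies in the line bundle with generators `q a`, the degree of the
line bundle is at least `mu [L : k(x)]`. -/
def PointBound (E : LinLat k K ι) (mu : ℝ) : Prop :=
  ∀ (L : Type) [Field L] [Algebra K L] [FiniteDimensional K L] [Algebra (RatFunc k) L]
    [IsScalarTower (RatFunc k) K L] [Algebra k L] [IsScalarTower k (RatFunc k) L]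
    (y : ι → L) (q : Option k → L), y ≠ 0 → (∀ a, q a ≠ 0) → {a | q a ≠ 1}.Finite →
    (∀ a, ∀ f ∈ E.E a, ∃ c ∈ regRing k L a, MvPolynomial.aeval y f = q a * c) →
    mu * (Module.finrank (RatFunc k) L : ℝ) ≤
      ((-∑ᶠ a, ordAt a (Algebra.norm (RatFunc k) (q a)) : ℤ) : ℝ)

end forms

end Pool.Agent.FJ.S
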