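import Pool.Agent.FJ.S.Defs

/-! # FJ, Theorem S: degrees in exact sequences -/

set_option linter.unusedSectionVars false

namespace Pool.Agent.FJ.S

open Pool.Agent.Helper38.Scroll Module MvPolynomial

section

variable {k : Type} [Field k] {U : Type} [AddCommGroup U] [Module (RatFunc k) U]

variable {U' U'' : Type} [AddCommGroup U'] [Module (RatFunc k) U'] [AddCommGroup U'']
  [Module (RatFunc k) U'']

/-- The determinant of a family adapted to an exact sequence. -/
private theorem r3_det {F : Type} [Field F] {V V' V'' : Type} [AddCommGroup V] [Module F V]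
    [AddCommGroup V'] [Module F V'] [AddCommGroup V''] [Module F V''] {m n : ℕ}
    (psi : V' →ₗ[F] V) (pr : V →ₗ[F] V'') (hc : ∀ x, pr (psi x) = 0)
    (b' : Basis (Fin m) F V') (b'' : Basis (Fin n) F V'') (B : Basis (Fin m ⊕ Fin n) F V)
    (h1 : ∀ i, B (Sum.inl i) = psi (b' i)) (h2 : ∀ j, pr (B (Sum.inr j)) = b'' j)
    (c : F) (H' : Fin m → V') (W : Fin n → V) (H'' : Fin n → V'') (hW : ∀ j, pr (W j) = H'' j) :
    B.det (Sum.elim (fun i => c • psi (H' i)) W) = c ^ m * b'.det H' * b''.det H'' := by
  have e1 : ∀ x, B.repr (psi x) = (b'.repr x).embDomain Function.Embedding.inl := by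
    intro x
    have hx : psi x = ∑ i, b'.repr x i • B (Sum.inl i) := by
      conv_lhs => rw [← b'.sum_repr x]
      rw [map_sum]
      exact Finset.sum_congr rfl fun i _ => by rw [map_smul, h1]
    ext s
    rw [hx, map_sum, Finset.sum_apply']
    rcases s with i | j
    · have : (b'.repr x).embDomain Function.Embedding.inl (Sum.inl i : Fin m ⊕ Fin n) =
          b'.repr x i := Finsupp.embDomain_apply_self _ _ _
      rw [this, Finset.sum_eq_single i]
      · simp
      · intro b _ hb
        simp [hb]
      · simp
    · rw [Finsupp.embDomain_of_notMem_range _ _ _ (by simp)]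
      refine Finset.sum_eq_zero fun i _ => ?_
      simp
  have e2 : ∀ x j, B.repr x (Sum.inr j) = b''.repr (pr x) j := by
    intro x j
    conv_rhs => rw [← B.sum_repr x]
    rw [map_sum, Fintype.sum_sum_type, map_add, Finsupp.add_apply, map_sum, map_sum,
      Finset.sum_apply', Finset.sum_apply']
    have z1 : ∑ i, (b''.repr (pr (B.repr x (Sum.inl i) • B (Sum.inl i)))) j = 0 := by
      refine Finset.sum_eq_zero fun i _ => ?_
      rw [h1, map_smul, hc]
      simp
    rw [z1, zero_add, Finset.sum_eq_single j]
    · rw [map_smul, h2]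
      simp
    · intro i _ hi
      rw [map_smul, h2]
      simp [hi]
    · simp
  have hM : B.toMatrix (Sum.elim (fun i => c • psi (H' i)) W) =
      Matrix.fromBlocks (c • b'.toMatrix H')
        (Matrix.of fun i j => B.repr (W j) (Sum.inl i)) 0 (b''.toMatrix H'') := by
    ext s t
    rcases s with i | i <;> rcases t with j | j
    · simp only [Basis.toMatrix_apply, Sum.elim_inl, Matrix.fromBlocks_apply₁₁, map_smul, e1,
        Finsupp.smul_apply, Matrix.smul_apply]
      rw [show (Sum.inl i : Fin m ⊕ Fin n) = Function.Embedding.inl i from rfl,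
        Finsupp.embDomain_apply_self]
    · simp [Basis.toMatrix_apply]
    · rw [Basis.toMatrix_apply, Sum.elim_inl, Matrix.fromBlocks_apply₂₁, e2, map_smul, hc,
        smul_zero, map_zero]
      rfl
    · simp only [Basis.toMatrix_apply, Sum.elim_inr, Matrix.fromBlocks_apply₂₂, e2, hW]
  rw [Basis.det_apply, hM, Matrix.det_fromBlocks_zero₂₁, Matrix.det_smul, Fintype.card_fin,
    Basis.det_apply, Basis.det_apply]

/-- Degrees are superadditive in exact sequences. -/
theorem degGE_add [FiniteDimensional (RatFunc k) U] (L' : LatticeFamily k U')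
    (L : LatticeFamily k U) (L'' : LatticeFamily k U'') (psi : U' →ₗ[RatFunc k] U)
    (hinj : Function.Injective psi) (pr : U →ₗ[RatFunc k] U'') (hsurj : Function.Surjective pr)
    (hex : LinearMap.range psi = LinearMap.ker pr) (nu : ℤ)
    (h1 : ∀ (a : k) (u : U'), u ∈ L'.W (some a) → psi u ∈ L.W (some a))
    (h1' : ∀ u : U', u ∈ L'.W none → (unifAt (none : Option k)) ^ (-nu) • psi u ∈ L.W none)
    (h2 : ∀ (a : Option k) (u : U''), u ∈ L''.W a → ∃ w ∈ L.W a, pr w = u) {d' d'' : ℤ}
    (hd' : DegGE L' d') (hd'' : DegGE L'' d'') :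
    DegGE L (d' + nu * finrank (RatFunc k) U' + d'') := by
  classical
  obtain ⟨b', H', hH', hdet', hfin', hle'⟩ := hd'
  obtain ⟨b'', H'', hH'', hdet'', hfin'', hle''⟩ := hd''
  have hc : ∀ x, pr (psi x) = 0 := fun x => by
    have : psi x ∈ LinearMap.ker pr := hex ▸ LinearMap.mem_range_self psi x
    exact this
  obtain ⟨s, hs⟩ := pr.exists_rightInverse_of_surjective (LinearMap.range_eq_top.2 hsurj)
  have hs' : ∀ y, pr (s y) = y := fun y => LinearMap.congr_fun hs y
  -- the splitting
  let T : (U' × U'') →ₗ[RatFunc k] U := psi.coprod s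
  have hT : ∀ x y, T (x, y) = psi x + s y := fun x y => by simp [T]
  have hTinj : Function.Injective T := by
    rw [← LinearMap.ker_eq_bot, LinearMap.ker_eq_bot']
    rintro ⟨x, y⟩ hxy
    rw [hT] at hxy
    have hy : y = 0 := by
      have := congrArg pr hxy
      rw [map_add, hc, hs', zero_add, map_zero] at this
      exact this
    subst hy
    rw [map_zero, add_zero] at hxy
    have : x = 0 := hinj (by rw [hxy, map_zero])
    rw [this]
    rfl
  have hTsurj : Function.Surjective T := by
    intro u
    have : u - s (pr u) ∈ LinearMap.ker pr := by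
      rw [LinearMap.mem_ker, map_sub, hs', sub_self]
    rw [← hex] at this
    obtain ⟨x, hx⟩ := this
    exact ⟨(x, pr u), by rw [hT, hx]; abel⟩
  let Te : (U' × U'') ≃ₗ[RatFunc k] U := LinearEquiv.ofBijective T ⟨hTinj, hTsurj⟩
  let B : Basis (Fin (finrank (RatFunc k) U') ⊕ Fin (finrank (RatFunc k) U'')) (RatFunc k) U :=
    (b'.prod b'').map Te
  have hB1 : ∀ i, B (Sum.inl i) = psi (b' i) := by
    intro i
    show Te ((b'.prod b'') (Sum.inl i)) = _
    rw [Basis.prod_apply]
    show T (b' i, 0) = _
    rw [hT, map_zero, add_zero]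
  have hB2 : ∀ j, pr (B (Sum.inr j)) = b'' j := by
    intro j
    have : B (Sum.inr j) = s (b'' j) := by
      show Te ((b'.prod b'') (Sum.inr j)) = _
      rw [Basis.prod_apply]
      show T (0, b'' j) = _
      rw [hT, map_zero, zero_add]
    rw [this, hs']
  have hcard : finrank (RatFunc k) U' + finrank (RatFunc k) U'' = finrank (RatFunc k) U := by
    have := Module.finrank_eq_card_basis B
    rw [this]
    simp
  let σ : Fin (finrank (RatFunc k) U') ⊕ Fin (finrank (RatFunc k) U'') ≃
      Fin (finrank (RatFunc k) U) := finSumFinEquiv.trans (finCongr hcard)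
  choose w hw hprw using fun (a : Option k) (j : Fin (finrank (RatFunc k) U'')) =>
    h2 a (H'' a j) (hH'' a j)
  let c : Option k → RatFunc k := fun a => if a = none then unifAt (none : Option k) ^ (-nu) else 1
  have hc0 : ∀ a, c a ≠ 0 := by
    intro a
    simp only [c]
    split_ifs
    · exact zpow_ne_zero _ (unifAt_ne_zero _)
    · exact one_ne_zero
  let Ht : Option k → Fin (finrank (RatFunc k) U') ⊕ Fin (finrank (RatFunc k) U'') → U :=
    fun a => Sum.elim (fun i => c a • psi (H' a i)) (w a)
  have hdet : ∀ a, (B.reindex σ).det (Ht a ∘ σ.symm) =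
      c a ^ finrank (RatFunc k) U' * b'.det (H' a) * b''.det (H'' a) := by
    intro a
    rw [Basis.det_reindex, Function.comp_assoc, Equiv.symm_comp_self, Function.comp_id]
    exact r3_det psi pr hc b' b'' B hB1 hB2 (c a) (H' a) (w a) (H'' a) (hprw a)
  have hord : ∀ a, ordAt a ((B.reindex σ).det (Ht a ∘ σ.symm)) =
      (if a = none then -nu * finrank (RatFunc k) U' else 0) + ordAt a (b'.det (H' a)) +
        ordAt a (b''.det (H'' a)) := by
    intro a
    rw [hdet, ordAt_mul a (mul_ne_zero (pow_ne_zero _ (hc0 a)) (hdet' a)) (hdet'' a),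
      ordAt_mul a (pow_ne_zero _ (hc0 a)) (hdet' a), ordAt_pow a (hc0 a)]
    congr 2
    simp only [c]
    split_ifs with h
    · subst h
      rw [ordAt_zpow _ (unifAt_ne_zero _), ordAt_unifAt]
      ring
    · rw [ordAt_one, mul_zero]
  have hfin0 : {a : Option k | (if a = none then -nu * finrank (RatFunc k) U' else 0) ≠ 0}.Finite := by
    refine Set.Finite.subset (Set.finite_singleton none) ?_
    intro a ha
    by_contra h
    exact ha (if_neg h)
  refine ⟨B.reindex σ, fun a => Ht a ∘ σ.symm, ?_, ?_, ?_, ?_⟩
  · intro a i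
    show Ht a (σ.symm i) ∈ L.W a
    rcases σ.symm i with i | j
    · show c a • psi (H' a i) ∈ L.W a
      cases a with
      | none =>
        have : c none = unifAt (none : Option k) ^ (-nu) := if_pos rfl
        rw [this]
        exact h1' _ (hH' none i)
      | some a =>
        have : c (some a) = 1 := if_neg (by simp)
        rw [this, one_smul]
        exact h1 a _ (hH' (some a) i)
    · exact hw a j
  · intro a
    rw [hdet]
    exact mul_ne_zero (mul_ne_zero (pow_ne_zero _ (hc0 a)) (hdet' a)) (hdet'' a)
  · refine Set.Finite.subset ((hfin0.union hfin').union hfin'') ?_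
    intro a ha
    rw [Set.mem_ofPred_eq, hord] at ha
    by_contra h
    simp only [Set.mem_union, Set.mem_ofPred_eq, not_or, not_not] at h
    exact ha (by rw [h.1.1, h.1.2, h.2]; rfl)
  · have hsum : ∑ᶠ a, ordAt a ((B.reindex σ).det (Ht a ∘ σ.symm)) =
        -nu * finrank (RatFunc k) U' + ∑ᶠ a, ordAt a (b'.det (H' a)) +
          ∑ᶠ a, ordAt a (b''.det (H'' a)) := by
      rw [finsum_congr hord, finsum_add_distrib, finsum_add_distrib]
      · congr 2
        rw [finsum_eq_single _ none]
        · simp
        · intro a ha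
          exact if_neg ha
      · exact hfin0
      · exact hfin'
      · refine Set.Finite.subset (hfin0.union hfin') ?_
        intro a ha
        rw [Function.mem_support] at ha
        by_contra h
        simp only [Set.mem_union, Set.mem_ofPred_eq, not_or, not_not] at h
        exact ha (by rw [h.1, h.2]; rfl)
      · exact hfin''
    rw [hsum]
    linarith

end

end Pool.Agent.FJ.S
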