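import Pool.Agent.FJ.S.Defs
import Pool.Agent.FJ.S.HI
import Pool.Agent.FJ.S.QL
import Pool.Agent.FJ.S.R3

/-! # FJ, Theorem S: multiplication by a section -/

set_option linter.unusedSectionVars false

namespace Pool.Agent.FJ.S

open Pool.Agent.Helper38.Scroll Module MvPolynomial

section

variable {k K ι : Type} [Field k] [Field K] [Algebra (RatFunc k) K] [Algebra k K]
  [IsScalarTower k (RatFunc k) K] [IsAlgClosed k] [CharZero k] [FiniteDimensional (RatFunc k) K]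
  [Finite ι]

omit [Algebra k K] [IsScalarTower k (RatFunc k) K] [IsAlgClosed k] [CharZero k]
  [FiniteDimensional (RatFunc k) K] [Finite ι] in
lemma ex_mem_Bm {I : Ideal (MvPolynomial ι K)} {m : ℕ} {u : MvPolynomial ι K ⧸ I} :
    u ∈ Bm k I m ↔ ∃ f : MvPolynomial ι K, f.IsHomogeneous m ∧ Ideal.Quotient.mk I f = u := by
  unfold Bm Sm
  rw [Submodule.mem_map]
  constructor
  · rintro ⟨f, hf, hfu⟩
    exact ⟨f, (mem_homogeneousSubmodule m f).mp hf, hfu⟩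
  · rintro ⟨f, hf, hfu⟩
    exact ⟨f, (mem_homogeneousSubmodule m f).mpr hf, hfu⟩

/-- Multiplication by `ψ`. -/
noncomputable def exMul (k : Type) {K ι : Type} [Field k] [Field K] [Algebra (RatFunc k) K]
    (I : Ideal (MvPolynomial ι K)) {ψ : MvPolynomial ι K} {M : ℕ} (hψ : ψ.IsHomogeneous M)
    (m : ℕ) : Bm k I m →ₗ[RatFunc k] Bm k I (m + M) :=
  LinearMap.restrict (LinearMap.mulLeft (RatFunc k) (Ideal.Quotient.mk I ψ)) (by
    intro u hu
    rw [ex_mem_Bm] at hu ⊢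
    obtain ⟨f, hf, rfl⟩ := hu
    refine ⟨ψ * f, ?_, ?_⟩
    · rw [add_comm]
      exact hψ.mul hf
    · rw [map_mul, LinearMap.mulLeft_apply])

lemma exMul_coe (I : Ideal (MvPolynomial ι K)) {ψ : MvPolynomial ι K} {M : ℕ}
    (hψ : ψ.IsHomogeneous M) (m : ℕ) (u : Bm k I m) :
    ((exMul k I hψ m u : Bm k I (m + M)) : MvPolynomial ι K ⧸ I) =
      Ideal.Quotient.mk I ψ * (u : MvPolynomial ι K ⧸ I) := rfl

/-- Reduction modulo a larger ideal. -/
noncomputable def exPr (k : Type) {K ι : Type} [Field k] [Field K] [Algebra (RatFunc k) K]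
    {I J : Ideal (MvPolynomial ι K)} (hIJ : I ≤ J)
    (m : ℕ) : Bm k I m →ₗ[RatFunc k] Bm k J m :=
  LinearMap.restrict (Ideal.Quotient.factorₐ (RatFunc k) hIJ).toLinearMap (by
    intro u hu
    rw [ex_mem_Bm] at hu ⊢
    obtain ⟨f, hf, rfl⟩ := hu
    exact ⟨f, hf, rfl⟩)

lemma exPr_coe {I J : Ideal (MvPolynomial ι K)} (hIJ : I ≤ J) (m : ℕ) (u : Bm k I m) :
    ((exPr k hIJ m u : Bm k J m) : MvPolynomial ι K ⧸ J) =
      Ideal.Quotient.factor hIJ (u : MvPolynomial ι K ⧸ I) := rfl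

lemma exMul_injective {I : Ideal (MvPolynomial ι K)} (hprime : I.IsPrime)
    {ψ : MvPolynomial ι K} {M : ℕ} (hψ : ψ.IsHomogeneous M) (hψI : ψ ∉ I) (m : ℕ) :
    Function.Injective (exMul k I hψ m) := by
  rw [← LinearMap.ker_eq_bot, LinearMap.ker_eq_bot']
  intro u hu
  obtain ⟨f, -, hfu⟩ := ex_mem_Bm.mp u.2
  have h1 := congrArg (Subtype.val) hu
  rw [exMul_coe, ← hfu, ← map_mul] at h1
  have h2 : ψ * f ∈ I := Ideal.Quotient.eq_zero_iff_mem.mp h1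
  have h3 : f ∈ I := (hprime.mem_or_mem h2).resolve_left hψI
  apply Subtype.ext
  rw [← hfu]
  exact Ideal.Quotient.eq_zero_iff_mem.mpr h3

lemma exPr_surjective {I J : Ideal (MvPolynomial ι K)} (hIJ : I ≤ J) (m : ℕ) :
    Function.Surjective (exPr k hIJ m) := by
  intro v
  obtain ⟨f, hf, hfv⟩ := ex_mem_Bm.mp v.2
  refine ⟨⟨Ideal.Quotient.mk I f, ex_mem_Bm.mpr ⟨f, hf, rfl⟩⟩, Subtype.ext ?_⟩
  rw [exPr_coe, ← hfv]
  exact Ideal.Quotient.factor_mk hIJ f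

lemma ex_exact {I : Ideal (MvPolynomial ι K)} (hI : HomI I)
    {ψ : MvPolynomial ι K} {M : ℕ} (hψ : ψ.IsHomogeneous M) (m : ℕ) :
    LinearMap.range (exMul k I hψ m) =
      LinearMap.ker (exPr k (le_sup_left : I ≤ I ⊔ Ideal.span {ψ}) (m + M)) := by
  ext u
  rw [LinearMap.mem_range, LinearMap.mem_ker]
  constructor
  · rintro ⟨v, rfl⟩
    obtain ⟨g, -, hgv⟩ := ex_mem_Bm.mp v.2
    apply Subtype.ext
    rw [exPr_coe, exMul_coe, ← hgv, ← map_mul, Ideal.Quotient.factor_mk]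
    refine Ideal.Quotient.eq_zero_iff_mem.mpr ?_
    exact Ideal.mul_mem_right _ _ (Ideal.mem_sup_right (Ideal.mem_span_singleton_self ψ))
  · intro hu
    obtain ⟨f, hf, hfu⟩ := ex_mem_Bm.mp u.2
    have h1 := congrArg (Subtype.val) hu
    rw [exPr_coe, ← hfu, Ideal.Quotient.factor_mk] at h1
    have h2 : f ∈ I ⊔ Ideal.span {ψ} := Ideal.Quotient.eq_zero_iff_mem.mp h1
    obtain ⟨g, hg, hfg⟩ := exists_of_mem_sup hI hψ hf h2
    refine ⟨⟨Ideal.Quotient.mk I g, ex_mem_Bm.mpr ⟨g, hg, rfl⟩⟩, Subtype.ext ?_⟩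
    rw [exMul_coe, ← hfu, ← map_mul]
    exact ((Ideal.Quotient.mk_eq_mk_iff_sub_mem _ _).mpr hfg).symm

theorem finrank_step {I : Ideal (MvPolynomial ι K)} (hI : HomI I)
    (hprime : I.IsPrime)
    {ψ : MvPolynomial ι K} {M : ℕ} (hψ : ψ.IsHomogeneous M) (hψI : ψ ∉ I) (m : ℕ) :
    finrank (RatFunc k) (Bm k I (m + M)) = finrank (RatFunc k) (Bm k I m) +
      finrank (RatFunc k) (Bm k (I ⊔ Ideal.span {ψ}) (m + M)) := by
  have h1 := LinearMap.finrank_range_add_finrank_ker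
    (exPr k (le_sup_left : I ≤ I ⊔ Ideal.span {ψ}) (m + M))
  rw [← ex_exact hI hψ m, LinearMap.finrank_range_of_inj (exMul_injective hprime hψ hψI m),
    LinearMap.range_eq_top.mpr (exPr_surjective _ _), finrank_top] at h1
  omega

theorem degGE_step (E : LinLat k K ι) {I : Ideal (MvPolynomial ι K)} (hI : HomI I)
    (hprime : I.IsPrime)
    {ψ : MvPolynomial ι K} {M : ℕ} {nu : ℤ} (hψ : HasSec E I M nu ψ) (m : ℕ) {d d'' : ℤ}
    (h1 : DegGE (QL E I m) d) (h2 : DegGE (QL E (I ⊔ Ideal.span {ψ}) (m + M)) d'') :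
    DegGE (QL E I (m + M)) (d + nu * finrank (RatFunc k) (Bm k I m) + d'') := by
  obtain ⟨hψh, hψI, hfin, hnone⟩ := hψ
  refine degGE_add (QL E I m) (QL E I (m + M)) (QL E (I ⊔ Ideal.span {ψ}) (m + M))
    (exMul k I hψh m) (exMul_injective hprime hψh hψI m)
    (exPr k (le_sup_left : I ≤ I ⊔ Ideal.span {ψ}) (m + M)) (exPr_surjective _ _)
    (ex_exact hI hψh m) nu ?_ ?_ ?_ h1 h2
  · intro a u hu
    obtain ⟨f, hf, hfu⟩ := mem_QL.mp hu
    obtain ⟨e, he, hψe⟩ := hfin a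
    refine mem_QL.mpr ⟨f * e, ?_, ?_⟩
    · rw [pow_add]
      exact Submodule.mul_mem_mul hf he
    · rw [exMul_coe, ← hfu, map_mul, mul_comm]
      congr 1
      exact ((Ideal.Quotient.mk_eq_mk_iff_sub_mem _ _).mpr hψe).symm
  · intro u hu
    obtain ⟨f, hf, hfu⟩ := mem_QL.mp hu
    obtain ⟨e, he, hψe⟩ := hnone
    refine mem_QL.mpr ⟨f * e, ?_, ?_⟩
    · rw [pow_add]
      exact Submodule.mul_mem_mul hf he
    · rw [Submodule.coe_smul, exMul_coe, ← hfu, map_mul, mul_comm, ← smul_mul_assoc]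
      congr 1
      have h3 := (Ideal.Quotient.mk_eq_mk_iff_sub_mem _ _).mpr hψe
      rw [← h3]
      exact map_smul (Ideal.Quotient.mkₐ (RatFunc k) I) _ _
  · intro a u hu
    obtain ⟨f, hf, hfu⟩ := mem_QL.mp hu
    have hfh : f.IsHomogeneous (m + M) := pow_hom E a (m + M) hf
    refine ⟨⟨Ideal.Quotient.mk I f, ex_mem_Bm.mpr ⟨f, hfh, rfl⟩⟩, mem_QL.mpr ⟨f, hf, rfl⟩,
      Subtype.ext ?_⟩
    rw [exPr_coe, ← hfu]
    exact Ideal.Quotient.factor_mk _ f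

end

end Pool.Agent.FJ.S
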