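import Pool.Agent.FJ.S.Defs
import Pool.Agent.FJ.S.HI
import Pool.Agent.FJ.S.SC

/-! # FJ, Theorem S: ideals which are not prime -/

set_option linter.unusedSectionVars false

namespace Pool.Agent.FJ.S

open Pool.Agent.Helper38.Scroll Module MvPolynomial

section

variable {k K ι : Type} [Field k] [Field K] [Algebra (RatFunc k) K] [Algebra k K]
  [IsScalarTower k (RatFunc k) K] [IsAlgClosed k] [CharZero k] [FiniteDimensional (RatFunc k) K]
  [Finite ι]

/-- Multiplication by the scaled form `p • b`. -/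
private theorem np_mul (E : LinLat k K ι) {I J : Ideal (MvPolynomial ι K)}
    {b : MvPolynomial ι K} {q : ℕ} (hb : b.IsHomogeneous q) (hJ : ∀ x, x ∈ J ↔ b * x ∈ I)
    {p : RatFunc k} {c : ℕ} (hp : p ≠ 0) (h1 : ∀ a : k, p • b ∈ (E.E (some a)) ^ q)
    (h2 : (unifAt (none : Option k)) ^ c • (p • b) ∈ (E.E none) ^ q) {m : ℕ}
    {θ : MvPolynomial ι K →ₗ[RatFunc k] RatFunc k} {d : ℤ} (hK : Kills I (q + m) θ)
    (hF : IsFunS E (q + m) d θ) {g : MvPolynomial ι K} (hg : g.IsHomogeneous m)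
    (hg0 : θ (b * g) ≠ 0) : ∃ θ' : MvPolynomial ι K →ₗ[RatFunc k] RatFunc k,
      Kills J m θ' ∧ NonZ m θ' ∧ IsFunS E m (d + c) θ' := by
  have hval : ∀ f, (θ ∘ₗ LinearMap.mulLeft (RatFunc k) (p • b)) f = θ ((p • b) * f) := fun f => rfl
  have hsm : ∀ f, θ ((p • b) * f) = p * θ (b * f) := by
    intro f
    rw [smul_mul_assoc, map_smul, smul_eq_mul]
  refine ⟨θ ∘ₗ LinearMap.mulLeft (RatFunc k) (p • b), ?_, ?_, ?_, ?_⟩
  · intro f hf hfm
    rw [hval, hsm, hK (b * f) ((hJ f).1 hf) (hb.mul hfm), mul_zero]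
  · refine ⟨g, hg, ?_⟩
    rw [hval, hsm]
    exact mul_ne_zero hp hg0
  · intro a f hf
    rw [hval]
    refine hF.1 a _ ?_
    rw [pow_add]
    exact Submodule.mul_mem_mul (h1 a) hf
  · intro f hf
    rw [hval]
    have hmem : (unifAt (none : Option k)) ^ c • (p • b) * f ∈ (E.E none) ^ (q + m) := by
      rw [pow_add]
      exact Submodule.mul_mem_mul h2 hf
    have h3 := hF.2 _ hmem
    rw [smul_mul_assoc, map_smul, smul_eq_mul] at h3
    have hu : (unifAt (none : Option k)) ^ c ≠ 0 := pow_ne_zero _ (unifAt_ne_zero _)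
    by_cases h0 : θ ((p • b) * f) = 0
    · exact Or.inl h0
    · right
      rcases h3 with h3 | h3
      · exact absurd h3 (mul_ne_zero hu h0)
      · rw [ordAt_mul _ hu h0, ordAt_pow _ (unifAt_ne_zero _), ordAt_unifAt] at h3
        linarith

theorem LB_of_mul (E : LinLat k K ι) {mu : ℝ} {I J : Ideal (MvPolynomial ι K)}
    (hI : HomI I) {b : MvPolynomial ι K} {q : ℕ}
    (hb : b.IsHomogeneous q) (hJ : ∀ x, x ∈ J ↔ b * x ∈ I) (h1 : LB E mu J)
    (h2 : LB E mu (I ⊔ Ideal.span {b})) : LB E mu I := by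
  intro η hη
  obtain ⟨C₁, hC₁⟩ := h1 η hη
  obtain ⟨C₂, hC₂⟩ := h2 η hη
  obtain ⟨p, c, hp, hpa, hpn⟩ := exists_scale E q hb
  refine ⟨max (C₁ + c + (mu - η) * q) C₂, fun m θ d hK hN hF => ?_⟩
  by_cases hex : ∃ m' g, m = q + m' ∧ g.IsHomogeneous m' ∧ θ (b * g) ≠ 0
  · obtain ⟨m', g, rfl, hg, hg0⟩ := hex
    obtain ⟨θ', hK', hN', hF'⟩ := np_mul E hb hJ hp hpa hpn hK hF hg hg0
    have h3 := hC₁ m' θ' (d + c) hK' hN' hF'
    have h4 := le_max_left (C₁ + c + (mu - η) * q) C₂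
    push_cast at h3 ⊢
    nlinarith
  · push Not at hex
    have h3 : Kills (I ⊔ Ideal.span {b}) m θ := by
      intro f hf hfm
      rcases lt_or_ge m q with hmq | hmq
      · exact hK f (mem_of_mem_sup_of_lt hI hb hmq hfm hf) hfm
      · obtain ⟨m', rfl⟩ := Nat.exists_eq_add_of_le hmq
        obtain ⟨g, hg, hfg⟩ := exists_of_mem_sup hI hb (m := m') (by rw [add_comm]; exact hfm) hf
        have h5 : (f - b * g).IsHomogeneous (q + m') := hfm.sub (hb.mul hg)
        have h6 := hK _ hfg h5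
        rw [map_sub, hex m' g rfl hg, sub_zero] at h6
        exact h6
    have h4 := hC₂ m θ d h3 hN hF
    have h5 := le_max_right (C₁ + c + (mu - η) * q) C₂
    linarith

theorem LB_irrelevant (E : LinLat k K ι) (mu : ℝ) {I : Ideal (MvPolynomial ι K)}
    (h : ∀ i, X i ∈ I) : LB E mu I := by
  intro η _
  obtain ⟨c, hc⟩ := trivial_bound E 0
  refine ⟨-(c : ℝ), fun m θ d hK hN hF => ?_⟩
  rcases Nat.eq_zero_or_pos m with rfl | hm
  · have h1 := hc θ d hN hF
    have h2 : (c : ℝ) ≤ d := by exact_mod_cast h1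
    simp only [Nat.cast_zero, mul_zero, zero_sub, neg_neg]
    exact h2
  · exfalso
    obtain ⟨f, hf, hf0⟩ := hN
    refine hf0 (hK f ?_ hf)
    have h1 : f ∈ Ideal.span ((X : ι → MvPolynomial ι K) '' Set.univ) := by
      rw [mem_ideal_span_X_image]
      intro s hs
      by_contra hcon
      push Not at hcon
      have h2 : s = 0 := by
        ext i
        exact hcon i (Set.mem_univ i)
      have h3 := hf (mem_support_iff.1 hs)
      rw [h2] at h3
      simp at h3
      omega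
    refine Ideal.span_le.2 ?_ h1
    rintro _ ⟨i, _, rfl⟩
    exact h i

end

end Pool.Agent.FJ.S
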