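import Pool.Agent.FJ.S.Defs

/-! # FJ, Theorem S: the field of a point -/

set_option linter.unusedSectionVars false
set_option linter.unusedVariables false

namespace Pool.Agent.FJ.S

open Pool.Agent.Helper38.Scroll Module MvPolynomial

section

variable {K ι : Type} [Field K] [Finite ι]

omit [Finite ι] in
private lemma pt_scale {Ω : Type} [Field Ω] [Algebra K Ω] (x : ι → Ω) {c : Ω} (hc : c ≠ 0)
    {m : ℕ} {f : MvPolynomial ι K} (hf : f.IsHomogeneous m) :
    aeval (fun i => x i / c) f * c ^ m = aeval x f := by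
  rw [aeval_def, aeval_def, eval₂_eq, eval₂_eq, Finset.sum_mul]
  apply Finset.sum_congr rfl
  intro s hs
  have hdeg : ∑ i ∈ s.support, s i = m := by
    have := hf (mem_support_iff.mp hs)
    rw [← this, Finsupp.weight_apply, Finsupp.sum]
    simp
  have h1 : ∏ i ∈ s.support, (x i / c) ^ s i = (∏ i ∈ s.support, x i ^ s i) / c ^ m := by
    rw [← hdeg, ← Finset.prod_pow_eq_pow_sum, ← Finset.prod_div_distrib]
    apply Finset.prod_congr rfl
    intro i _
    rw [div_pow]
  rw [h1, mul_assoc, div_mul_cancel₀ _ (pow_ne_zero _ hc)]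

theorem exists_point {I : Ideal (MvPolynomial ι K)} (hI : HomI I)
    (hprime : I.IsPrime) {i0 : ι}
    (hi0 : (X i0 : MvPolynomial ι K) ∉ I) {m1 : ℕ}
    (h : ∀ m ≥ m1, ∀ f : MvPolynomial ι K, f.IsHomogeneous (m + 1) →
        ∃ g : MvPolynomial ι K, g.IsHomogeneous m ∧ f - X i0 * g ∈ I) :
    ∃ (L : Type) (_ : Field L) (_ : Algebra K L) (_ : FiniteDimensional K L) (y : ι → L),
      y i0 = 1 ∧ (∀ (m : ℕ) (f : MvPolynomial ι K), f.IsHomogeneous m →
        (aeval y f = 0 ↔ f ∈ I)) ∧
      ∀ m ≥ m1, ∀ z : L, ∃ f : MvPolynomial ι K, f.IsHomogeneous m ∧ aeval y f = z := by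
  classical
  have := hprime
  have : IsDomain (MvPolynomial ι K ⧸ I) := Ideal.Quotient.isDomain I
  let Ω := FractionRing (MvPolynomial ι K ⧸ I)
  let ξ : (MvPolynomial ι K ⧸ I) →ₐ[K] Ω := IsScalarTower.toAlgHom K _ _
  have hξ : Function.Injective ξ := IsFractionRing.injective (MvPolynomial ι K ⧸ I) Ω
  let x : ι → Ω := fun i => ξ (Ideal.Quotient.mkₐ K I (X i))
  have hx : ∀ f : MvPolynomial ι K, aeval x f = ξ (Ideal.Quotient.mkₐ K I f) := by
    intro f
    have : (aeval x : MvPolynomial ι K →ₐ[K] Ω) = ξ.comp (Ideal.Quotient.mkₐ K I) := by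
      apply MvPolynomial.algHom_ext
      intro i
      rw [aeval_X]
      rfl
    rw [this]
    rfl
  have hx0 : x i0 ≠ 0 := by
    intro h0
    apply hi0
    rw [← Ideal.Quotient.eq_zero_iff_mem]
    exact hξ (by rw [map_zero]; exact h0)
  let y : ι → Ω := fun i => x i / x i0
  have hy0 : y i0 = 1 := div_self hx0
  have hy : ∀ (m : ℕ) (f : MvPolynomial ι K), f.IsHomogeneous m →
      aeval y f * x i0 ^ m = ξ (Ideal.Quotient.mkₐ K I f) := by
    intro m f hf
    rw [← hx]
    exact pt_scale x hx0 hf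
  have hyI : ∀ (m : ℕ) (f : MvPolynomial ι K), f.IsHomogeneous m →
      (aeval y f = 0 ↔ f ∈ I) := by
    intro m f hf
    have h1 := hy m f hf
    constructor
    · intro h0
      rw [h0, zero_mul] at h1
      rw [← Ideal.Quotient.eq_zero_iff_mem]
      exact hξ (by rw [map_zero]; exact h1.symm)
    · intro hfI
      have h2 : Ideal.Quotient.mkₐ K I f = 0 := Ideal.Quotient.eq_zero_iff_mem.mpr hfI
      rw [h2, map_zero] at h1
      exact (mul_eq_zero.mp h1).resolve_right (pow_ne_zero _ hx0)
  -- the subspaces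
  let V : ℕ → Submodule K Ω := fun m =>
    (homogeneousSubmodule ι K m).map (aeval y : MvPolynomial ι K →ₐ[K] Ω).toLinearMap
  have hVsucc : ∀ m, V m ≤ V (m + 1) := by
    rintro m _ ⟨f, hf, rfl⟩
    refine ⟨X i0 * f, ?_, ?_⟩
    · have h1 := (isHomogeneous_X K i0).mul hf
      rw [add_comm] at h1
      exact h1
    · change aeval y (X i0 * f) = aeval y f
      rw [map_mul, aeval_X, hy0, one_mul]
  have hVmono : Monotone V := monotone_nat_of_le_succ hVsucc
  have hVle : ∀ m ≥ m1, V (m + 1) ≤ V m := by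
    rintro m hm _ ⟨f, hf, rfl⟩
    obtain ⟨g, hg, hfg⟩ := h m hm f hf
    refine ⟨g, hg, ?_⟩
    change aeval y g = aeval y f
    have h1 : (f - X i0 * g).IsHomogeneous (m + 1) := by
      refine IsHomogeneous.sub hf ?_
      have h1 := (isHomogeneous_X K i0).mul hg
      rw [add_comm] at h1
      exact h1
    have h2 := (hyI _ _ h1).mpr hfg
    rw [map_sub, map_mul, aeval_X, hy0, one_mul, sub_eq_zero] at h2
    exact h2.symm
  have hVeq : ∀ m ≥ m1, V m = V m1 := by
    intro m hm
    induction m, hm using Nat.le_induction with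
    | base => rfl
    | succ m hm ih =>
      rw [← ih]
      exact le_antisymm (hVle m hm) (hVsucc m)
  have hrange : ∀ f : MvPolynomial ι K, aeval y f ∈ V m1 := by
    intro f
    rw [← f.sum_homogeneousComponent, map_sum]
    apply Submodule.sum_mem
    intro i _
    have h1 : aeval y (homogeneousComponent i f) ∈ V i :=
      ⟨_, homogeneousComponent_isHomogeneous i f, rfl⟩
    rcases le_total i m1 with hi | hi
    · exact hVmono hi h1
    · rw [hVeq i hi] at h1
      exact h1
  have hfinS : FiniteDimensional K (homogeneousSubmodule ι K m1) :=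
    Module.Finite.iff_fg.mpr (homogeneousSubmodule_fg _ _ m1)
  have hfinV : FiniteDimensional K (V m1) := by
    apply Module.Finite.iff_fg.mpr
    exact (homogeneousSubmodule_fg _ _ m1).map _
  let A : Subalgebra K Ω := (aeval y : MvPolynomial ι K →ₐ[K] Ω).range
  have hAV : Subalgebra.toSubmodule A ≤ V m1 := by
    rintro _ ⟨f, rfl⟩
    exact hrange f
  have hfinA : FiniteDimensional K A := by
    have h1 : FiniteDimensional K (Subalgebra.toSubmodule A) :=
      Submodule.finiteDimensional_of_le hAV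
    exact h1
  let fA : Field A := fieldOfFiniteDimensional K A
  have hyA : ∀ i, y i ∈ A := fun i => ⟨X i, aeval_X _ _⟩
  let y' : ι → A := fun i => ⟨y i, hyA i⟩
  have hval : ∀ f : MvPolynomial ι K, ((aeval y' f : A) : Ω) = aeval y f := by
    intro f
    have : (A.val).comp (aeval y' : MvPolynomial ι K →ₐ[K] A) = aeval y := by
      apply MvPolynomial.algHom_ext
      intro i
      simp [y']
    rw [← this]
    rfl
  refine ⟨A, fA, inferInstance, hfinA, y', ?_, ?_, ?_⟩
  · exact Subtype.ext hy0
  · intro m f hf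
    rw [← hyI m f hf, ← hval]
    constructor
    · intro h0
      have := congrArg (fun z : A => (z : Ω)) h0
      exact this
    · intro h0
      exact Subtype.ext h0
  · intro m hm z
    have h1 : (z : Ω) ∈ V m := by
      rw [hVeq m hm]
      exact hAV z.2
    obtain ⟨f, hf, hfz⟩ := h1
    refine ⟨f, hf, Subtype.ext ?_⟩
    have h2 := hval f
    exact h2.trans hfz

end

end Pool.Agent.FJ.S
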