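import Pool.Agent.FJ.S.Defs
import Pool.Agent.FJ.S.HI
import Pool.Agent.FJ.S.EP

/-! # FJ, Theorem S: sections of large degree give the lower bound -/

set_option linter.unusedSectionVars false

namespace Pool.Agent.FJ.S

open Pool.Agent.Helper38.Scroll Module MvPolynomial

section

variable {k K ι : Type} [Field k] [Field K] [Algebra (RatFunc k) K] [Algebra k K]
  [IsScalarTower k (RatFunc k) K] [IsAlgClosed k] [CharZero k] [FiniteDimensional (RatFunc k) K]
  [Finite ι]

/-- A functional which kills `I_m` does not see elements of `I` in products. -/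
lemma se_kills_mul {I : Ideal (MvPolynomial ι K)} {m M : ℕ}
    {θ : MvPolynomial ι K →ₗ[RatFunc k] RatFunc k} (hθ : Kills I (M + m) θ)
    {x e f : MvPolynomial ι K} (hx : x.IsHomogeneous M) (he : e.IsHomogeneous M)
    (hxe : x - e ∈ I) (hf : f.IsHomogeneous m) : θ (x * f) = θ (e * f) := by
  have h1 : (x - e) * f ∈ I := I.mul_mem_right f hxe
  have h2 : ((x - e) * f).IsHomogeneous (M + m) := (hx.sub he).mul hf
  have h3 := hθ _ h1 h2
  rw [sub_mul, map_sub, sub_eq_zero] at h3
  exact h3

theorem LB_of_section (E : LinLat k K ι) {mu : ℝ} {I : Ideal (MvPolynomial ι K)}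
    (hI : HomI I)
    (h : ∀ η : ℝ, 0 < η → ∃ (M : ℕ) (nu : ℤ) (ψ : MvPolynomial ι K), 0 < M ∧ HasSec E I M nu ψ ∧
      (mu - η) * M ≤ nu ∧ LB E mu (I ⊔ Ideal.span {ψ})) : LB E mu I := by
  intro η hη
  obtain ⟨M, nu, ψ, hM, ⟨hψ, -, hfin, einf, heinf, hinf⟩, hnu, hLB⟩ := h η hη
  obtain ⟨C, hC⟩ := hLB η hη
  refine ⟨C, ?_⟩
  intro m
  induction m using Nat.strong_induction_on with
  | _ m ih =>
  intro θ d hK hN hF
  by_cases hc : ∃ (n : ℕ) (g : MvPolynomial ι K), m = M + n ∧ g.IsHomogeneous n ∧ θ (ψ * g) ≠ 0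
  · obtain ⟨n, g, rfl, hg, hgne⟩ := hc
    set θ' : MvPolynomial ι K →ₗ[RatFunc k] RatFunc k :=
      θ.comp (LinearMap.mulLeft (RatFunc k) ψ) with hθ'
    have hθ'a : ∀ f, θ' f = θ (ψ * f) := fun f => rfl
    have hK' : Kills I n θ' := by
      intro f hf hfh
      rw [hθ'a]
      exact hK _ (I.mul_mem_left ψ hf) (hψ.mul hfh)
    have hN' : NonZ n θ' := ⟨g, hg, hgne⟩
    have hF' : IsFunS E n (d - nu) θ' := by
      refine ⟨?_, ?_⟩
      · intro a f hf
        obtain ⟨e, he, hei⟩ := hfin a
        rw [hθ'a, se_kills_mul hK hψ (pow_hom E _ _ he) hei (pow_hom E _ _ hf)]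
        apply hF.1 a
        rw [pow_add]
        exact Submodule.mul_mem_mul he hf
      · intro f hf
        rw [hθ'a]
        have hsm : ((unifAt (none : Option k)) ^ (-nu) • ψ).IsHomogeneous M :=
          ((homogeneousSubmodule ι K M).restrictScalars (RatFunc k)).smul_mem _ hψ
        have h1 : θ (((unifAt (none : Option k)) ^ (-nu) • ψ) * f) = θ (einf * f) :=
          se_kills_mul hK hsm (pow_hom E _ _ heinf) hinf (pow_hom E _ _ hf)
        rw [smul_mul_assoc, map_smul, smul_eq_mul] at h1
        have h2 : θ (einf * f) = 0 ∨ -d ≤ ordAt none (θ (einf * f)) := by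
          apply hF.2
          rw [pow_add]
          exact Submodule.mul_mem_mul heinf hf
        have hu : unifAt (none : Option k) ≠ 0 := unifAt_ne_zero _
        by_cases h3 : θ (ψ * f) = 0
        · exact Or.inl h3
        · right
          rw [← h1] at h2
          rcases h2 with h2 | h2
          · exact absurd (mul_eq_zero.mp h2) (by
              rintro (h4 | h4)
              · exact zpow_ne_zero _ hu h4
              · exact h3 h4)
          · rw [ordAt_mul none (zpow_ne_zero _ hu) h3, ordAt_zpow none hu, ordAt_unifAt] at h2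
            linarith
    have h4 := ih n (by omega) θ' (d - nu) hK' hN' hF'
    push_cast at h4 ⊢
    linarith
  · push Not at hc
    refine hC m θ d ?_ hN hF
    intro f hf hfh
    rcases lt_or_ge m M with hlt | hge
    · exact hK f (mem_of_mem_sup_of_lt hI hψ hlt hfh hf) hfh
    · obtain ⟨n, rfl⟩ := Nat.exists_eq_add_of_le hge
      obtain ⟨g, hg, hgI⟩ := exists_of_mem_sup (m := n) hI hψ (by rw [add_comm]; exact hfh) hf
      have h1 := hK _ hgI (hfh.sub (hψ.mul hg))
      rw [map_sub, hc n g rfl hg, sub_zero] at h1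
      exact h1

end

end Pool.Agent.FJ.S
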