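import Pool.Agent.FJ.S.Defs

/-! # FJ, Theorem S: the numerical contradiction -/

set_option linter.unusedSectionVars false

namespace Pool.Agent.FJ.S

open Pool.Agent.Helper38.Scroll Module MvPolynomial

section

theorem numeric (rho : ℕ → ℕ) (hrho : ∀ m, rho m < rho (m + 1)) {mu tau : ℝ} (hlt : tau < mu)
    {M : ℕ} (hM : 1 ≤ M) {nu C : ℝ} (hnu : (tau - (mu - tau) / 16) * M ≤ nu) (d : ℕ → ℝ)
    (hd : ∀ m < M, ((mu - (mu - tau) / 16) * m - C) * rho m ≤ d m)
    (hd' : ∀ m, d m + nu * rho m + ((mu - (mu - tau) / 16) * ((m + M : ℕ) : ℝ) - C) *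
      ((rho (m + M) : ℝ) - rho m) ≤ d (m + M))
    (hup : ∀ m, 1 ≤ m → d m ≤ tau * m * rho m) : False := by
  have hmono : StrictMono rho := strictMono_nat_of_lt_succ hrho
  set κ : ℝ := mu - tau with hκ
  have hκpos : 0 < κ := by rw [hκ]; linarith
  set S : ℕ → ℝ := fun m => ∑ i ∈ Finset.range (m / M), (rho (m - (i + 1) * M) : ℝ) with hS
  have hS0 : ∀ m, m < M → S m = 0 := by
    intro m hm
    simp only [hS]
    rw [Nat.div_eq_of_lt hm]
    simp
  have hSs : ∀ m, S (m + M) = S m + rho m := by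
    intro m
    simp only [hS]
    rw [Nat.add_div_right m (by omega : 0 < M), Finset.sum_range_succ']
    congr 1
    · apply Finset.sum_congr rfl
      intro i hi
      congr 2
      have : (i + 1 + 1) * M = (i + 1) * M + M := by ring
      rw [this]
      omega
    · congr 2
      simp
  have key : ∀ m, (tau - κ / 16) * M * S m + (mu - κ / 16) * (m * rho m - M * S m) -
      C * rho m ≤ d m := by
    intro m
    induction m using Nat.strong_induction_on with
    | _ m ih =>
      rcases Nat.lt_or_ge m M with h | h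
      · rw [hS0 m h]
        have := hd m h
        calc _ = ((mu - κ / 16) * m - C) * rho m := by ring
          _ ≤ d m := this
      · obtain ⟨n, rfl⟩ : ∃ n, m = n + M := ⟨m - M, by omega⟩
        have ih' := ih n (by omega)
        have h1 := hd' n
        have h2 : (tau - κ / 16) * M * rho n ≤ nu * rho n :=
          mul_le_mul_of_nonneg_right hnu (Nat.cast_nonneg _)
        rw [hSs n]
        have h3 : (((n + M : ℕ) : ℝ)) = n + M := by push_cast; ring
        rw [h3] at h1 ⊢
        nlinarith [ih', h1, h2]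
  have key2 : ∀ m, 1 ≤ m → 15 / 16 * κ * m * rho m ≤ κ * (M * S m) + C * rho m := by
    intro m hm
    have h1 := (key m).trans (hup m hm)
    have h2 : mu = tau + κ := by rw [hκ]; ring
    rw [h2] at h1
    nlinarith [h1]
  have hSbound : ∀ n, (M : ℝ) * S (2 * n) ≤ n * rho (2 * n) + (n + M) * rho n := by
    intro n
    set q := n / M with hq
    set p := (2 * n) / M with hp
    have hqp : q ≤ p := Nat.div_le_div_right (by omega)
    have e : S (2 * n) = ∑ i ∈ Finset.range q, (rho (2 * n - (i + 1) * M) : ℝ) +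
        ∑ i ∈ Finset.Ico q p, (rho (2 * n - (i + 1) * M) : ℝ) := by
      simp only [hS]
      rw [Finset.sum_range_add_sum_Ico _ hqp]
    have b1 : ∑ i ∈ Finset.range q, (rho (2 * n - (i + 1) * M) : ℝ) ≤ q * rho (2 * n) := by
      calc _ ≤ ∑ i ∈ Finset.range q, (rho (2 * n) : ℝ) := by
            apply Finset.sum_le_sum
            intro i hi
            exact_mod_cast hmono.monotone (Nat.sub_le _ _)
        _ = q * rho (2 * n) := by simp
    have b2 : ∑ i ∈ Finset.Ico q p, (rho (2 * n - (i + 1) * M) : ℝ) ≤ (p - q : ℕ) * rho n := by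
      calc _ ≤ ∑ i ∈ Finset.Ico q p, (rho n : ℝ) := by
            apply Finset.sum_le_sum
            intro i hi
            rw [Finset.mem_Ico] at hi
            have h1 : n < (i + 1) * M := by
              have : n / M < i + 1 := by omega
              exact (Nat.div_lt_iff_lt_mul (by omega)).1 this
            exact_mod_cast hmono.monotone (by omega)
        _ = (p - q : ℕ) * rho n := by simp
    have c1 : M * q ≤ n := Nat.mul_div_le n M
    have c2 : M * p ≤ 2 * n := Nat.mul_div_le (2 * n) M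
    have c3 : n < M * q + M := by
      have := Nat.lt_mul_div_succ n (show 0 < M by omega)
      calc n < M * (n / M + 1) := this
        _ = M * q + M := by rw [hq]; ring
    have c4 : M * (p - q) ≤ n + M := by
      rw [Nat.mul_sub]
      omega
    have c1' : (M : ℝ) * q ≤ n := by exact_mod_cast c1
    have c4' : (M : ℝ) * (p - q : ℕ) ≤ n + M := by exact_mod_cast c4
    have hr1 : (0 : ℝ) ≤ rho (2 * n) := Nat.cast_nonneg _
    have hr2 : (0 : ℝ) ≤ rho n := Nat.cast_nonneg _
    have hM0 : (0 : ℝ) ≤ M := Nat.cast_nonneg _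
    rw [e]
    calc (M : ℝ) * (_ + _) ≤ M * (q * rho (2 * n) + (p - q : ℕ) * rho n) :=
          mul_le_mul_of_nonneg_left (add_le_add b1 b2) hM0
      _ = (M * q) * rho (2 * n) + (M * (p - q : ℕ)) * rho n := by ring
      _ ≤ n * rho (2 * n) + (n + M) * rho n :=
          add_le_add (mul_le_mul_of_nonneg_right c1' hr1) (mul_le_mul_of_nonneg_right c4' hr2)
  -- infinitely many `n` with `3 rho n ≤ 2 rho (2 n)`
  have inf : ∀ n1 : ℕ, 1 ≤ n1 → ∃ n, n1 ≤ n ∧ 3 * rho n ≤ 2 * rho (2 * n) := by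
    intro n1 hn1
    by_contra hcon
    push Not at hcon
    have hpow : ∀ i : ℕ, (rho (2 ^ i * n1) : ℝ) ≤ (3 / 2) ^ i * rho n1 := by
      intro i
      induction i with
      | zero => simp
      | succ i ih =>
        have h1 := hcon (2 ^ i * n1) (Nat.le_mul_of_pos_left n1 (by positivity))
        have h2 : (2 : ℝ) * rho (2 * (2 ^ i * n1)) ≤ 3 * rho (2 ^ i * n1) := by
          exact_mod_cast h1.le
        have h3 : 2 ^ (i + 1) * n1 = 2 * (2 ^ i * n1) := by ring
        rw [h3, pow_succ]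
        linarith
    have hge : ∀ m, m ≤ rho m := fun m => hmono.id_le m
    have hbig : ∀ i : ℕ, (4 / 3 : ℝ) ^ i ≤ rho n1 := by
      intro i
      have h1 : ((2 ^ i * n1 : ℕ) : ℝ) ≤ (3 / 2) ^ i * rho n1 :=
        le_trans (by exact_mod_cast hge _) (hpow i)
      have h2 : (2 : ℝ) ^ i ≤ ((2 ^ i * n1 : ℕ) : ℝ) := by
        push_cast
        have : (1 : ℝ) ≤ n1 := by exact_mod_cast hn1
        nlinarith [show (0 : ℝ) < 2 ^ i by positivity]
      have h3 : (4 / 3 : ℝ) ^ i * (3 / 2) ^ i = 2 ^ i := by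
        rw [← mul_pow]; norm_num
      have h4 : (0 : ℝ) < (3 / 2) ^ i := by positivity
      have h5 : (4 / 3 : ℝ) ^ i * (3 / 2) ^ i ≤ rho n1 * (3 / 2) ^ i := by
        rw [h3]; linarith
      exact le_of_mul_le_mul_right h5 h4
    obtain ⟨i, hi⟩ := pow_unbounded_of_one_lt (rho n1 : ℝ) (show (1 : ℝ) < 4 / 3 by norm_num)
    exact absurd (hbig i) (not_le.2 hi)
  obtain ⟨N, hN⟩ := exists_nat_gt ((2 / 3 * κ * M + C) / (5 / 24 * κ))
  obtain ⟨n, hn, h32⟩ := inf (N + 1) (by omega)
  have h1 := key2 (2 * n) (by omega)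
  have h2 := hSbound n
  have h3 : (3 : ℝ) * rho n ≤ 2 * rho (2 * n) := by exact_mod_cast h32
  have hpos : (0 : ℝ) < rho (2 * n) := by
    have : 0 < rho (2 * n) := lt_of_lt_of_le (by omega : 0 < 2 * n) (hmono.id_le _)
    exact_mod_cast this
  have hn0 : (0 : ℝ) ≤ n := Nat.cast_nonneg _
  have hM0 : (0 : ℝ) ≤ M := Nat.cast_nonneg _
  have h4 : (M : ℝ) * S (2 * n) ≤ (5 / 3 * n + 2 / 3 * M) * rho (2 * n) := by
    have : ((n : ℝ) + M) * rho n ≤ (n + M) * (2 / 3 * rho (2 * n)) :=
      mul_le_mul_of_nonneg_left (by linarith) (by linarith)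
    linarith
  have h5 : κ * (M * S (2 * n)) ≤ κ * ((5 / 3 * n + 2 / 3 * M) * rho (2 * n)) :=
    mul_le_mul_of_nonneg_left h4 hκpos.le
  have h6 : (15 / 16 * κ * (2 * n)) * rho (2 * n) ≤
      (κ * (5 / 3 * n + 2 / 3 * M) + C) * rho (2 * n) := by
    push_cast at h1
    linarith
  have h7 := le_of_mul_le_mul_right h6 hpos
  have h8 : (N : ℝ) ≤ n := by
    have : N ≤ n := by omega
    exact_mod_cast this
  have h9 : (2 / 3 * κ * M + C) < N * (5 / 24 * κ) := by
    rwa [div_lt_iff₀ (by positivity)] at hN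
  have h10 : (N : ℝ) * (5 / 24 * κ) ≤ n * (5 / 24 * κ) :=
    mul_le_mul_of_nonneg_right h8 (by positivity)
  linarith

end

end Pool.Agent.FJ.S
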