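import Pool.Agent.FJ.S.Defs
import Pool.Agent.FJ.S.HI
import Pool.Agent.FJ.S.EX
import Pool.Agent.FJ.S.R2
import Pool.Agent.FJ.S.SC
import Pool.Agent.FJ.S.NUM

/-! # FJ, Theorem S: existence of sections of large degree -/

set_option linter.unusedSectionVars false

namespace Pool.Agent.FJ.S

open Pool.Agent.Helper38.Scroll Module MvPolynomial

section

variable {k K ι : Type} [Field k] [Field K] [Algebra (RatFunc k) K] [Algebra k K]
  [IsScalarTower k (RatFunc k) K] [IsAlgClosed k] [CharZero k] [FiniteDimensional (RatFunc k) K]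
  [Finite ι]

/-- The recursively defined lower bounds for the degrees. -/
private noncomputable def dd (rho : ℕ → ℕ) (lam : ℕ → ℤ) (M : ℕ) (nu : ℤ) : ℕ → ℤ
  | m => if _h : 0 < M ∧ M ≤ m then
      dd rho lam M nu (m - M) + nu * (rho (m - M) : ℤ) + lam m * ((rho m : ℤ) - rho (m - M))
    else lam m * (rho m : ℤ)
  termination_by m => m
  decreasing_by omega

private theorem dd_lt (rho : ℕ → ℕ) (lam : ℕ → ℤ) (M : ℕ) (nu : ℤ) {m : ℕ} (h : m < M) :
    dd rho lam M nu m = lam m * (rho m : ℤ) := by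
  rw [dd, dif_neg (by omega)]

private theorem dd_add (rho : ℕ → ℕ) (lam : ℕ → ℤ) {M : ℕ} (nu : ℤ) (hM : 0 < M) (m : ℕ) :
    dd rho lam M nu (m + M) = dd rho lam M nu m + nu * (rho m : ℤ) +
      lam (m + M) * ((rho (m + M) : ℤ) - rho m) := by
  rw [dd, dif_pos ⟨hM, by omega⟩]
  simp only [Nat.add_sub_cancel]

private theorem exists_X_notMem (I : Ideal (MvPolynomial ι K))
    (h : 0 < finrank (RatFunc k) (Bm k I 1)) :
    ∃ i : ι, (X i : MvPolynomial ι K) ∉ I := by
  by_contra hc
  push Not at hc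
  have hbot : Bm k I 1 = ⊥ := by
    rw [eq_bot_iff]
    rintro u ⟨f, hf, rfl⟩
    have hf' : f.IsHomogeneous 1 := hf
    have hfI : f ∈ I := by
      rw [f.as_sum]
      refine Ideal.sum_mem _ fun d hd => ?_
      have hdeg : d.degree = 1 := by
        have := hf' (mem_support_iff.mp hd)
        rwa [Finsupp.degree_eq_weight_one]
      obtain ⟨i, hi⟩ : ∃ i, d i ≠ 0 := by
        by_contra hcc
        push Not at hcc
        have : d = 0 := Finsupp.ext hcc
        rw [this] at hdeg
        simp at hdeg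
      have hXi : (X i : MvPolynomial ι K) ∣ monomial d (f.coeff d) := by
        have h1 : d = Finsupp.single i 1 + (d - Finsupp.single i 1) := by
          rw [add_tsub_cancel_of_le]
          rw [Finsupp.single_le_iff]
          omega
        rw [h1, ← one_mul (f.coeff _), ← monomial_mul]
        exact Dvd.intro _ rfl
      exact I.mem_of_dvd hXi (hc i)
    change (Ideal.Quotient.mk I f) ∈ (⊥ : Submodule (RatFunc k) _)
    rw [Ideal.Quotient.eq_zero_iff_mem.mpr hfI]
    exact zero_mem _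
  rw [hbot, finrank_bot] at h
  exact lt_irrefl _ h

theorem exists_section_slope (E : LinLat k K ι) {mu : ℝ} {I : Ideal (MvPolynomial ι K)} (hI : HomI I)
    (hprime : I.IsPrime)
    (hstrict : ∀ m, finrank (RatFunc k) (Bm k I m) < finrank (RatFunc k) (Bm k I (m + 1)))
    (hIH : ∀ (ψ : MvPolynomial ι K) (M : ℕ), ψ.IsHomogeneous M → 0 < M → ψ ∉ I →
      LB E mu (I ⊔ Ideal.span {ψ})) (η : ℝ) (hη : 0 < η) :
    ∃ (M : ℕ) (nu : ℤ) (ψ : MvPolynomial ι K), 0 < M ∧ HasSec E I M nu ψ ∧ (mu - η) * M ≤ nu := by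
  by_contra hcon
  push Not at hcon
  set T : Set ℝ := {x | ∃ (M : ℕ) (nu : ℤ) (ψ : MvPolynomial ι K), 0 < M ∧ HasSec E I M nu ψ ∧
    x = (nu : ℝ) / M} with hT
  have hTub : ∀ x ∈ T, x ≤ mu - η := by
    rintro x ⟨M, nu, ψ, hM, hs, rfl⟩
    have hM' : (0 : ℝ) < M := by exact_mod_cast hM
    rw [div_le_iff₀ hM']
    exact (hcon M nu ψ hM hs).le
  have hTbdd : BddAbove T := ⟨mu - η, hTub⟩
  have hTne : T.Nonempty := by
    obtain ⟨i, hi⟩ := exists_X_notMem (k := k) I (lt_of_le_of_lt (Nat.zero_le _) (hstrict 0))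
    have hXh : (X i : MvPolynomial ι K).IsHomogeneous 1 := isHomogeneous_X K i
    obtain ⟨p, c, hp, h1, h2⟩ := exists_scale E 1 hXh
    refine ⟨((-c : ℤ) : ℝ) / (1 : ℕ), 1, -c, p • X i, one_pos, ⟨?_, ?_, ?_, ?_⟩, rfl⟩
    · exact pow_hom E (some 0) 1 (h1 0)
    · intro hmem
      apply hi
      have h3 : p⁻¹ • (p • (X i : MvPolynomial ι K)) ∈ I := by
        rw [← algebraMap_smul (MvPolynomial ι K) p⁻¹ (p • (X i : MvPolynomial ι K)), smul_eq_mul]
        exact I.mul_mem_left _ hmem
      rwa [smul_smul, inv_mul_cancel₀ hp, one_smul] at h3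
    · intro a
      exact ⟨p • X i, h1 a, by rw [sub_self]; exact I.zero_mem⟩
    · refine ⟨_, h2, ?_⟩
      rw [neg_neg, zpow_natCast, sub_self]
      exact I.zero_mem
  set tau : ℝ := sSup T with htau
  have hle : tau ≤ mu - η := csSup_le hTne hTub
  have hlt : tau < mu := by linarith
  obtain ⟨x, hxT, hx⟩ := exists_lt_of_lt_csSup hTne
    (show tau - (mu - tau) / 16 < sSup T by rw [← htau]; linarith)
  obtain ⟨M, nu, ψ, hM, hs, rfl⟩ := hxT
  have hM' : (0 : ℝ) < M := by exact_mod_cast hM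
  have hnu : (tau - (mu - tau) / 16) * M ≤ nu := by
    rw [lt_div_iff₀ hM'] at hx
    exact hx.le
  obtain ⟨C, hC⟩ := hIH ψ M hs.1 hM hs.2.1 ((mu - tau) / 16) (by linarith)
  set rho : ℕ → ℕ := fun m => finrank (RatFunc k) (Bm k I m) with hrho
  have hmono : StrictMono rho := strictMono_nat_of_lt_succ hstrict
  set lam : ℕ → ℤ := fun m => ⌈(mu - (mu - tau) / 16) * (m : ℝ) - C⌉ with hlam
  have hlamle : ∀ m : ℕ, (mu - (mu - tau) / 16) * (m : ℝ) - C ≤ ((lam m : ℤ) : ℝ) :=
    fun m => Int.le_ceil _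
  have hdeg : ∀ m, DegGE (QL E I m) (dd rho lam M nu m) := by
    intro m
    induction m using Nat.strong_induction_on with
    | _ m ih =>
      rcases lt_or_ge m M with hm | hm
      · rw [dd_lt rho lam M nu hm]
        refine degGE_QL E I m ?_
        intro θ d hk hn hf
        refine Int.ceil_le.mpr (hC m θ d ?_ hn hf)
        intro f hf1 hf2
        exact hk f (mem_of_mem_sup_of_lt hI hs.1 hm hf2 hf1) hf2
      · obtain ⟨m', rfl⟩ : ∃ m', m = m' + M := ⟨m - M, by omega⟩
        rw [dd_add rho lam nu hM m']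
        have h1 := ih m' (by omega)
        have h2 : DegGE (QL E (I ⊔ Ideal.span {ψ}) (m' + M)) (lam (m' + M) *
            finrank (RatFunc k) (Bm k (I ⊔ Ideal.span {ψ}) (m' + M))) := by
          refine degGE_QL E _ _ ?_
          intro θ d hk hn hf
          exact Int.ceil_le.mpr (hC _ θ d hk hn hf)
        have h3 := degGE_step E hI hprime hs m' h1 h2
        have h4 := finrank_step (k := k) hI hprime hs.1 hs.2.1 m'
        have h5 : ((rho (m' + M) : ℤ) - rho m') =
            finrank (RatFunc k) (Bm k (I ⊔ Ideal.span {ψ}) (m' + M)) := by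
          simp only [hrho]
          rw [h4]
          push_cast
          ring
        rw [h5]
        exact h3
  refine numeric rho hstrict hlt hM (nu := (nu : ℝ)) (C := C) hnu
    (fun m => ((dd rho lam M nu m : ℤ) : ℝ)) ?_ ?_ ?_
  · intro m hm
    rw [dd_lt rho lam M nu hm]
    push_cast
    exact mul_le_mul_of_nonneg_right (hlamle m) (Nat.cast_nonneg _)
  · intro m
    rw [dd_add rho lam nu hM m]
    push_cast
    have h6 : (rho m : ℝ) ≤ rho (m + M) := by
      exact_mod_cast hmono.monotone (Nat.le_add_right m M)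
    have h7 := mul_le_mul_of_nonneg_right (hlamle (m + M)) (sub_nonneg.mpr h6)
    push_cast at h7
    linarith
  · intro m hm
    by_contra hc
    push Not at hc
    have hmpos : (0 : ℝ) < m := by exact_mod_cast hm
    set t : ℤ := ⌊tau * m⌋ + 1 with ht
    have ht1 : ((t - 1) : ℤ) * (rho m : ℤ) < dd rho lam M nu m := by
      have h8 : (((t - 1) : ℤ) : ℝ) ≤ tau * m := by
        rw [ht]
        push_cast
        simpa using Int.floor_le (tau * m)
      have h9 : (((t - 1) : ℤ) : ℝ) * (rho m : ℝ) < ((dd rho lam M nu m : ℤ) : ℝ) :=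
        lt_of_le_of_lt (mul_le_mul_of_nonneg_right h8 (Nat.cast_nonneg _)) hc
      exact_mod_cast h9
    obtain ⟨u, hu0, hu1, hu2⟩ := exists_section_of_degGE (QL E I m) (QL_upper E I m)
      (hdeg m) (t := t) ht1
    obtain ⟨f, hf, hfu⟩ := u.2
    have hfu' : Ideal.Quotient.mk I f = (u : MvPolynomial ι K ⧸ I) := hfu
    have hsec : HasSec E I m t f := by
      refine ⟨hf, ?_, ?_, ?_⟩
      · intro hfI
        apply hu0
        apply Subtype.ext
        rw [← hfu', Ideal.Quotient.eq_zero_iff_mem.mpr hfI]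
        rfl
      · intro a
        obtain ⟨e, he, heu⟩ := mem_QL.mp (hu1 a)
        refine ⟨e, he, ?_⟩
        rw [← Ideal.Quotient.eq, hfu', heu]
      · obtain ⟨e, he, heu⟩ := mem_QL.mp hu2
        refine ⟨e, he, ?_⟩
        rw [← Ideal.Quotient.eq, heu]
        change (Ideal.Quotient.mkₐ (RatFunc k) I) (_ • f) = _
        rw [map_smul]
        change _ • (Ideal.Quotient.mk I f) = _
        rw [hfu']
        rfl
    have hin : (t : ℝ) / m ∈ T := ⟨m, t, f, hm, hsec, rfl⟩
    have h10 : (t : ℝ) / m ≤ tau := le_csSup hTbdd hin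
    rw [div_le_iff₀ hmpos] at h10
    have h11 : tau * m < t := by
      rw [ht]
      push_cast
      exact Int.lt_floor_add_one _
    linarith

end

end Pool.Agent.FJ.S
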