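import Pool.Agent.FJ.S.HI
import Pool.Agent.FJ.S.NP
import Pool.Agent.FJ.S.SE
import Pool.Agent.FJ.S.TAU
import Pool.Agent.FJ.S.DI
import Pool.Agent.FJ.S.PT
import Pool.Agent.FJ.S.CO

/-! # FJ, Theorem S: the noetherian induction -/

set_option linter.unusedSectionVars false

namespace Pool.Agent.FJ.S

open Pool.Agent.Helper38.Scroll Module MvPolynomial

section

variable {k K ι : Type} [Field k] [Field K] [Algebra (RatFunc k) K] [Algebra k K]
  [IsScalarTower k (RatFunc k) K] [IsAlgClosed k] [CharZero k] [FiniteDimensional (RatFunc k) K]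
  [Finite ι]

theorem LB_all (E : LinLat k K ι) {mu : ℝ} (hP : PointBound E mu) :
    ∀ I : Ideal (MvPolynomial ι K), HomI I → LB E mu I := by
  have wf : WellFounded (fun I J : Ideal (MvPolynomial ι K) => I > J) :=
    (inferInstance : WellFoundedGT (Ideal (MvPolynomial ι K))).wf
  intro I
  induction I using wf.induction with
  | _ I ih =>
    intro hI
    by_cases hirr : ∀ i, (X i : MvPolynomial ι K) ∈ I
    · exact LB_irrelevant E mu hirr
    push Not at hirr
    obtain ⟨i0, hi0⟩ := hirr
    have htop : I ≠ ⊤ := by
      rintro rfl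
      exact hi0 Submodule.mem_top
    have hlt : ∀ b : MvPolynomial ι K, b ∉ I → I < I ⊔ Ideal.span {b} := by
      intro b hb
      refine lt_of_le_of_ne le_sup_left ?_
      intro h
      apply hb
      rw [h]
      exact Ideal.mem_sup_right (Ideal.mem_span_singleton_self b)
    by_cases hprime : I.IsPrime
    · rcases dichotomy (k := k) hI hprime hi0 with h | ⟨m1, h⟩
      · refine LB_of_section E hI ?_
        intro η hη
        obtain ⟨M, nu, ψ, hM, hsec, hle⟩ := exists_section_slope E hI hprime h
          (fun ψ M hψ _ hψI => ih _ (hlt ψ hψI) (homI_sup hI hψ)) η hη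
        exact ⟨M, nu, ψ, hM, hsec, hle, ih _ (hlt ψ hsec.2.1) (homI_sup hI hsec.1)⟩
      · obtain ⟨L, iL, iA, iF, y, hy, h1, h2⟩ := exists_point hI hprime hi0 h
        letI : Algebra (RatFunc k) L :=
          ((algebraMap K L).comp (algebraMap (RatFunc k) K)).toAlgebra
        haveI : IsScalarTower (RatFunc k) K L := IsScalarTower.of_algebraMap_eq fun x => rfl
        letI : Algebra k L := ((algebraMap K L).comp (algebraMap k K)).toAlgebra
        haveI : IsScalarTower k (RatFunc k) L := by
          refine IsScalarTower.of_algebraMap_eq fun x => ?_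
          change algebraMap K L (algebraMap k K x) =
            algebraMap K L (algebraMap (RatFunc k) K (algebraMap k (RatFunc k) x))
          rw [← IsScalarTower.algebraMap_apply k (RatFunc k) K]
        exact LB_const E hP y hy h1 h2
    · obtain ⟨a, b, p, q, ha, hb, haI, hbI, hab⟩ := exists_of_not_prime hI htop hprime
      let J : Ideal (MvPolynomial ι K) := Submodule.comap (LinearMap.mulLeft (MvPolynomial ι K) b) I
      have hJ : ∀ x, x ∈ J ↔ b * x ∈ I := fun x => Iff.rfl
      have hIJ : I < J := by
        refine lt_of_le_of_ne (fun x hx => (hJ x).mpr (I.mul_mem_left b hx)) ?_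
        intro h
        apply haI
        rw [h, hJ, mul_comm]
        exact hab
      exact LB_of_mul E hI hb hJ (ih J hIJ (homI_colon hI hb hJ))
        (ih _ (hlt b hbI) (homI_sup hI hb))

end

end Pool.Agent.FJ.S
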